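import Pool.Agent.PMD.LieA

/-!
# Project PMD (MP_b583a4_nt), module Gram: the Gram determinant times the character of `sl_2` is in `C`

PLAN. `gram`: every trace zero matrix is `!![a, b; c, -a]` (`ex3`), `tr (u v) = 2 a a' + b c' + c b'`. Let `E : Matrix (Fin 3) (Fin 3) B` have the coordinates `(a, b, c)` of `u 0, u 1, u 2` as rows and let
`Q = !![2,0,0; 0,0,1; 0,1,0]`; the Gram matrix is `E Q Eᵀ`, the matrix with row `a` replaced is `E_a Q Eᵀ` with `E_a` = `E` with row `a` replaced by the coordinates of `g u_a h` (`g h = 1`, trace zero), and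
`∑_a det E_a = (tr g tr h - 1) det E` (`Matrix.det_fin_three`; conjugation by `g` on the coordinates is a `3 × 3` matrix with trace `tr g tr h - 1`). Use `Matrix.det_mul`, `Matrix.det_transpose`. (A direct `ring` on the entries may be too heavy;
the last identity is linear in each row of `E`.) Note `h * g = 1` too (`Matrix.mul_eq_one_comm`), so `g 0 0 * h 0 0 + g 0 1 * h 1 0 = 1` etc.
`conj_L0`: `R g * th (R x) * R g⁻¹ = th (R (g x g⁻¹))` (`th_eq`, trace invariant under conjugation), `cspan_map` for the additive continuous map `z ↦ R g * z * R g⁻¹`.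
`gram_mem`: `det` of a `3 × 3` matrix with entries in `C` is in `C` (`Matrix.det_fin_three`, `C_mul`); `gram` with `g = R g`, `h = R g⁻¹`.
-/

set_option autoImplicit false
open Filter Topology

namespace Pool.Agent.PMD

/-- the coordinates of trace zero matrices -/
private def grE {B : Type*} [CommRing B] (x y z : Fin 3 → B) : Matrix (Fin 3) (Fin 3) B :=
  Matrix.of fun a k => ![x a, y a, z a] k

private def grQ (B : Type*) [CommRing B] : Matrix (Fin 3) (Fin 3) B := !![2, 0, 0; 0, 0, 1; 0, 1, 0]

private theorem gr_mul {B : Type*} [CommRing B] (x y z x' y' z' : Fin 3 → B) (a b : Fin 3) :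
    (grE x y z * grQ B * (grE x' y' z').transpose) a b =
      2 * x a * x' b + y a * z' b + z a * y' b := by
  rw [Matrix.mul_apply, Fin.sum_univ_three]
  simp only [Matrix.mul_apply, Fin.sum_univ_three, grE, grQ, Matrix.transpose_apply, Matrix.of_apply,
    Matrix.cons_val_zero, Matrix.cons_val_one, Matrix.cons_val]
  ring

private theorem gr_trace {B : Type*} [CommRing B] (x y z x' y' z' : B) :
    ((!![x, y; z, -x] : Mt B) * !![x', y'; z', -x']).trace = 2 * x * x' + y * z' + z * y' := by
  simp [Matrix.trace_fin_two, Matrix.mul_apply, Fin.sum_univ_two]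
  ring

/-- replacing the rows by their images under a linear map -/
private theorem gr_row {B : Type*} [CommRing B] (E A : Matrix (Fin 3) (Fin 3) B) :
    ∑ a : Fin 3, (Matrix.of fun c k : Fin 3 =>
      if c = a then ∑ l : Fin 3, A k l * E c l else E c k).det =
      (A 0 0 + A 1 1 + A 2 2) * E.det := by
  rw [Fin.sum_univ_three]
  simp only [Matrix.det_fin_three, Matrix.of_apply, Fin.sum_univ_three]
  simp only [Fin.isValue, if_true, one_ne_zero, zero_ne_one, if_false,
    (by decide : (2 : Fin 3) ≠ 0), (by decide : (2 : Fin 3) ≠ 1), (by decide : (0 : Fin 3) ≠ 2),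
    (by decide : (1 : Fin 3) ≠ 2)]
  ring

theorem gram {B : Type*} [CommRing B] (u : Fin 3 → Mt B) (hu : ∀ a, (u a).trace = 0) (g h : Mt B)
    (hg : g * h = 1) :
    (g.trace * h.trace - 1) * (Matrix.of fun a b : Fin 3 => (u a * u b).trace).det =
      ∑ a : Fin 3, (Matrix.of fun c b : Fin 3 =>
        if c = a then (g * u c * h * u b).trace else (u c * u b).trace).det := by
  have hg' : h * g = 1 := mul_eq_one_comm.1 hg
  choose x y z hxyz using fun a => ex3 (hu a)
  obtain ⟨p, q, r, s, rfl⟩ := ex4 g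
  obtain ⟨p', q', r', s', rfl⟩ := ex4 h
  have e00 := congrFun (congrFun hg' 0) 0
  have e01 := congrFun (congrFun hg' 0) 1
  have e10 := congrFun (congrFun hg' 1) 0
  have e11 := congrFun (congrFun hg' 1) 1
  simp only [Matrix.mul_apply, Fin.sum_univ_two, Matrix.of_apply, Matrix.cons_val', Matrix.cons_val_zero,
    Matrix.cons_val_one, Matrix.cons_val_fin_one, Matrix.one_apply_eq, Matrix.one_apply_ne (zero_ne_one' (Fin 2)),
    Matrix.one_apply_ne (one_ne_zero' (Fin 2)), Matrix.empty_val'] at e00 e01 e10 e11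
  -- the matrix of the conjugation
  set A : Matrix (Fin 3) (Fin 3) B := !![p * p' - q * r', p * r', q * p';
    p * q' - q * s', p * s', q * q'; r * p' - s * r', r * r', s * p'] with hA
  set E := grE x y z with hE
  set X : Fin 3 → B := fun a => ∑ l : Fin 3, A 0 l * E a l with hX
  set Y : Fin 3 → B := fun a => ∑ l : Fin 3, A 1 l * E a l with hY
  set Z : Fin 3 → B := fun a => ∑ l : Fin 3, A 2 l * E a l with hZ
  have hconj : ∀ a, !![p, q; r, s] * u a * !![p', q'; r', s'] = !![X a, Y a; Z a, - X a] := by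
    intro a
    rw [hxyz a]
    apply ext4
    · simp [hX, hA, hE, grE, Matrix.mul_apply, Fin.sum_univ_two, Fin.sum_univ_three]
      ring
    · simp [hY, hA, hE, grE, Matrix.mul_apply, Fin.sum_univ_two, Fin.sum_univ_three]
      ring
    · simp [hZ, hA, hE, grE, Matrix.mul_apply, Fin.sum_univ_two, Fin.sum_univ_three]
      ring
    · simp [hX, hA, hE, grE, Matrix.mul_apply, Fin.sum_univ_two, Fin.sum_univ_three]
      linear_combination (x a) * e00 + (y a) * e10 + (z a) * e01 - (x a) * e11
  have hG : (Matrix.of fun a b : Fin 3 => (u a * u b).trace) = E * grQ B * E.transpose := by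
    ext a b
    rw [hE, gr_mul, Matrix.of_apply, hxyz a, hxyz b, gr_trace]
  have hGa : ∀ a : Fin 3, (Matrix.of fun c b : Fin 3 =>
      if c = a then (!![p, q; r, s] * u c * !![p', q'; r', s'] * u b).trace else (u c * u b).trace) =
      (Matrix.of fun c k : Fin 3 => if c = a then ∑ l : Fin 3, A k l * E c l else E c k) *
        grQ B * E.transpose := by
    intro a
    have h1 : (Matrix.of fun c k : Fin 3 => if c = a then ∑ l : Fin 3, A k l * E c l else E c k) =
        grE (fun c => if c = a then X c else x c) (fun c => if c = a then Y c else y c)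
          (fun c => if c = a then Z c else z c) := by
      ext c k
      by_cases hc : c = a
      · simp only [Matrix.of_apply, grE, if_pos hc]
        fin_cases k <;> rfl
      · simp only [Matrix.of_apply, grE, if_neg hc, hE]
    rw [h1]
    ext c b
    rw [hE, gr_mul, Matrix.of_apply]
    by_cases hc : c = a
    · rw [if_pos hc, if_pos hc, if_pos hc, if_pos hc, hconj c, hxyz b, gr_trace]
    · rw [if_neg hc, if_neg hc, if_neg hc, if_neg hc, hxyz c, hxyz b, gr_trace]
  have htr : (!![p, q; r, s] : Mt B).trace * (!![p', q'; r', s'] : Mt B).trace - 1 =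
      A 0 0 + A 1 1 + A 2 2 := by
    simp [Matrix.trace_fin_two, hA]
    linear_combination e11
  rw [htr, hG, Matrix.det_mul, Matrix.det_mul]
  rw [Finset.sum_congr rfl fun a _ => by rw [hGa a, Matrix.det_mul, Matrix.det_mul]]
  rw [← Finset.sum_mul, ← Finset.sum_mul, gr_row]
  ring

namespace Dat

variable {p : ℕ} {B : Type*} [CommRing B] [TopologicalSpace B] [IsTopologicalRing B]
  {G : Type*} [Group G] [TopologicalSpace G] (d : Dat p B G)

private theorem gr_conj_th {g h x : Mt B} (hg : h * g = 1) : g * th x * h = th (g * x * h) := by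
  have hg' : g * h = 1 := mul_eq_one_comm.1 hg
  rw [th_eq, th_eq]
  have h1 : (g * x * h).trace = x.trace := by
    rw [Matrix.trace_mul_comm, ← Matrix.mul_assoc, hg, Matrix.one_mul]
  rw [h1, mul_sub, sub_mul, mul_smul_comm, smul_mul_assoc, mul_smul_comm, smul_mul_assoc, mul_one, hg']

theorem conj_L0 (hD : d.D.Normal) (g : G) {z : Mt B} (hz : z ∈ d.L 0) : d.R g * z * d.R g⁻¹ ∈ d.L 0 := by
  have h1 : d.R g⁻¹ * d.R g = 1 := by
    rw [← map_mul, inv_mul_cancel, map_one]
  let f : Mt B →+ Mt B :=
    { toFun := fun z => d.R g * z * d.R g⁻¹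
      map_zero' := by simp
      map_add' := fun a b => by rw [mul_add, add_mul] }
  have hf : Continuous f := by
    change Continuous fun z : Mt B => d.R g * z * d.R g⁻¹
    fun_prop
  have h2 : f z ∈ d.L 0 := by
    refine cspan_map f hf (d.L_closed 0) ?_ hz
    rintro s ⟨x, hx, rfl⟩
    change d.R g * th (d.R x) * d.R g⁻¹ ∈ d.L 0
    rw [gr_conj_th h1, ← map_mul, ← map_mul]
    exact d.th_mem (hD.conj_mem x hx g)
  exact h2

private theorem gr_det_mem {M : Matrix (Fin 3) (Fin 3) B} (hM : ∀ a b, M a b ∈ d.C) : M.det ∈ d.C := by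
  rw [Matrix.det_fin_three]
  have h2 : ∀ a b c e : Fin 3, ∀ a' b' : Fin 3, M a b * M c e * M a' b' ∈ d.C := fun a b c e a' b' =>
    d.C_mul (d.C_mul (hM a b) (hM c e)) (hM a' b')
  refine d.C.sub_mem (d.C.add_mem (d.C.add_mem (d.C.sub_mem (d.C.sub_mem ?_ ?_) ?_) ?_) ?_) ?_ <;>
    exact h2 _ _ _ _ _ _

theorem gram_mem (u : Fin 3 → Mt B) (hu : ∀ a, u a ∈ d.L 0) :
    (Matrix.of fun a b : Fin 3 => (u a * u b).trace).det ∈ d.C := by
  apply gr_det_mem
  intro a b
  exact d.tr_mem (hu a) (hu b)

theorem gram_mul_mem [T2Space B] (hD : d.D.Normal) (u : Fin 3 → Mt B) (hu : ∀ a, u a ∈ d.L 0) (g : G) :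
    ((d.R g).trace * (d.R g⁻¹).trace - 1) * (Matrix.of fun a b : Fin 3 => (u a * u b).trace).det ∈ d.C := by
  have h1 : d.R g * d.R g⁻¹ = 1 := by
    rw [← map_mul, mul_inv_cancel, map_one]
  rw [gram u (fun a => d.trace_zero 0 (hu a)) (d.R g) (d.R g⁻¹) h1]
  apply d.C.sum_mem
  intro a _
  apply gr_det_mem
  intro c b
  rw [Matrix.of_apply]
  split_ifs
  · exact d.tr_mem (d.conj_L0 hD g (hu c)) (hu b)
  · exact d.tr_mem (hu c) (hu b)

end Dat

end Pool.Agent.PMD
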