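import Pool.Agent.PMD.Mx

/-!
# Project PMD (MP_b583a4_nt), module Span3: three matrices with nonzero Gram determinant (linear algebra)
-/

set_option autoImplicit false

namespace Pool.Agent.PMD

/-- the coordinates of `th x` -/
private def cd (E : Type*) [Field E] : Mt E →ₗ[E] (Fin 3 → E) where
  toFun x := ![x 0 0 - x 1 1, 2 * x 0 1, 2 * x 1 0]
  map_add' x y := by
    ext i
    fin_cases i
    · simp
      ring
    · simp
      ring
    · simp
      ring
  map_smul' c x := by
    ext i
    fin_cases i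
    · simp
      ring
    · simp
      ring
    · simp
      ring

private theorem cd_surj {E : Type*} [Field E] (h2 : (2 : E) ≠ 0) :
    Function.Surjective (cd E) := by
  intro v
  refine ⟨!![v 0, v 1 / 2; v 2 / 2, 0], ?_⟩
  ext i
  fin_cases i
  · show v 0 - 0 = v 0
    rw [sub_zero]
  · show 2 * (v 1 / 2) = v 1
    field_simp
  · show 2 * (v 2 / 2) = v 2
    field_simp

private theorem gram_cd {E : Type*} [Field E] (x y : Mt E) :
    (th x * th y).trace = 2 * cd E x 0 * cd E y 0 + cd E x 1 * cd E y 2 + cd E x 2 * cd E y 1 := by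
  show _ = 2 * (x 0 0 - x 1 1) * (y 0 0 - y 1 1) + (2 * x 0 1) * (2 * y 1 0) +
    (2 * x 1 0) * (2 * y 0 1)
  obtain ⟨a, b, c, d, rfl⟩ := ex4 x
  obtain ⟨a', b', c', d', rfl⟩ := ex4 y
  simp [th, Matrix.adjugate_fin_two_of, Matrix.trace_fin_two, Matrix.mul_apply, Fin.sum_univ_two]
  ring

theorem exists_gram_ne {E : Type*} [Field E] (h2 : (2 : E) ≠ 0) {W : Set (Mt E)}
    (hW : Submodule.span E W = ⊤) :
    ∃ x : Fin 3 → Mt E, (∀ a, x a ∈ W) ∧ (Matrix.of fun a b : Fin 3 => (th (x a) * th (x b)).trace).det ≠ 0 := by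
  have hspan : Submodule.span E (cd E '' W) = ⊤ := by
    rw [Submodule.span_image, hW, Submodule.map_top, LinearMap.range_eq_top]
    exact cd_surj h2
  obtain ⟨b, hb, hbs, hbi⟩ := exists_linearIndependent E (cd E '' W)
  let B : Module.Basis b E (Fin 3 → E) := Module.Basis.mk hbi (by
    rw [Subtype.range_coe, hbs, hspan])
  let e : Fin 3 ≃ b := (Pi.basisFun E (Fin 3)).indexEquiv B
  have hx : ∀ a : Fin 3, ∃ x ∈ W, cd E x = (e a : Fin 3 → E) := fun a => hb (e a).2
  choose x hxW hxe using hx
  refine ⟨x, hxW, ?_⟩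
  have hli : LinearIndependent E (fun a => cd E (x a)) := by
    have h1 := hbi.comp e e.injective
    have h3 : (fun a => cd E (x a)) = (Subtype.val ∘ e : Fin 3 → Fin 3 → E) := funext hxe
    rw [h3]
    exact h1
  have hM : IsUnit (Matrix.of fun a => cd E (x a)) :=
    Matrix.linearIndependent_rows_iff_isUnit.1 hli
  have hdet : (Matrix.of fun a => cd E (x a)).det ≠ 0 :=
    ((Matrix.isUnit_iff_isUnit_det _).1 hM).ne_zero
  have hG : (Matrix.of fun a b : Fin 3 => (th (x a) * th (x b)).trace) =
      (Matrix.of fun a => cd E (x a)) * !![2, 0, 0; 0, 0, 1; 0, 1, 0] *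
        (Matrix.of fun a => cd E (x a)).transpose := by
    ext a b
    rw [Matrix.of_apply, gram_cd]
    simp [Matrix.mul_apply, Fin.sum_univ_three]
    ring
  rw [hG, Matrix.det_mul, Matrix.det_mul, Matrix.det_transpose]
  refine mul_ne_zero (mul_ne_zero hdet ?_) hdet
  rw [Matrix.det_fin_three]
  simpa using h2

theorem exists_br_ne {E : Type*} [Field E] {W : Set (Mt E)} (hW : Submodule.span E W = ⊤) :
    ∃ x ∈ W, ∃ y ∈ W, ∃ i j, br x y i j ≠ 0 := by
  by_contra hcon
  push Not at hcon
  have hcomm : ∀ x ∈ W, ∀ y ∈ W, x * y = y * x := by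
    intro x hx y hy
    have h1 : br x y = 0 := by
      ext i j
      exact hcon x hx y hy i j
    exact sub_eq_zero.1 h1
  have hstep1 : ∀ b ∈ W, ∀ X : Mt E, X * b = b * X := by
    intro b hb X
    have hX : X ∈ Submodule.span E W := by
      rw [hW]
      exact Submodule.mem_top
    induction hX using Submodule.span_induction with
    | mem x hx => exact hcomm x hx b hb
    | zero => rw [zero_mul, mul_zero]
    | add x y _ _ hx hy => rw [add_mul, mul_add, hx, hy]
    | smul c x _ hx => rw [smul_mul_assoc, mul_smul_comm, hx]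
  have hstep2 : ∀ X Y : Mt E, X * Y = Y * X := by
    intro X Y
    have hY : Y ∈ Submodule.span E W := by
      rw [hW]
      exact Submodule.mem_top
    induction hY using Submodule.span_induction with
    | mem x hx => exact hstep1 x hx X
    | zero => rw [zero_mul, mul_zero]
    | add x y _ _ hx hy => rw [add_mul, mul_add, hx, hy]
    | smul c x _ hx => rw [smul_mul_assoc, mul_smul_comm, hx]
  have h8 := hstep2 !![0, 1; 0, 0] !![0, 0; 1, 0]
  have h9 := congrFun (congrFun h8 0) 0
  simp [Matrix.mul_apply, Fin.sum_univ_two] at h9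

end Pool.Agent.PMD
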