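import Mathlib

/-!
# Project PMD (MP_b583a4_nt), module Unif: uniformity by compactness (Mathlib only)

PLAN. `C` is closed and contained in the compact set `(∏ closedBall 0 1) × closedBall 0 1` (`isCompact_univ_pi`, `isCompact_closedBall`, `IsCompact.prod`), so it is compact. By contradiction: for every finite `s` and `δ > 0` there is
`c ∈ C` with `‖c.1 i‖ < δ` for `i ∈ s` and `ε ≤ ‖c.2‖`. The sets `{c ∈ C | (∀ i ∈ s, ‖c.1 i‖ ≤ 1/(n+1)) ∧ ε ≤ ‖c.2‖}` (`(s, n) : Finset I × ℕ`) are closed, nonempty and directed downwards, so they have a common point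
(`IsCompact.nonempty_iInter_of_directed_nonempty_isCompact_isClosed`, or `IsCompact.inter_iInter_nonempty`); it has `c.1 = 0` and `c.2 ≠ 0`.
-/

set_option autoImplicit false
open Filter Topology

namespace Pool.Agent.PMD

theorem unif {I : Type*} {K : I → Type*} [∀ i, NormedAddCommGroup (K i)] [∀ i, ProperSpace (K i)]
    {E : Type*} [NormedAddCommGroup E] [ProperSpace E] {C : Set ((∀ i, K i) × E)} (hC : IsClosed C)
    (hb : ∀ c ∈ C, (∀ i, ‖c.1 i‖ ≤ 1) ∧ ‖c.2‖ ≤ 1) (h0 : ∀ c ∈ C, c.1 = 0 → c.2 = 0) {ε : ℝ}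
    (hε : 0 < ε) :
    ∃ (s : Finset I) (δ : ℝ), 0 < δ ∧ ∀ c ∈ C, (∀ i ∈ s, ‖c.1 i‖ < δ) → ‖c.2‖ < ε := by
  classical
  by_contra hcon
  push Not at hcon
  have hK0 : IsCompact ((Set.univ.pi fun i : I => Metric.closedBall (0 : K i) 1) ×ˢ
      Metric.closedBall (0 : E) 1) :=
    (isCompact_univ_pi fun i => isCompact_closedBall _ _).prod (isCompact_closedBall _ _)
  have hCc : IsCompact C := by
    refine hK0.of_isClosed_subset hC fun c hc => ?_
    refine ⟨fun i _ => ?_, ?_⟩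
    · exact mem_closedBall_zero_iff.2 ((hb c hc).1 i)
    · exact mem_closedBall_zero_iff.2 (hb c hc).2
  have hT : ∀ q : Finset I × ℕ, IsClosed {c : (∀ i, K i) × E | c ∈ C ∧
      (∀ i ∈ q.1, ‖c.1 i‖ ≤ 1 / ((q.2 : ℝ) + 1)) ∧ ε ≤ ‖c.2‖} := by
    intro q
    have h1 : IsClosed (⋂ i ∈ q.1, {c : (∀ i, K i) × E | ‖c.1 i‖ ≤ 1 / ((q.2 : ℝ) + 1)}) :=
      isClosed_iInter fun i => isClosed_iInter fun _ =>
        isClosed_le (((continuous_apply i).comp continuous_fst).norm) continuous_const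
    have h2 : IsClosed {c : (∀ i, K i) × E | ε ≤ ‖c.2‖} :=
      isClosed_le continuous_const continuous_snd.norm
    convert hC.inter (h1.inter h2) using 1
    ext c
    simp only [Set.mem_inter_iff, Set.mem_iInter, Set.mem_ofPred_eq]
  have key : (⋂ q : Finset I × ℕ, {c : (∀ i, K i) × E | c ∈ C ∧
      (∀ i ∈ q.1, ‖c.1 i‖ ≤ 1 / ((q.2 : ℝ) + 1)) ∧ ε ≤ ‖c.2‖}).Nonempty := by
    refine IsCompact.nonempty_iInter_of_directed_nonempty_isCompact_isClosed _ ?_ ?_
      (fun q => hCc.of_isClosed_subset (hT q) fun c hc => hc.1) hT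
    · rintro ⟨s, n⟩ ⟨t, m⟩
      refine ⟨(s ∪ t, max n m), ?_, ?_⟩
      · rintro c ⟨h1, h2, h3⟩
        refine ⟨h1, fun i hi => (h2 i (Finset.mem_union_left _ hi)).trans ?_, h3⟩
        have : (n : ℝ) ≤ ((max n m : ℕ) : ℝ) := by exact_mod_cast le_max_left n m
        exact one_div_le_one_div_of_le (by positivity) (by linarith)
      · rintro c ⟨h1, h2, h3⟩
        refine ⟨h1, fun i hi => (h2 i (Finset.mem_union_right _ hi)).trans ?_, h3⟩
        have : (m : ℝ) ≤ ((max n m : ℕ) : ℝ) := by exact_mod_cast le_max_right n m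
        exact one_div_le_one_div_of_le (by positivity) (by linarith)
    · rintro ⟨s, n⟩
      obtain ⟨c, h1, h2, h3⟩ := hcon s (1 / ((n : ℝ) + 1)) (by positivity)
      exact ⟨c, h1, fun i hi => (h2 i hi).le, h3⟩
  obtain ⟨c, hc⟩ := key
  rw [Set.mem_iInter] at hc
  have h1 : c.1 = 0 := by
    funext i
    by_contra hne
    have hpos : 0 < ‖c.1 i‖ := norm_pos_iff.2 hne
    obtain ⟨n, hn⟩ := exists_nat_one_div_lt hpos
    have h2 := (hc ({i}, n)).2.1 i (Finset.mem_singleton_self i)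
    exact absurd h2 (not_le.2 hn)
  have h2 := h0 c (hc (∅, 0)).1 h1
  have h3 := (hc (∅, 0)).2.2
  rw [h2, norm_zero] at h3
  linarith

end Pool.Agent.PMD
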