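import Pool.Agent.PMD.Graph
import Pool.Agent.PMD.Unif
import Pool.Agent.PMD.Gram
import Pool.Agent.PMD.Span3

/-!
# Project PMD (MP_b583a4_nt), module AddLim: additive relations between the characters of the adjoint representations

PLAN. Notation `B = (∀ i, K i) × E`, `χ g = (chi d g : B)`. `exists_br_ne` for `W = {(R x).map Prod.snd | x ∈ D}` gives the hypothesis `hnc` of `graph` (`br` commutes with `Matrix.map` along the ring homomorphism `RingHom.snd`), so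
`c.1 = 0 → c.2 = 0` for `c ∈ C`. `(2 : E) ≠ 0` because of `d.F.half`. `exists_gram_ne` gives `x a ∈ D` such that with `u a = th (R (x a)) ∈ L 0` (`th_mem`) the Gram determinant `δ₀ ∈ C` (`gram_mem`) has `δ₀.2 ≠ 0`
(`RingHom.map_det` for `RingHom.snd`). `unif` (for the set `d.C`, `C_closed`; bounds from `C_small`, `F.anti`, `hF`) for `ε ‖δ₀.2‖` gives `s`, `δ`. For `a : G →₀ ℤ`:
`c = (∑ a g χ g) * δ₀ ∈ C` (`gram_mul_mem`, `AddSubgroup.zsmul_mem`), `‖c.1 i‖ = ‖(∑ a g χ g).1 i‖ ‖δ₀.1 i‖ ≤ ‖(∑ a g χ g).1 i‖ < δ`, so `‖c.2‖ < ε ‖δ₀.2‖`; divide by `‖δ₀.2‖`.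
-/

set_option autoImplicit false
open Filter Topology

namespace Pool.Agent.PMD

/-- the character of the adjoint representation on the trace zero matrices -/
def chi {B : Type*} [CommRing B] {G : Type*} [Group G] (R : G →* Mt B) (g : G) : B :=
  (R g).trace * (R g⁻¹).trace - 1

private theorem al_br {A E : Type*} [CommRing A] [CommRing E] (u v : Mt (A × E)) (i j : Fin 2) :
    (br u v i j).2 = br (u.map Prod.snd) (v.map Prod.snd) i j := by
  simp only [br, Matrix.sub_apply, Matrix.mul_apply, Fin.sum_univ_two, Matrix.map_apply,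
    Prod.snd_sub, Prod.snd_add, Prod.snd_mul]

private theorem al_th {A E : Type*} [CommRing A] [CommRing E] (u : Mt (A × E)) :
    (th u).map Prod.snd = th (u.map Prod.snd) := by
  apply ext4 <;> simp [th, Matrix.adjugate_fin_two]

private theorem al_tr {A E : Type*} [CommRing A] [CommRing E] (u v : Mt (A × E)) :
    ((u * v).trace).2 = (u.map Prod.snd * v.map Prod.snd).trace := by
  simp only [Matrix.trace_fin_two, Matrix.mul_apply, Fin.sum_univ_two, Matrix.map_apply,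
    Prod.snd_add, Prod.snd_mul]

private theorem al_det {A E : Type*} [CommRing A] [CommRing E] (u : Fin 3 → Mt (A × E)) :
    ((Matrix.of fun a b : Fin 3 => (u a * u b).trace).det).2 =
      (Matrix.of fun a b : Fin 3 => ((u a).map Prod.snd * (u b).map Prod.snd).trace).det := by
  have h := RingHom.map_det (RingHom.snd A E) (Matrix.of fun a b : Fin 3 => (u a * u b).trace)
  have h2 : (RingHom.snd A E).mapMatrix (Matrix.of fun a b : Fin 3 => (u a * u b).trace) =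
      Matrix.of fun a b : Fin 3 => ((u a).map Prod.snd * (u b).map Prod.snd).trace := by
    ext a b
    exact al_tr (u a) (u b)
  rw [h2] at h
  exact h

theorem add_lim {p : ℕ} (hodd : Odd p) {I : Type*} {K : I → Type*} [∀ i, NontriviallyNormedField (K i)]
    [∀ i, ProperSpace (K i)] {E : Type*} [NontriviallyNormedField E] [ProperSpace E]
    {G : Type*} [Group G] [TopologicalSpace G] [IsTopologicalGroup G] [CompactSpace G]
    (d : Dat p ((∀ i, K i) × E) G) (hD : d.D.Normal)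
    (hF : ∀ b ∈ d.F.M 1, (∀ i, ‖b.1 i‖ < 1) ∧ ‖b.2‖ < 1)
    (hker : ∀ g ∈ d.D, (∀ i j, (d.R g i j).1 = (1 : Mt (∀ i, K i)) i j) →
      ∃ c : E, ∀ i j, (d.R g i j).2 = (c • (1 : Mt E)) i j)
    (hspan : Submodule.span E ((fun x => (d.R x).map Prod.snd) '' (d.D : Set G)) = ⊤)
    {ε : ℝ} (hε : 0 < ε) :
    ∃ (s : Finset I) (δ : ℝ), 0 < δ ∧ ∀ a : G →₀ ℤ,
      (∀ i ∈ s, ‖a.sum fun g n => (n : K i) * (chi d.R g).1 i‖ < δ) →
      ‖a.sum fun g n => (n : E) * (chi d.R g).2‖ < ε := by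
  have h2 : (2 : E) ≠ 0 := by
    intro h
    have h3 : d.F.half.2 + d.F.half.2 = 1 := congrArg Prod.snd d.F.half_add
    rw [← mul_two, h, mul_zero] at h3
    exact zero_ne_one h3
  have hnc : ∃ x ∈ d.D, ∃ y ∈ d.D, ∃ i j, (br (d.R x) (d.R y) i j).2 ≠ 0 := by
    obtain ⟨_, ⟨x, hx, rfl⟩, _, ⟨y, hy, rfl⟩, i, j, hij⟩ := exists_br_ne hspan
    refine ⟨x, hx, y, hy, i, j, ?_⟩
    rw [al_br]
    exact hij
  have hgr : ∀ c ∈ d.C, c.1 = 0 → c.2 = 0 := fun c hc h0 =>
    d.graph hodd (fun b hb => (hF b hb).2) hker hnc hc h0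
  obtain ⟨x, hx, hdet⟩ := exists_gram_ne h2 hspan
  choose g hg hgx using hx
  obtain ⟨u, hu⟩ : ∃ u : Fin 3 → Mt ((∀ i, K i) × E), ∀ a, u a = th (d.R (g a)) :=
    ⟨_, fun _ => rfl⟩
  have huL : ∀ a, u a ∈ d.L 0 := fun a => by
    rw [hu a]
    exact d.th_mem (hg a)
  obtain ⟨δ₀, hδ₀⟩ : ∃ δ₀ : (∀ i, K i) × E,
      δ₀ = (Matrix.of fun a b : Fin 3 => (u a * u b).trace).det := ⟨_, rfl⟩
  have hδC : δ₀ ∈ d.C := by
    rw [hδ₀]
    exact d.gram_mem u huL
  have hδ2 : δ₀.2 ≠ 0 := by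
    rw [hδ₀, al_det]
    have e1 : ∀ a, (u a).map Prod.snd = th (x a) := fun a => by
      rw [hu a, al_th]
      exact congrArg th (hgx a)
    have e2 : (Matrix.of fun a b : Fin 3 => ((u a).map Prod.snd * (u b).map Prod.snd).trace) =
        Matrix.of fun a b : Fin 3 => (th (x a) * th (x b)).trace := by
      ext a b
      show ((u a).map Prod.snd * (u b).map Prod.snd).trace = (th (x a) * th (x b)).trace
      rw [e1, e1]
    rw [e2]
    exact hdet
  have hb : ∀ c ∈ (d.C : Set ((∀ i, K i) × E)), (∀ i, ‖c.1 i‖ ≤ 1) ∧ ‖c.2‖ ≤ 1 := by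
    intro c hc
    obtain ⟨h3, h4⟩ := hF c (d.F.anti 1 2 (by norm_num) (d.C_small hc))
    exact ⟨fun i => (h3 i).le, h4.le⟩
  have hpos : 0 < ‖δ₀.2‖ := norm_pos_iff.2 hδ2
  obtain ⟨s, δ, hδ, hs⟩ := unif d.C_closed hb hgr (mul_pos hε hpos)
  refine ⟨s, δ, hδ, fun a ha => ?_⟩
  obtain ⟨c, hc⟩ : ∃ c : (∀ i, K i) × E, c = ∑ h ∈ a.support, (a h) • (chi d.R h * δ₀) := ⟨_, rfl⟩
  have hcC : c ∈ d.C := by
    rw [hc]
    refine AddSubgroup.sum_mem _ fun h _ => AddSubgroup.zsmul_mem _ ?_ _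
    rw [hδ₀]
    exact d.gram_mul_mem hD u huL h
  have hc1 : ∀ i, c.1 i = (a.sum fun g n => (n : K i) * (chi d.R g).1 i) * δ₀.1 i := by
    intro i
    rw [hc, Prod.fst_sum, Finset.sum_apply, Finsupp.sum, Finset.sum_mul]
    refine Finset.sum_congr rfl fun h _ => ?_
    rw [Prod.smul_fst, Pi.smul_apply, Prod.fst_mul, Pi.mul_apply, zsmul_eq_mul, mul_assoc]
  have hc2 : c.2 = (a.sum fun g n => (n : E) * (chi d.R g).2) * δ₀.2 := by
    rw [hc, Prod.snd_sum, Finsupp.sum, Finset.sum_mul]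
    refine Finset.sum_congr rfl fun h _ => ?_
    rw [Prod.smul_snd, Prod.snd_mul, zsmul_eq_mul, mul_assoc]
  have h5 := hs c hcC (fun i hi => by
    rw [hc1 i, norm_mul]
    exact lt_of_le_of_lt (mul_le_of_le_one_right (norm_nonneg _) ((hb δ₀ hδC).1 i)) (ha i hi))
  rw [hc2, norm_mul] at h5
  exact lt_of_mul_lt_mul_right h5 hpos.le

end Pool.Agent.PMD
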