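import Pool.Agent.PMD.StrN

/-!
# Project PMD (MP_b583a4_nt), module CommN: the closed commutator group of a normal subgroup

PLAN. `comm_normal`: `Subgroup.commutator_normal`, `Subgroup.is_normal_topologicalClosure`. `comm_le`: `Subgroup.commutator_le` (`⁅N, N⁆ ≤ N`), `Subgroup.topologicalClosure_minimal`. `det_comm`: the elements `x` with `det (r x) = 1` are a closed subgroup (kernel of `GeneralLinearGroup.det ∘ r`; closed:
`Units.continuous_val`, `Continuous.matrix_det`) which contains all commutators. `comm_ns`: otherwise all `V ⁅x, y⁆`, `x, y ∈ N`, are scalar; let `U` be an open subgroup such that `V ⁅x, y⁆ ≠ -1` for `x, y ∈ U` (continuity at `(1,1)`, as in `exists_nonscalar`,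
Helper37/Dc/NonInd.lean); then for `x, y ∈ N ⊓ U` the scalar `c` has `c^2 = 1` (determinant), so `c = 1` and `V x`, `V y` commute; but `V '' (N ⊓ U)` spans `M_2(E)` (`span_inf`), contradiction.
-/

set_option autoImplicit false
open Filter Topology

namespace Pool.Agent.PMD

open Pool.Agent.Helper27.FM

section gen

variable {G : Type*} [Group G] [TopologicalSpace G] [IsTopologicalGroup G] {N : Subgroup G}

theorem comm_normal (hN : N.Normal) : (⁅N, N⁆).topologicalClosure.Normal :=
  Subgroup.is_normal_topologicalClosure _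

theorem comm_closed : IsClosed ((⁅N, N⁆).topologicalClosure : Set G) :=
  Subgroup.isClosed_topologicalClosure _

theorem comm_le (hc : IsClosed (N : Set G)) : (⁅N, N⁆).topologicalClosure ≤ N := by
  refine Subgroup.topologicalClosure_minimal _ ?_ hc
  rw [Subgroup.commutator_le]
  intro a ha b hb
  rw [commutatorElement_def]
  exact N.mul_mem (N.mul_mem (N.mul_mem ha hb) (N.inv_mem ha)) (N.inv_mem hb)

omit [TopologicalSpace G] [IsTopologicalGroup G] in
private theorem det_comm_one {K : Type*} [Field K] (r : G →* GL (Fin 2) K) (a b : G) :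
    (r (a * b * a⁻¹ * b⁻¹) : Matrix (Fin 2) (Fin 2) K).det = 1 := by
  have h2 : Matrix.GeneralLinearGroup.det (r (a * b * a⁻¹ * b⁻¹)) = 1 := by
    rw [map_mul, map_mul, map_mul, map_mul, map_mul, map_mul, map_inv, map_inv, map_inv, map_inv]
    rw [mul_comm (Matrix.GeneralLinearGroup.det (r a))]
    group
  exact congrArg (fun u : Kˣ => (u : K)) h2

theorem det_comm {K : Type*} [NontriviallyNormedField K] {r : G →* GL (Fin 2) K} (hr : Continuous r) {x : G}
    (hx : x ∈ (⁅N, N⁆).topologicalClosure) : (r x : Matrix (Fin 2) (Fin 2) K).det = 1 := by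
  have hc : Continuous fun x => (r x : Matrix (Fin 2) (Fin 2) K).det :=
    (Units.continuous_val.comp hr).matrix_det
  have hcl : IsClosed {x | (r x : Matrix (Fin 2) (Fin 2) K).det = 1} :=
    isClosed_eq hc continuous_const
  have hsub : ((⁅N, N⁆ : Subgroup G) : Set G) ⊆ {x | (r x : Matrix (Fin 2) (Fin 2) K).det = 1} := by
    have h1 : ⁅N, N⁆ ≤ (Matrix.GeneralLinearGroup.det.comp r).ker := by
      rw [Subgroup.commutator_le]
      intro a ha b hb
      rw [commutatorElement_def, MonoidHom.mem_ker, MonoidHom.comp_apply]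
      apply Units.ext
      exact det_comm_one r a b
    intro x hx
    have h2 : Matrix.GeneralLinearGroup.det (r x) = 1 := h1 hx
    exact congrArg (fun u : Kˣ => (u : K)) h2
  exact closure_minimal hsub hcl hx

end gen

theorem comm_ns (p : ℕ) [hp : Fact p.Prime] {E : Type*} [NontriviallyNormedField E]
    [IsUltrametricDist E] [NormedAlgebra ℚ_[p] E] [FiniteDimensional ℚ_[p] E] {G : Type*} [Group G]
    [TopologicalSpace G] [IsTopologicalGroup G] [CompactSpace G] [TotallyDisconnectedSpace G]
    {V : G →* GL (Fin 2) E} (hV : Continuous V) (hirr : StronglyIrreducible V)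
    {N : Subgroup G} (hN : N.Normal) (hns : ∃ x ∈ N, ∀ c : E, (V x : M2 E) ≠ c • (1 : M2 E)) :
    ∃ x ∈ (⁅N, N⁆).topologicalClosure, ∀ c : E, (V x : M2 E) ≠ c • (1 : M2 E) := by
  by_contra hcon
  have hcon' : ∀ g ∈ (⁅N, N⁆).topologicalClosure, ∃ c : E, (V g : M2 E) = c • (1 : M2 E) := by
    intro g h1
    by_contra h3
    push Not at h3
    exact hcon ⟨g, h1, h3⟩
  have : CharZero E := charZero_of_injective_algebraMap (algebraMap ℚ_[p] E).injective
  have hne : (1 : M2 E) ≠ -1 := by
    intro h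
    have h1 := congrFun (congrFun h 0) 0
    rw [Matrix.neg_apply, Matrix.one_apply_eq] at h1
    have h2 : (2 : E) = 0 := by linear_combination h1
    exact two_ne_zero h2
  have hW' : {(-1 : M2 E)}ᶜ ∈ 𝓝 (1 : M2 E) := isOpen_compl_singleton.mem_nhds hne
  have hc : Continuous fun q : G × G => (V (q.1 * q.2 * q.1⁻¹ * q.2⁻¹) : M2 E) := by
    refine Units.continuous_val.comp (hV.comp ?_)
    exact ((continuous_fst.mul continuous_snd).mul continuous_fst.inv).mul continuous_snd.inv
  have hc1 : (fun q : G × G => (V (q.1 * q.2 * q.1⁻¹ * q.2⁻¹) : M2 E)) (1, 1) = 1 := by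
    simp
  have hpre : (fun q : G × G => (V (q.1 * q.2 * q.1⁻¹ * q.2⁻¹) : M2 E)) ⁻¹'
      ({(-1 : M2 E)}ᶜ) ∈ 𝓝 ((1, 1) : G × G) := by
    apply hc.continuousAt
    rw [hc1]
    exact hW'
  rw [mem_nhds_prod_iff] at hpre
  obtain ⟨N1, hN1, N2, hN2, hN12⟩ := hpre
  have hNo : IsOpen (interior (N1 ∩ N2)) := isOpen_interior
  have h1N : (1 : G) ∈ interior (N1 ∩ N2) :=
    mem_interior_iff_mem_nhds.2 (Filter.inter_mem hN1 hN2)
  obtain ⟨H, hH⟩ := ProfiniteGrp.exist_openNormalSubgroup_sub_open_nhds_of_one hNo h1N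
  have hcomm : ∀ a ∈ N ⊓ H.toSubgroup, ∀ b ∈ N ⊓ H.toSubgroup,
      (V a : M2 E) * (V b : M2 E) = (V b : M2 E) * (V a : M2 E) := by
    intro a ha b hb
    have ha' : a ∈ N1 := (interior_subset (hH ha.2)).1
    have hb' : b ∈ N2 := (interior_subset (hH hb.2)).2
    have h1 : (V (a * b * a⁻¹ * b⁻¹) : M2 E) ∈ ({(-1 : M2 E)}ᶜ : Set (M2 E)) :=
      hN12 (show ((a, b) : G × G) ∈ N1 ×ˢ N2 from ⟨ha', hb'⟩)
    have hd : (V (a * b * a⁻¹ * b⁻¹) : M2 E).det = 1 := det_comm_one V a b
    have hmem : a * b * a⁻¹ * b⁻¹ ∈ (⁅N, N⁆).topologicalClosure := by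
      refine Subgroup.le_topologicalClosure _ ?_
      rw [← commutatorElement_def]
      exact Subgroup.commutator_mem_commutator ha.1 hb.1
    obtain ⟨c, hc2⟩ := hcon' _ hmem
    have hc3 : c ^ 2 = 1 := by
      rw [hc2, Matrix.det_smul, Matrix.det_one, Fintype.card_fin, mul_one] at hd
      exact hd
    have hc4 : c = 1 := by
      rcases (sq_eq_one_iff (a := c)).1 hc3 with h | h
      · exact h
      · exfalso
        apply h1
        show (V (a * b * a⁻¹ * b⁻¹) : M2 E) = -1
        rw [hc2, h, neg_smul, one_smul]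
    have h5 : V (a * b * a⁻¹ * b⁻¹) = 1 := by
      apply Units.ext
      rw [hc2, hc4, one_smul]
      rfl
    have h6 : V a * V b = V b * V a := by
      rw [map_mul, map_mul, map_mul, map_inv, map_inv] at h5
      calc V a * V b = (V a * V b * (V a)⁻¹ * (V b)⁻¹) * (V b * V a) := by group
        _ = V b * V a := by rw [h5, one_mul]
    have h7 := congrArg (fun u : GL (Fin 2) E => (u : M2 E)) h6
    exact h7
  have hspan := span_inf p hV hirr hN hns (U := H.toSubgroup) H.isOpen'
  have hstep1 : ∀ b ∈ N ⊓ H.toSubgroup, ∀ X : M2 E, X * (V b : M2 E) = (V b : M2 E) * X := by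
    intro b hb X
    have hX : X ∈ Submodule.span E
        ((fun g => (V g : M2 E)) '' ((N ⊓ H.toSubgroup : Subgroup G) : Set G)) := by
      rw [hspan]; exact Submodule.mem_top
    induction hX using Submodule.span_induction with
    | mem x hx =>
      obtain ⟨a, ha, rfl⟩ := hx
      exact hcomm a ha b hb
    | zero => rw [zero_mul, mul_zero]
    | add x y _ _ hx hy => rw [add_mul, mul_add, hx, hy]
    | smul c x _ hx => rw [smul_mul_assoc, mul_smul_comm, hx]
  have hstep2 : ∀ X Y : M2 E, X * Y = Y * X := by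
    intro X Y
    have hY : Y ∈ Submodule.span E
        ((fun g => (V g : M2 E)) '' ((N ⊓ H.toSubgroup : Subgroup G) : Set G)) := by
      rw [hspan]; exact Submodule.mem_top
    induction hY using Submodule.span_induction with
    | mem x hx =>
      obtain ⟨b, hb, rfl⟩ := hx
      exact hstep1 b hb X
    | zero => rw [zero_mul, mul_zero]
    | add x y _ _ hx hy => rw [add_mul, mul_add, hx, hy]
    | smul c x _ hx => rw [smul_mul_assoc, mul_smul_comm, hx]
  have h8 := hstep2 !![0, 1; 0, 0] !![0, 0; 1, 0]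
  have h9 := congrFun (congrFun h8 0) 0
  simp [Matrix.mul_apply, Fin.sum_univ_two] at h9

end Pool.Agent.PMD
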