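import Mathlib

/-!
# Project PMD (MP_b583a4_nt), module CptC: closed subrings generated by integral elements are compact (Mathlib only)

PLAN. The elements `b` with `‖b.1 i‖ ≤ 1` for all `i` and `‖b.2‖ ≤ 1` are a subring (ultrametric), closed and contained in (equal to) the compact set `(∏ closedBall 0 1) × closedBall 0 1` (`isCompact_univ_pi`, `isCompact_closedBall`, `IsCompact.prod`). It
contains the generators, so the closure of the generated subring is a closed subset of it (`Subring.topologicalClosure_minimal`, `Subring.closure_le`, `IsCompact.of_isClosed_subset`, `Subring.isClosed_topologicalClosure`).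
-/

set_option autoImplicit false
open Filter Topology

namespace Pool.Agent.PMD

theorem compact_closure {I : Type*} {K : I → Type*} [∀ i, NontriviallyNormedField (K i)]
    [∀ i, IsUltrametricDist (K i)] [∀ i, ProperSpace (K i)] {E : Type*} [NontriviallyNormedField E]
    [IsUltrametricDist E] [ProperSpace E] {X : Type*} (f : X → (∀ i, K i) × E)
    (hf : ∀ x, (∀ i, ‖(f x).1 i‖ ≤ 1) ∧ ‖(f x).2‖ ≤ 1) :
    IsCompact ((Subring.closure (Set.range f)).topologicalClosure : Set ((∀ i, K i) × E)) := by
  set S : Subring ((∀ i, K i) × E) :=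
    { carrier := {b | (∀ i, ‖b.1 i‖ ≤ 1) ∧ ‖b.2‖ ≤ 1}
      mul_mem' := by
        rintro a b ⟨ha, ha'⟩ ⟨hb, hb'⟩
        refine ⟨fun i => ?_, ?_⟩
        · rw [Prod.fst_mul, Pi.mul_apply, norm_mul]
          exact mul_le_one₀ (ha i) (norm_nonneg _) (hb i)
        · rw [Prod.snd_mul, norm_mul]
          exact mul_le_one₀ ha' (norm_nonneg _) hb'
      one_mem' := ⟨fun i => by simp, by simp⟩
      add_mem' := by
        rintro a b ⟨ha, ha'⟩ ⟨hb, hb'⟩
        refine ⟨fun i => ?_, ?_⟩
        · rw [Prod.fst_add, Pi.add_apply]
          exact (IsUltrametricDist.norm_add_le_max _ _).trans (max_le (ha i) (hb i))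
        · rw [Prod.snd_add]
          exact (IsUltrametricDist.norm_add_le_max _ _).trans (max_le ha' hb')
      zero_mem' := ⟨fun i => by simp, by simp⟩
      neg_mem' := by
        rintro a ⟨ha, ha'⟩
        refine ⟨fun i => ?_, ?_⟩
        · rw [Prod.fst_neg, Pi.neg_apply, norm_neg]
          exact ha i
        · rw [Prod.snd_neg, norm_neg]
          exact ha' } with hS
  have hSc : (S : Set ((∀ i, K i) × E)) =
      (Set.univ.pi fun i => Metric.closedBall (0 : K i) 1) ×ˢ Metric.closedBall (0 : E) 1 := by
    ext b
    rw [Set.mem_prod, Set.mem_univ_pi, mem_closedBall_zero_iff]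
    simp only [mem_closedBall_zero_iff]
    exact Iff.rfl
  have hcpt : IsCompact (S : Set ((∀ i, K i) × E)) := by
    rw [hSc]
    exact (isCompact_univ_pi fun i => isCompact_closedBall (0 : K i) 1).prod
      (isCompact_closedBall (0 : E) 1)
  have hcl : IsClosed (S : Set ((∀ i, K i) × E)) := hcpt.isClosed
  have hle : Subring.closure (Set.range f) ≤ S := by
    rw [Subring.closure_le]
    rintro _ ⟨x, rfl⟩
    exact hf x
  exact hcpt.of_isClosed_subset (Subring.isClosed_topologicalClosure _)
    (Subring.topologicalClosure_minimal _ hle hcl)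

end Pool.Agent.PMD
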