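import Mathlib

/-!
# Project PMD (MP_b583a4_nt), module Cs: closed spans
-/

set_option autoImplicit false
open Filter Topology

namespace Pool.Agent.PMD

variable {A : Type*} [AddCommGroup A] [TopologicalSpace A] [IsTopologicalAddGroup A]

/-- the closed additive subgroup generated by `S` -/
def cspan (S : Set A) : AddSubgroup A := (AddSubgroup.closure S).topologicalClosure

theorem subset_cspan (S : Set A) : S ⊆ (cspan S : Set A) :=
  fun _ h => AddSubgroup.le_topologicalClosure _ (AddSubgroup.subset_closure h)

theorem isClosed_cspan (S : Set A) : IsClosed (cspan S : Set A) :=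
  AddSubgroup.isClosed_topologicalClosure _

theorem cspan_le {S : Set A} {P : AddSubgroup A} (hP : IsClosed (P : Set A)) (h : S ⊆ (P : Set A)) :
    cspan S ≤ P :=
  AddSubgroup.topologicalClosure_minimal _ ((AddSubgroup.closure_le _).2 h) hP

/-- induction over a closed span along a continuous additive map -/
theorem cspan_map {A' : Type*} [AddCommGroup A'] [TopologicalSpace A'] {S : Set A}
    (f : A →+ A') (hf : Continuous f) {P : AddSubgroup A'} (hP : IsClosed (P : Set A'))
    (h : ∀ s ∈ S, f s ∈ P) {x : A} (hx : x ∈ cspan S) : f x ∈ P := by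
  have h1 : cspan S ≤ P.comap f :=
    cspan_le (P := P.comap f) (hP.preimage hf) (fun s hs => h s hs)
  exact h1 hx

/-- a closed additive subgroup contains the half of each of its `p`-adically small elements, `p` odd -/
theorem half_mem_of_closed [T2Space A] {p : ℕ} (hodd : Odd p) {S : AddSubgroup A} (hS : IsClosed (S : Set A))
    {s t : A} (hs : s ∈ S) (hst : t + t = s)
    (ht : Tendsto (fun n : ℕ => (p ^ n) • t) atTop (𝓝 0)) : t ∈ S := by
  have h1 : Tendsto (fun n : ℕ => ((p ^ n + 1) / 2) • s) atTop (𝓝 (0 + t)) := by
    refine (ht.add_const t).congr fun n => ?_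
    have h2 : 2 * ((p ^ n + 1) / 2) = p ^ n + 1 :=
      Nat.two_mul_div_two_of_even ((hodd.pow).add_one)
    rw [← hst, ← two_nsmul, smul_smul, mul_comm, h2, add_smul, one_smul]
  rw [zero_add] at h1
  exact hS.mem_of_tendsto h1 (Eventually.of_forall fun n => S.nsmul_mem hs _)

end Pool.Agent.PMD
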