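import Pool.Agent.PMD.Mx
import Pool.Agent.PMD.Cs

/-!
# Project PMD (MP_b583a4_nt), module Dat: the Lie algebras and groups of a representation over a filtered ring

`B` is a topological commutative ring with a filtration `M n` by closed subgroups which tends to zero. `R : G → M_2(B)` is a continuous
representation of a compact group `G`, `D` a closed subgroup of `G` on which `det R = 1` and `R ≡ 1` modulo `M 1`.
`L 0` is the closed span of `th (R x)`, `x ∈ D`; `L (n+1)` the closed span of the `br u v`, `u ∈ L 0`, `v ∈ L n`; `C` the closed span of the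
`tr (u v)`, `u, v ∈ L 0`; `Γ 0 = D`, `Γ (n+1)` the closed commutator group of `D` and `Γ n`;
`H n = {x : det x = 1, th x ∈ L n, tr x - 2 ∈ C}`. (Pink's theory of pro-`p` subgroups of `SL_2`.)
-/

set_option autoImplicit false
open Filter Topology

namespace Pool.Agent.PMD

/-- a filtration of a topological ring by closed subgroups, tending to zero, and a half -/
structure Filt (p : ℕ) (B : Type*) [CommRing B] [TopologicalSpace B] where
  M : ℕ → AddSubgroup B
  closed : ∀ n, IsClosed (M n : Set B)
  mul : ∀ m n a b, a ∈ M m → b ∈ M n → a * b ∈ M (m + n)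
  anti : ∀ m n, m ≤ n → M n ≤ M m
  p_mem : (p : B) ∈ M 1
  small : ∀ s ∈ 𝓝 (0 : B), ∃ n, (M n : Set B) ⊆ s
  half : B
  half_add : half + half = 1

namespace Filt

variable {p : ℕ} {B : Type*} [CommRing B] [TopologicalSpace B]

theorem p_pow_tendsto (F : Filt p B) : Tendsto (fun n : ℕ => (p : B) ^ n) atTop (𝓝 0) := by
  have h : ∀ n : ℕ, (p : B) ^ (n + 1) ∈ F.M (n + 1) := by
    intro n
    induction n with
    | zero => simpa using F.p_mem
    | succ n ih =>
      rw [pow_succ]
      exact F.mul _ _ _ _ ih F.p_mem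
  rw [tendsto_def]
  intro s hs
  obtain ⟨n, hn⟩ := F.small s hs
  filter_upwards [eventually_ge_atTop (n + 1)] with m hm
  obtain ⟨k, rfl⟩ : ∃ k, m = k + 1 := ⟨m - 1, by omega⟩
  exact hn (F.anti _ _ (by omega) (h k))

/-- `p` odd: closed subgroups of topological modules are closed under halving -/
theorem half_mem (F : Filt p B) (hodd : Odd p) {A : Type*} [AddCommGroup A] [TopologicalSpace A] [IsTopologicalAddGroup A]
    [T2Space A] [Module B A] [ContinuousSMul B A] {S : AddSubgroup A} (hS : IsClosed (S : Set A)) {s : A}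
    (hs : s ∈ S) : F.half • s ∈ S := by
  refine half_mem_of_closed hodd hS hs ?_ ?_
  · rw [← add_smul, F.half_add, one_smul]
  · have h1 : Tendsto (fun n : ℕ => (p : B) ^ n • (F.half • s)) atTop (𝓝 ((0 : B) • (F.half • s))) :=
      F.p_pow_tendsto.smul_const _
    rw [zero_smul] at h1
    refine h1.congr fun n => ?_
    rw [← Nat.cast_pow, Nat.cast_smul_eq_nsmul]

theorem half_two (F : Filt p B) : F.half * 2 = 1 := by
  rw [mul_two, F.half_add]

end Filt

/-- a representation over a filtered ring -/
structure Dat (p : ℕ) (B : Type*) [CommRing B] [TopologicalSpace B] (G : Type*) [Group G] [TopologicalSpace G] where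
  F : Filt p B
  R : G →* Mt B
  cR : Continuous R
  D : Subgroup G
  cD : IsClosed (D : Set G)
  det : ∀ x ∈ D, (R x).det = 1
  sm : ∀ x ∈ D, ∀ i j, (R x - 1) i j ∈ F.M 1

namespace Dat

variable {p : ℕ} {B : Type*} [CommRing B] [TopologicalSpace B] [IsTopologicalRing B]
  {G : Type*} [Group G] [TopologicalSpace G] (d : Dat p B G)

/-- the closed span of the trace zero parts -/
def L0 : AddSubgroup (Mt B) := cspan {z | ∃ x ∈ d.D, z = th (d.R x)}

/-- the descending central series -/
def L : ℕ → AddSubgroup (Mt B)
  | 0 => d.L0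
  | n + 1 => cspan {z | ∃ u ∈ d.L0, ∃ v ∈ L n, z = br u v}

/-- the closed span of the traces of products -/
def C : AddSubgroup B := cspan {c | ∃ u ∈ d.L0, ∃ v ∈ d.L0, c = (u * v).trace}

/-- the closed commutator groups -/
def Γ [IsTopologicalGroup G] : ℕ → Subgroup G
  | 0 => d.D
  | n + 1 => (⁅d.D, Γ n⁆).topologicalClosure

/-- Pink's groups -/
def H (n : ℕ) : Set (Mt B) := {x | x.det = 1 ∧ th x ∈ d.L n ∧ x.trace - 2 ∈ d.C}

theorem L_zero : d.L 0 = d.L0 := rfl

theorem L_succ (n : ℕ) : d.L (n + 1) = cspan {z | ∃ u ∈ d.L0, ∃ v ∈ d.L n, z = br u v} := rfl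

theorem L_closed (n : ℕ) : IsClosed (d.L n : Set (Mt B)) := by
  cases n with
  | zero => exact isClosed_cspan _
  | succ n => exact isClosed_cspan _

theorem C_closed : IsClosed (d.C : Set B) := isClosed_cspan _

theorem th_mem {x : G} (hx : x ∈ d.D) : th (d.R x) ∈ d.L0 := subset_cspan _ ⟨x, hx, rfl⟩

theorem br_mem (n : ℕ) {u v : Mt B} (hu : u ∈ d.L0) (hv : v ∈ d.L n) : br u v ∈ d.L (n + 1) :=
  subset_cspan _ ⟨u, hu, v, hv, rfl⟩

theorem tr_mem {u v : Mt B} (hu : u ∈ d.L0) (hv : v ∈ d.L0) : (u * v).trace ∈ d.C :=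
  subset_cspan _ ⟨u, hu, v, hv, rfl⟩

/-- the commutator is continuous and additive in the first variable -/
def brL (v : Mt B) : Mt B →+ Mt B where
  toFun u := br u v
  map_zero' := by simp [br]
  map_add' a b := by simp only [br]; noncomm_ring

/-- the commutator is continuous and additive in the second variable -/
def brR (u : Mt B) : Mt B →+ Mt B where
  toFun v := br u v
  map_zero' := by simp [br]
  map_add' a b := by simp only [br]; noncomm_ring

theorem brL_continuous (v : Mt B) : Continuous (brL v) := by
  change Continuous fun u : Mt B => u * v - v * u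
  fun_prop

theorem brR_continuous (u : Mt B) : Continuous (brR u) := by
  change Continuous fun v : Mt B => u * v - v * u
  fun_prop

theorem th_continuous : Continuous (th : Mt B → Mt B) := by
  have h : (th : Mt B → Mt B) = fun x => (2 : B) • x - x.trace • (1 : Mt B) := funext th_eq
  rw [h]
  exact (continuous_const_smul (2 : B)).sub ((Continuous.matrix_trace continuous_id).smul continuous_const)

end Dat

end Pool.Agent.PMD
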