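import Pool.Agent.Helper27.FM.Defs

/-!
# Project PMD (MP_b583a4_nt): definitions
-/

set_option autoImplicit false
open Filter Topology

namespace Pool.Agent.PMD

/-- the character of `End ρ`: `g ↦ tr ρ(g) · tr ρ(g)⁻¹` -/
def charEnd {K : Type*} [Field K] {G : Type*} [Group G] (ρ : G →* GL (Fin 2) K) (g : G) : K :=
  (ρ g : Matrix (Fin 2) (Fin 2) K).trace * (((ρ g)⁻¹ : GL (Fin 2) K) : Matrix (Fin 2) (Fin 2) K).trace

/-- The character of `End V` is a uniform limit on `G` of finite sums of `ℚ_p`-linear images of the characters of the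
`End (r i)`. -/
def IsLimit (p : ℕ) [Fact p.Prime] {E : Type*} [NontriviallyNormedField E] [NormedAlgebra ℚ_[p] E]
    {G : Type*} [Group G] (V : G →* GL (Fin 2) E) {I : Type*} {K : I → Type*}
    [∀ i, NontriviallyNormedField (K i)] [∀ i, NormedAlgebra ℚ_[p] (K i)]
    (r : ∀ i, G →* GL (Fin 2) (K i)) : Prop :=
  ∀ ε : ℝ, 0 < ε → ∃ (s : Finset I) (lam : ∀ i, K i →ₗ[ℚ_[p]] E),
    ∀ g : G, ‖charEnd V g - ∑ i ∈ s, lam i (charEnd (r i) g)‖ < ε

/-- `V` is independent of the family `r`: for every open subgroup `U` there is a neighbourhood `W` of `1` such that every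
element of `V(G) ∩ W` of determinant `1` is `V g'` for some `g' ∈ U` on which all `r i` are trivial. -/
def Indep {E : Type*} [NontriviallyNormedField E] {G : Type*} [Group G] [TopologicalSpace G]
    (V : G →* GL (Fin 2) E) {I : Type*} {K : I → Type*} [∀ i, Field (K i)]
    (r : ∀ i, G →* GL (Fin 2) (K i)) : Prop :=
  ∀ U : Subgroup G, IsOpen (U : Set G) → ∃ W ∈ 𝓝 (1 : Matrix (Fin 2) (Fin 2) E),
    ∀ g, (V g : Matrix (Fin 2) (Fin 2) E) ∈ W → (V g : Matrix (Fin 2) (Fin 2) E).det = 1 →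
      ∃ g' ∈ U, V g' = V g ∧ ∀ i, r i g' = 1

end Pool.Agent.PMD
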