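import Pool.Agent.PMD.Defs

/-!
# Project PMD (MP_b583a4_nt): the Hecke algebra of a family and its points
-/

set_option autoImplicit false
open Filter Topology

namespace Pool.Agent.PMD

/-- The adjoint Hecke algebra of the family `r`: the closure in `∏ K i` (product topology) of the subring generated by
the families `(charEnd (r i) g)_i`, `g ∈ G`. -/
def hecke {I : Type*} {K : I → Type*} [∀ i, NontriviallyNormedField (K i)] {G : Type*} [Group G]
    (r : ∀ i, G →* GL (Fin 2) (K i)) : Subring (∀ i, K i) :=
  (Subring.closure (Set.range fun (g : G) (i : I) => charEnd (r i) g)).topologicalClosure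

/-- `V` is a point of the adjoint Hecke algebra of the family `r`: there is a continuous ring homomorphism which maps
`(charEnd (r i) g)_i` to `charEnd V g` for all `g`. -/
def IsPoint {E : Type*} [NontriviallyNormedField E] {G : Type*} [Group G] (V : G →* GL (Fin 2) E) {I : Type*}
    {K : I → Type*} [∀ i, NontriviallyNormedField (K i)] (r : ∀ i, G →* GL (Fin 2) (K i)) : Prop :=
  ∃ θ : hecke r →+* E, Continuous θ ∧
    ∀ (g : G) (t : hecke r), (t : ∀ i, K i) = (fun i => charEnd (r i) g) → θ t = charEnd V g

/-- On some open subgroup `U` all elements which are trivial on all `r i` act by scalars on `V`. -/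
def ScalarKernel {E : Type*} [Field E] {G : Type*} [Group G] [TopologicalSpace G] (V : G →* GL (Fin 2) E)
    {I : Type*} {K : I → Type*} [∀ i, Field (K i)] (r : ∀ i, G →* GL (Fin 2) (K i)) : Prop :=
  ∃ U : Subgroup G, IsOpen (U : Set G) ∧ ∀ g ∈ U, (∀ i, r i g = 1) →
    ∃ c : E, (V g : Matrix (Fin 2) (Fin 2) E) = c • (1 : Matrix (Fin 2) (Fin 2) E)

/-- Some element has trace zero on all `r i` and nonzero trace on `V`. -/
def TraceSeparated {E : Type*} [Field E] {G : Type*} [Group G] (V : G →* GL (Fin 2) E)
    {I : Type*} {K : I → Type*} [∀ i, Field (K i)] (r : ∀ i, G →* GL (Fin 2) (K i)) : Prop :=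
  ∃ c : G, (∀ i, (r i c : Matrix (Fin 2) (Fin 2) (K i)).trace = 0) ∧ (V c : Matrix (Fin 2) (Fin 2) E).trace ≠ 0

end Pool.Agent.PMD
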