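import Mathlib

/-!
# Project PMD (MP_b583a4_nt), module DualA: extension of a functional modulo a ball (Mathlib only)

PLAN. `A = ∀ i : s, K i`. `Φ : (G →₀ ℤ) →+ A`, `Φ a i = ∑ a g f i g` and `Φ₀ : (G →₀ ℤ) →+ E` (`Finsupp.liftAddHom`). Let `B ≤ A` be the subgroup of the `x` with `‖x i‖ < δ` for all `i`, and `ball E ε ≤ E`. By `h` the kernel of `(G →₀ ℤ) → A ⧸ B` is in the kernel of
`(G →₀ ℤ) → E ⧸ ball E ε`, so there is `φ` from the range `S ≤ A ⧸ B` to `E ⧸ ball E ε` with `φ [Φ a] = [Φ₀ a]`. The group `E ⧸ ball E ε` is divisible (`E` is a `ℚ_p`-vector space, characteristic zero: `x = n • (n⁻¹ x)`), so `φ` extends to `A ⧸ B`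
(`ext_div`: Baer's criterion; look for `AddCommGrp.injective_of_divisible`, `Module.Baer`, `Module.Injective`, `DivisibleBy`). Then `ψ i x = φ [Pi.single i x]` for `i ∈ s` and `0` for `i ∉ s`; `[x] = ∑ [Pi.single i (x i)]`.
-/

set_option autoImplicit false
open Filter Topology

namespace Pool.Agent.PMD

/-- the elements of norm less than `ε` -/
def ball (E : Type*) [NormedAddCommGroup E] [IsUltrametricDist E] (ε : ℝ) (hε : 0 < ε) : AddSubgroup E where
  carrier := {x | ‖x‖ < ε}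
  zero_mem' := by simpa using hε
  add_mem' := fun {a b} ha hb => (IsUltrametricDist.norm_add_le_max a b).trans_lt (max_lt ha hb)
  neg_mem' := fun {a} ha => by simpa using ha

theorem ext_div {A D : Type*} [AddCommGroup A] [AddCommGroup D]
    (hdiv : ∀ n : ℤ, n ≠ 0 → ∀ d : D, ∃ e : D, n • e = d) (S : AddSubgroup A) (φ : S →+ D) :
    ∃ ψ : A →+ D, ∀ s : S, ψ s = φ s := by
  classical
  have hsurj : ∀ {n : ℤ}, n ≠ 0 → Function.Surjective (fun a => n • a : D → D) :=
    fun {n} hn d => hdiv n hn d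
  let _ : DivisibleBy D ℤ := divisibleByOfSMulRightSurj D ℤ hsurj
  obtain ⟨ψ, hψ⟩ := (Module.Baer.of_divisible D).extension_property_addMonoidHom S.subtype
    S.subtype_injective φ
  exact ⟨ψ, fun s => DFunLike.congr_fun hψ s⟩

/-- the additive map attached to a function -/
private noncomputable def lin {R : Type*} [CommRing R] {G : Type*} (f : G → R) : (G →₀ ℤ) →+ R :=
  AddMonoidHom.mk' (fun a => a.sum fun g n => (n : R) * f g) (by
    intro a b
    exact Finsupp.sum_add_index' (fun g => by simp) (fun g m n => by push_cast; ring))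

private theorem lin_single {R : Type*} [CommRing R] {G : Type*} (f : G → R) (g : G) :
    lin f (Finsupp.single g 1) = f g := by
  change (Finsupp.single g (1 : ℤ)).sum (fun g n => (n : R) * f g) = f g
  rw [Finsupp.sum_single_index (by simp)]
  simp

/-- the extension, abstract form -/
private theorem ext_ker {M A D : Type*} [AddCommGroup M] [AddCommGroup A] [AddCommGroup D]
    (hdiv : ∀ n : ℤ, n ≠ 0 → ∀ d : D, ∃ e : D, n • e = d) (u : M →+ A) (v : M →+ D)
    (h : ∀ m, u m = 0 → v m = 0) : ∃ ψ : A →+ D, ∀ m, ψ (u m) = v m := by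
  let e := u.rangeRestrict.liftOfSurjective u.rangeRestrict_surjective
    ⟨v, fun m hm => by
      rw [AddMonoidHom.mem_ker] at hm ⊢
      exact h m (congrArg Subtype.val hm)⟩
  obtain ⟨ψ, hψ⟩ := ext_div hdiv u.range e
  refine ⟨ψ, fun m => ?_⟩
  have h1 := hψ (u.rangeRestrict m)
  have h2 : e (u.rangeRestrict m) = v m :=
    AddMonoidHom.liftOfRightInverse_comp_apply _ _ _ _ _
  rw [h2] at h1
  exact h1

theorem dualA (p : ℕ) [Fact p.Prime] {I : Type*} {K : I → Type*} [∀ i, NontriviallyNormedField (K i)]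
    [∀ i, IsUltrametricDist (K i)] {E : Type*} [NontriviallyNormedField E] [IsUltrametricDist E]
    [NormedAlgebra ℚ_[p] E] {G : Type*} (f : ∀ i, G → K i) (f₀ : G → E) {ε δ : ℝ} (hε : 0 < ε)
    (s : Finset I) (hδ : 0 < δ)
    (h : ∀ a : G →₀ ℤ, (∀ i ∈ s, ‖a.sum fun g n => (n : K i) * f i g‖ < δ) →
      ‖a.sum fun g n => (n : E) * f₀ g‖ < ε) :
    ∃ ψ : ∀ i, K i →+ E ⧸ ball E ε hε, (∀ i, ∀ x : K i, ‖x‖ < δ → ψ i x = 0) ∧
      ∀ g, (QuotientAddGroup.mk (f₀ g) : E ⧸ ball E ε hε) = ∑ i ∈ s, ψ i (f i g) := by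
  classical
  have hchar : CharZero E := charZero_of_injective_algebraMap (algebraMap ℚ_[p] E).injective
  have hdiv : ∀ n : ℤ, n ≠ 0 → ∀ d : E ⧸ ball E ε hε, ∃ e : E ⧸ ball E ε hε, n • e = d := by
    intro n hn d
    obtain ⟨x, rfl⟩ := QuotientAddGroup.mk_surjective d
    refine ⟨QuotientAddGroup.mk ((n : E)⁻¹ * x), ?_⟩
    rw [← QuotientAddGroup.mk_zsmul, zsmul_eq_mul, mul_inv_cancel_left₀ (Int.cast_ne_zero.2 hn)]
  let B : AddSubgroup (∀ i, K i) := AddSubgroup.pi (s : Set I) fun i => ball (K i) δ hδ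
  have hB : ∀ x : ∀ i, K i, x ∈ B ↔ ∀ i ∈ s, ‖x i‖ < δ := fun x => Iff.rfl
  let u : (G →₀ ℤ) →+ (∀ i, K i) ⧸ B :=
    (QuotientAddGroup.mk' B).comp (AddMonoidHom.pi fun i => lin (f i))
  let v : (G →₀ ℤ) →+ E ⧸ ball E ε hε := (QuotientAddGroup.mk' _).comp (lin f₀)
  obtain ⟨ψ, hψ⟩ := ext_ker hdiv u v (by
    intro a ha
    have h1 : (AddMonoidHom.pi (fun i => lin (f i)) a : ∀ i, K i) ∈ B :=
      (QuotientAddGroup.eq_zero_iff _).1 ha
    exact (QuotientAddGroup.eq_zero_iff _).2 (h a ((hB _).1 h1)))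
  refine ⟨fun i => (ψ.comp (QuotientAddGroup.mk' B)).comp (AddMonoidHom.single K i), ?_, ?_⟩
  · intro i x hx
    have h1 : (Pi.single i x : ∀ i, K i) ∈ B := by
      rw [hB]
      intro j _
      by_cases hj : j = i
      · subst hj
        rw [Pi.single_eq_same]
        exact hx
      · rw [Pi.single_eq_of_ne hj, norm_zero]
        exact hδ
    change ψ (QuotientAddGroup.mk (Pi.single i x)) = 0
    rw [(QuotientAddGroup.eq_zero_iff _).2 h1, map_zero]
  · intro g
    have h1 := hψ (Finsupp.single g 1)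
    have h2 : v (Finsupp.single g 1) = QuotientAddGroup.mk (f₀ g) := by
      change QuotientAddGroup.mk (lin f₀ (Finsupp.single g 1)) = _
      rw [lin_single]
    have h3 : u (Finsupp.single g 1) =
        QuotientAddGroup.mk' B (∑ i ∈ s, Pi.single i (f i g)) := by
      change QuotientAddGroup.mk' B (fun i => lin (f i) (Finsupp.single g 1)) = _
      rw [QuotientAddGroup.mk'_apply, QuotientAddGroup.mk'_apply, QuotientAddGroup.eq, hB]
      intro i hi
      rw [Pi.add_apply, Pi.neg_apply, Finset.sum_apply, lin_single,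
        Finset.sum_eq_single_of_mem i hi, Pi.single_eq_same, neg_add_cancel, norm_zero]
      · exact hδ
      · intro j _ hj
        rw [Pi.single_eq_of_ne hj.symm]
    rw [h2, h3, map_sum, map_sum] at h1
    exact h1.symm

end Pool.Agent.PMD
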