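import Pool.Agent.PMD.DualA

/-!
# Project PMD (MP_b583a4_nt), module DualB: lifting a functional modulo a ball to a `ℚ_p`-linear map

PLAN. `K` is finite dimensional over `ℚ_p`; take a basis `b` (`Module.finBasis ℚ_[p] K`). The coordinate maps are continuous (`LinearMap.continuous_of_finiteDimensional`), so bounded on the unit ball; replace `b j` by `p^(-m) b j` such that `‖x‖ ≤ 1` implies
that all coordinates have norm `≤ 1`. Choose `c j : E` with `[c j] = ψ (b j)` (`QuotientAddGroup.mk_surjective`) and `lam x = ∑ x_j • c j`. Let `‖x‖ ≤ 1`. For every `N` there are natural numbers (integers) `n j` with `‖x_j - n j‖ ≤ p^(-N)` (`PadicInt.appr`, or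
density of `ℤ` in `ℤ_[p]`: `PadicInt.denseRange_intCast`). For `N` large `‖x - ∑ n j • b j‖ = ‖∑ (x_j - n j) • b j‖ < δ` and `‖∑ (x_j - n j) • c j‖ < ε`, so `ψ x = ∑ n j • ψ (b j) = [∑ n j • c j] = [lam x]`.
-/

set_option autoImplicit false
open Filter Topology

namespace Pool.Agent.PMD

private theorem db_app (p : ℕ) [Fact p.Prime] {y : ℚ_[p]} (hy : ‖y‖ ≤ 1) {η : ℝ} (hη : 0 < η) :
    ∃ n : ℤ, ‖y - (n : ℚ_[p])‖ < η := by
  obtain ⟨n, hn⟩ := (PadicInt.denseRange_intCast (p := p)).exists_dist_lt (⟨y, hy⟩ : ℤ_[p]) hη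
  refine ⟨n, ?_⟩
  rw [dist_eq_norm, ← PadicInt.padic_norm_e_of_padicInt] at hn
  simpa using hn

private theorem db_gen (p : ℕ) [Fact p.Prime] {F : Type*} [NontriviallyNormedField F]
    [NormedAlgebra ℚ_[p] F] {k : ℕ} (y : Fin k → ℚ_[p]) (n : Fin k → ℤ) {B μ : ℝ} (hB0 : 0 < B)
    (hμ : 0 < μ) (hn : ∀ j, ‖y j - (n j : ℚ_[p])‖ < μ / B) (v : Fin k → F)
    (hv : (∑ j, ‖v j‖) < B) : ‖∑ j, y j • v j - ∑ j, n j • v j‖ < μ := by
  have hη : 0 < μ / B := div_pos hμ hB0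
  rw [← Finset.sum_sub_distrib]
  have h1 : ∀ j, y j • v j - n j • v j = (y j - (n j : ℚ_[p])) • v j := by
    intro j
    rw [sub_smul, Int.cast_smul_eq_zsmul]
  simp_rw [h1]
  calc ‖∑ j, (y j - (n j : ℚ_[p])) • v j‖
      ≤ ∑ j, ‖(y j - (n j : ℚ_[p])) • v j‖ := norm_sum_le _ _
    _ ≤ ∑ j, (μ / B) * ‖v j‖ := by
        refine Finset.sum_le_sum fun j _ => ?_
        rw [norm_smul]
        exact mul_le_mul_of_nonneg_right (hn j).le (norm_nonneg _)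
    _ = (μ / B) * ∑ j, ‖v j‖ := by rw [Finset.mul_sum]
    _ < (μ / B) * B := mul_lt_mul_of_pos_left hv hη
    _ = μ := by field_simp

theorem dualB (p : ℕ) [Fact p.Prime] {K : Type*} [NontriviallyNormedField K] [IsUltrametricDist K]
    [NormedAlgebra ℚ_[p] K] [FiniteDimensional ℚ_[p] K] {E : Type*} [NontriviallyNormedField E]
    [IsUltrametricDist E] [NormedAlgebra ℚ_[p] E] {ε δ : ℝ} (hε : 0 < ε) (hδ : 0 < δ)
    (ψ : K →+ E ⧸ ball E ε hε) (hψ : ∀ x : K, ‖x‖ < δ → ψ x = 0) :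
    ∃ lam : K →ₗ[ℚ_[p]] E, ∀ x : K, ‖x‖ ≤ 1 → (QuotientAddGroup.mk (lam x) : E ⧸ ball E ε hε) = ψ x := by
  classical
  obtain ⟨k, b, -⟩ : ∃ (k : ℕ) (_ : Module.Basis (Fin k) ℚ_[p] K), True :=
    ⟨_, Module.finBasis ℚ_[p] K, trivial⟩
  obtain ⟨C, hC⟩ : ∃ C : ℝ, ∀ (j : Fin k) (x : K), ‖x‖ ≤ 1 → ‖b.repr x j‖ ≤ C := by
    refine ⟨∑ j, ‖LinearMap.toContinuousLinearMap (b.coord j)‖, fun j x hx => ?_⟩
    have h1 := (LinearMap.toContinuousLinearMap (b.coord j)).le_opNorm x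
    have h2 : ‖LinearMap.toContinuousLinearMap (b.coord j)‖ ≤
        ∑ j, ‖LinearMap.toContinuousLinearMap (b.coord j)‖ :=
      Finset.single_le_sum (f := fun j => ‖LinearMap.toContinuousLinearMap (b.coord j)‖)
        (fun _ _ => norm_nonneg _) (Finset.mem_univ j)
    have h3 : ‖b.repr x j‖ ≤ ‖LinearMap.toContinuousLinearMap (b.coord j)‖ * ‖x‖ := h1
    refine h3.trans (le_trans ?_ h2)
    exact mul_le_of_le_one_right (norm_nonneg _) hx
  have hp1 : (1 : ℝ) < p := by exact_mod_cast (Fact.out : p.Prime).one_lt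
  obtain ⟨m, hm⟩ := pow_unbounded_of_one_lt C hp1
  obtain ⟨q, hq0, hq⟩ : ∃ q : ℚ_[p], q ≠ 0 ∧ ‖q‖ = ((p : ℝ) ^ m)⁻¹ := by
    refine ⟨(p : ℚ_[p]) ^ m, pow_ne_zero _ ?_, ?_⟩
    · exact_mod_cast (Fact.out : p.Prime).ne_zero
    · rw [norm_pow, Padic.norm_p, inv_pow]
  have hpm : (0 : ℝ) < (p : ℝ) ^ m := by positivity
  have hsum : ∀ x : K, ∑ j, (q * b.repr x j) • (q⁻¹ • b j) = x := by
    intro x
    conv_rhs => rw [← b.sum_repr x]
    refine Finset.sum_congr rfl fun j _ => ?_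
    rw [smul_smul]
    congr 1
    field_simp
  have hy : ∀ x : K, ‖x‖ ≤ 1 → ∀ j, ‖q * b.repr x j‖ ≤ 1 := by
    intro x hx j
    rw [norm_mul, hq, inv_mul_le_iff₀ hpm, mul_one]
    exact (hC j x hx).trans hm.le
  choose c hc using fun j => QuotientAddGroup.mk_surjective (ψ (q⁻¹ • b j))
  refine ⟨∑ j, (q • b.coord j).smulRight (c j), fun x hx => ?_⟩
  have hlam : (∑ j, (q • b.coord j).smulRight (c j)) x = ∑ j, (q * b.repr x j) • c j := by
    rw [LinearMap.sum_apply]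
    refine Finset.sum_congr rfl fun j _ => ?_
    rfl
  rw [hlam]
  obtain ⟨B, hB0, hB1, hB2⟩ : ∃ B : ℝ, 0 < B ∧ (∑ j, ‖q⁻¹ • b j‖) < B ∧ (∑ j, ‖c j‖) < B := by
    refine ⟨(∑ j, ‖q⁻¹ • b j‖) + (∑ j, ‖c j‖) + 1, ?_, ?_, ?_⟩
    · positivity
    · have : 0 ≤ ∑ j, ‖c j‖ := Finset.sum_nonneg fun _ _ => norm_nonneg _
      linarith
    · have : 0 ≤ ∑ j, ‖q⁻¹ • b j‖ := Finset.sum_nonneg fun _ _ => norm_nonneg _
      linarith
  have hη : 0 < min δ ε / B := div_pos (lt_min hδ hε) hB0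
  choose n hn using fun j => db_app p (hy x hx j) hη
  have hb := db_gen p _ n hB0 (lt_min hδ hε) hn (fun j => q⁻¹ • b j) hB1
  have hcc := db_gen p _ n hB0 (lt_min hδ hε) hn c hB2
  rw [hsum x] at hb
  have e1 : ψ x = ψ (∑ j, n j • (q⁻¹ • b j)) := by
    have h1 := hψ _ (hb.trans_le (min_le_left _ _))
    rw [map_sub, sub_eq_zero] at h1
    exact h1
  have e2 : ψ (∑ j, n j • (q⁻¹ • b j)) =
      (QuotientAddGroup.mk (∑ j, n j • c j) : E ⧸ ball E ε hε) := by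
    rw [map_sum]
    have h2 : (QuotientAddGroup.mk (∑ j, n j • c j) : E ⧸ ball E ε hε) =
        ∑ j, n j • (QuotientAddGroup.mk (c j) : E ⧸ ball E ε hε) := by
      have h3 := map_sum (QuotientAddGroup.mk' (ball E ε hε)) (fun j => n j • c j) Finset.univ
      refine h3.trans (Finset.sum_congr rfl fun j _ => ?_)
      exact map_zsmul (QuotientAddGroup.mk' (ball E ε hε)) (n j) (c j)
    rw [h2]
    refine Finset.sum_congr rfl fun j _ => ?_
    rw [map_zsmul, hc]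
  rw [e1, e2]
  rw [QuotientAddGroup.eq]
  have h4 := hcc.trans_le (min_le_right _ _)
  rw [← norm_neg, neg_sub] at h4
  have h5 : ‖-(∑ j, (q * b.repr x j) • c j) + ∑ j, n j • c j‖ < ε := by
    rw [neg_add_eq_sub]
    exact h4
  exact h5

end Pool.Agent.PMD
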