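import Mathlib

/-!
# Project PMD (MP_b583a4_nt), module ExHom: a compact graph is the graph of a continuous ring homomorphism (Mathlib only)

PLAN. Let `T = (Subring.closure (range (f, e))).topologicalClosure ≤ A × E`, `T₁ = (Subring.closure (range f)).topologicalClosure ≤ A`. (1) `t.1 ∈ T₁` for `t ∈ T`: `T₁.comap (RingHom.fst A E)` is a closed subring which contains the generators
(`Subring.topologicalClosure_minimal`, `Subring.closure_le`). (2) The image of the compact set `T` under `Prod.fst` is compact, so closed, and a subring (`Subring.map`) which contains all `f x`, so it contains `T₁`. (3) So `π : T → T₁`, `t ↦ t.1`, is a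
ring homomorphism, surjective by (2), injective by `h0`, continuous; `T` is compact and `T₁` is Hausdorff, so its inverse is continuous (`Continuous.homeoOfEquivCompactToT2`, with `RingEquiv.ofBijective`). `θ = Prod.snd ∘ π⁻¹`. If `(t : A) = f x` then
`π⁻¹ t = (f x, e x)`.
-/

set_option autoImplicit false
open Filter Topology

namespace Pool.Agent.PMD

theorem exists_hom {A E : Type*} [CommRing A] [TopologicalSpace A] [IsTopologicalRing A] [T2Space A] [CommRing E]
    [TopologicalSpace E] [IsTopologicalRing E] [T2Space E] {X : Type*} (f : X → A) (e : X → E)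
    (hK : IsCompact ((Subring.closure (Set.range fun x => (f x, e x))).topologicalClosure : Set (A × E)))
    (h0 : ∀ t ∈ (Subring.closure (Set.range fun x => (f x, e x))).topologicalClosure, t.1 = 0 → t.2 = 0) :
    ∃ θ : (Subring.closure (Set.range f)).topologicalClosure →+* E, Continuous θ ∧
      ∀ (x : X) (t : (Subring.closure (Set.range f)).topologicalClosure), (t : A) = f x → θ t = e x := by
  have hgen : ∀ x, (f x, e x) ∈ (Subring.closure (Set.range fun x => (f x, e x))).topologicalClosure :=
    fun x => Subring.le_topologicalClosure _ (Subring.subset_closure ⟨x, rfl⟩)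
  obtain ⟨T, hT⟩ : ∃ T : Subring (A × E),
      T = (Subring.closure (Set.range fun x => (f x, e x))).topologicalClosure := ⟨_, rfl⟩
  obtain ⟨T₁, hT₁⟩ : ∃ T₁ : Subring A, T₁ = (Subring.closure (Set.range f)).topologicalClosure :=
    ⟨_, rfl⟩
  rw [← hT] at hK h0 hgen
  rw [← hT₁]
  have h1 : T ≤ T₁.comap (RingHom.fst A E) := by
    rw [hT]
    apply Subring.topologicalClosure_minimal
    · rw [Subring.closure_le]
      rintro _ ⟨x, rfl⟩
      change f x ∈ T₁
      rw [hT₁]
      exact Subring.le_topologicalClosure _ (Subring.subset_closure ⟨x, rfl⟩)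
    · have h2 : IsClosed (T₁ : Set A) := by
        rw [hT₁]
        exact Subring.isClosed_topologicalClosure _
      exact h2.preimage continuous_fst
  have h2 : T₁ ≤ T.map (RingHom.fst A E) := by
    rw [hT₁]
    apply Subring.topologicalClosure_minimal
    · rw [Subring.closure_le]
      rintro _ ⟨x, rfl⟩
      exact ⟨(f x, e x), hgen x, rfl⟩
    · have h3 : ((T.map (RingHom.fst A E) : Subring A) : Set A) = Prod.fst '' (T : Set (A × E)) := rfl
      rw [h3]
      exact (hK.image continuous_fst).isClosed
  let π : T →+* T₁ := ((RingHom.fst A E).comp T.subtype).codRestrict T₁ (fun t => h1 t.2)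
  have hinj : Function.Injective π := by
    rw [injective_iff_map_eq_zero]
    intro t ht
    have h3 : (t : A × E).1 = 0 := congrArg Subtype.val ht
    have h4 := h0 t t.2 h3
    exact Subtype.ext (Prod.ext h3 h4)
  have hsurj : Function.Surjective π := by
    rintro ⟨a, ha⟩
    obtain ⟨t, ht, hta⟩ := h2 ha
    exact ⟨⟨t, ht⟩, Subtype.ext hta⟩
  have hcont : Continuous π := Continuous.subtype_mk (continuous_fst.comp continuous_subtype_val) _
  have hcT : CompactSpace T := isCompact_iff_compactSpace.1 hK
  let φ : T ≃+* T₁ := RingEquiv.ofBijective π ⟨hinj, hsurj⟩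
  have hφc : Continuous φ := hcont
  let h : T ≃ₜ T₁ := Continuous.homeoOfEquivCompactToT2 (f := φ.toEquiv) hφc
  have hsymm : Continuous φ.symm := h.continuous_symm
  refine ⟨(RingHom.snd A E).comp (T.subtype.comp (φ.symm : T₁ →+* T)), ?_, ?_⟩
  · exact continuous_snd.comp (continuous_subtype_val.comp hsymm)
  · intro x t ht
    have h4 : φ ⟨(f x, e x), hgen x⟩ = t := Subtype.ext ht.symm
    have h5 : φ.symm t = ⟨(f x, e x), hgen x⟩ := by rw [← h4, RingEquiv.symm_apply_apply]
    change ((φ.symm t : T) : A × E).2 = e x
    rw [h5]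

end Pool.Agent.PMD
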