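import Pool.Agent.PMD.Dat

/-!
# Project PMD (MP_b583a4_nt), module FiltP: the filtration of `(∀ i, K i) × E`

PLAN. `M n = {b | (∀ i, ‖b.1 i‖ ≤ ρ i ^ n) ∧ ‖b.2‖ ≤ ρ₀ ^ n}`: additive subgroup (ultrametric: `IsUltrametricDist.norm_add_le_max`), closed, multiplicative (`norm_mul`, `pow_add`), decreasing (`pow_le_pow_of_le_one`).
`small`: a neighbourhood of `0` in the product contains `{b | (∀ i ∈ s, ‖b.1 i‖ < δ) ∧ ‖b.2‖ < δ}` for a finite `s` (`nhds_prod_eq`, `nhds_pi`, `Filter.mem_pi`, `Metric.mem_nhds_iff`); take `n` with `ρ i ^ n < δ` (`i ∈ s`) and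
`ρ₀ ^ n < δ` (`exists_pow_lt_of_lt_one`; maximum over the finite set). `half = (fun _ => 2⁻¹, 2⁻¹)`.
-/

set_option autoImplicit false
open Filter Topology

namespace Pool.Agent.PMD

private def fpM {I : Type*} {K : I → Type*} [∀ i, NontriviallyNormedField (K i)]
    [∀ i, IsUltrametricDist (K i)] {E : Type*} [NontriviallyNormedField E]
    [IsUltrametricDist E] (ρ : I → ℝ) (ρ₀ : ℝ) (h0 : ∀ i, 0 < ρ i) (h0' : 0 < ρ₀) (n : ℕ) :
    AddSubgroup ((∀ i, K i) × E) where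
  carrier := {b | (∀ i, ‖b.1 i‖ ≤ ρ i ^ n) ∧ ‖b.2‖ ≤ ρ₀ ^ n}
  zero_mem' := by
    refine ⟨fun i => ?_, ?_⟩
    · simp only [Prod.fst_zero, Pi.zero_apply, norm_zero]
      exact pow_nonneg (h0 i).le n
    · simp only [Prod.snd_zero, norm_zero]
      exact pow_nonneg h0'.le n
  add_mem' := by
    rintro a b ⟨ha1, ha2⟩ ⟨hb1, hb2⟩
    refine ⟨fun i => ?_, ?_⟩
    · exact (IsUltrametricDist.norm_add_le_max _ _).trans (max_le (ha1 i) (hb1 i))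
    · exact (IsUltrametricDist.norm_add_le_max _ _).trans (max_le ha2 hb2)
  neg_mem' := by
    rintro a ⟨ha1, ha2⟩
    refine ⟨fun i => ?_, ?_⟩
    · simp only [Prod.fst_neg, Pi.neg_apply, norm_neg]
      exact ha1 i
    · simp only [Prod.snd_neg, norm_neg]
      exact ha2

private theorem fpM_closed {I : Type*} {K : I → Type*} [∀ i, NontriviallyNormedField (K i)]
    [∀ i, IsUltrametricDist (K i)] {E : Type*} [NontriviallyNormedField E]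
    [IsUltrametricDist E] (ρ : I → ℝ) (ρ₀ : ℝ) (h0 : ∀ i, 0 < ρ i) (h0' : 0 < ρ₀) (n : ℕ) :
    IsClosed (fpM (K := K) (E := E) ρ ρ₀ h0 h0' n : Set ((∀ i, K i) × E)) := by
  have h : (fpM (K := K) (E := E) ρ ρ₀ h0 h0' n : Set ((∀ i, K i) × E)) =
      {b | ∀ i, ‖b.1 i‖ ≤ ρ i ^ n} ∩ {b | ‖b.2‖ ≤ ρ₀ ^ n} := rfl
  rw [h]
  refine IsClosed.inter ?_ ?_
  · rw [Set.ofPred_forall]
    refine isClosed_iInter fun i => ?_
    exact isClosed_le (((continuous_apply i).comp continuous_fst).norm) continuous_const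
  · exact isClosed_le (continuous_snd.norm) continuous_const

private theorem fpM_small {I : Type*} {K : I → Type*} [∀ i, NontriviallyNormedField (K i)]
    [∀ i, IsUltrametricDist (K i)] {E : Type*} [NontriviallyNormedField E]
    [IsUltrametricDist E] (ρ : I → ℝ) (ρ₀ : ℝ) (h0 : ∀ i, 0 < ρ i) (h0' : 0 < ρ₀)
    (h1 : ∀ i, ρ i < 1) (h1' : ρ₀ < 1) (s : Set ((∀ i, K i) × E)) (hs : s ∈ 𝓝 0) :
    ∃ n, (fpM (K := K) (E := E) ρ ρ₀ h0 h0' n : Set ((∀ i, K i) × E)) ⊆ s := by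
  classical
  rw [show (0 : (∀ i, K i) × E) = (0, 0) from rfl, nhds_prod_eq, Filter.mem_prod_iff] at hs
  obtain ⟨u, hu, v, hv, huv⟩ := hs
  rw [nhds_pi, Filter.mem_pi] at hu
  obtain ⟨J, hJ, t, ht, htu⟩ := hu
  have hδ : ∀ i, ∃ δ : ℝ, 0 < δ ∧ Metric.ball (0 : K i) δ ⊆ t i := fun i =>
    Metric.mem_nhds_iff.1 (ht i)
  choose δ hδ0 hδ using hδ
  obtain ⟨δ', hδ0', hδ'⟩ := Metric.mem_nhds_iff.1 hv
  have hn : ∀ i, ∃ n, ρ i ^ n < δ i := fun i => exists_pow_lt_of_lt_one (hδ0 i) (h1 i)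
  choose n hn using hn
  obtain ⟨n', hn'⟩ := exists_pow_lt_of_lt_one hδ0' h1'
  refine ⟨max n' (hJ.toFinset.sup n), ?_⟩
  rintro ⟨b1, b2⟩ ⟨hb1, hb2⟩
  apply huv
  refine ⟨htu ?_, ?_⟩
  · intro i hi
    apply hδ
    rw [mem_ball_zero_iff]
    refine lt_of_le_of_lt (hb1 i) (lt_of_le_of_lt ?_ (hn i))
    refine pow_le_pow_of_le_one (h0 i).le (h1 i).le ?_
    exact (Finset.le_sup (f := n) (hJ.mem_toFinset.2 hi)).trans (le_max_right _ _)
  · apply hδ'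
    rw [mem_ball_zero_iff]
    refine lt_of_le_of_lt hb2 (lt_of_le_of_lt ?_ hn')
    exact pow_le_pow_of_le_one h0'.le h1'.le (le_max_left _ _)

theorem exists_filt (p : ℕ) {I : Type*} {K : I → Type*} [∀ i, NontriviallyNormedField (K i)]
    [∀ i, IsUltrametricDist (K i)] [∀ i, CharZero (K i)] {E : Type*} [NontriviallyNormedField E]
    [IsUltrametricDist E] [CharZero E] (ρ : I → ℝ) (ρ₀ : ℝ) (h0 : ∀ i, 0 < ρ i) (h1 : ∀ i, ρ i < 1)
    (hp : ∀ i, ‖(p : K i)‖ ≤ ρ i) (h0' : 0 < ρ₀) (h1' : ρ₀ < 1) (hp' : ‖(p : E)‖ ≤ ρ₀) :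
    ∃ F : Filt p ((∀ i, K i) × E), ∀ b, b ∈ F.M 1 ↔ (∀ i, ‖b.1 i‖ ≤ ρ i) ∧ ‖b.2‖ ≤ ρ₀ := by
  have hmem : ∀ (n : ℕ) (b : (∀ i, K i) × E), b ∈ fpM (K := K) (E := E) ρ ρ₀ h0 h0' n ↔
      (∀ i, ‖b.1 i‖ ≤ ρ i ^ n) ∧ ‖b.2‖ ≤ ρ₀ ^ n := fun n b => Iff.rfl
  refine ⟨{ M := fun n => fpM ρ ρ₀ h0 h0' n
            closed := fun n => fpM_closed ρ ρ₀ h0 h0' n
            mul := ?_
            anti := ?_
            p_mem := ?_
            small := fun s hs => fpM_small ρ ρ₀ h0 h0' h1 h1' s hs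
            half := (fun _ => 2⁻¹, 2⁻¹)
            half_add := ?_ }, ?_⟩
  · intro m n a b ha hb
    rw [hmem] at ha hb ⊢
    refine ⟨fun i => ?_, ?_⟩
    · rw [Prod.fst_mul, Pi.mul_apply, norm_mul, pow_add]
      exact mul_le_mul (ha.1 i) (hb.1 i) (norm_nonneg _) (pow_nonneg (h0 i).le _)
    · rw [Prod.snd_mul, norm_mul, pow_add]
      exact mul_le_mul ha.2 hb.2 (norm_nonneg _) (pow_nonneg h0'.le _)
  · intro m n hmn b hb
    rw [hmem] at hb ⊢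
    exact ⟨fun i => (hb.1 i).trans (pow_le_pow_of_le_one (h0 i).le (h1 i).le hmn),
      hb.2.trans (pow_le_pow_of_le_one h0'.le h1'.le hmn)⟩
  · rw [hmem]
    refine ⟨fun i => ?_, ?_⟩
    · rw [pow_one, Prod.fst_natCast, Pi.natCast_apply]
      exact hp i
    · rw [pow_one, Prod.snd_natCast]
      exact hp'
  · refine Prod.ext (funext fun i => ?_) ?_
    · change (2⁻¹ : K i) + 2⁻¹ = 1
      rw [← two_mul]
      exact mul_inv_cancel₀ two_ne_zero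
    · change (2⁻¹ : E) + 2⁻¹ = 1
      rw [← two_mul]
      exact mul_inv_cancel₀ two_ne_zero
  · intro b
    change b ∈ fpM (K := K) (E := E) ρ ρ₀ h0 h0' 1 ↔ _
    rw [hmem, pow_one]
    simp only [pow_one]

end Pool.Agent.PMD
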