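import Mathlib

/-!
# MP_b583a4_nt, hand-in ProModular: the definitions of the statement
-/

set_option autoImplicit false
open Filter Topology

namespace Pool.Agent.PMD.Stmt

section general

variable {G : Type*} [Group G] [TopologicalSpace G]

/-- the closure of the subring generated by the `a g` -/
def ringOf {G A : Type*} [CommRing A] [TopologicalSpace A] [IsTopologicalRing A] (a : G → A) : Subring A :=
  (Subring.closure (Set.range a)).topologicalClosure

/-- `a` extends to `e`: there is a continuous ring homomorphism from the closure of the subring of `A` generated by the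
`a g`, `g ∈ G`, to `E` which maps `a g` to `e g` for all `g`. -/
def Extends {G A E : Type*} [CommRing A] [TopologicalSpace A] [IsTopologicalRing A] [CommRing E]
    [TopologicalSpace E] (a : G → A) (e : G → E) : Prop :=
  ∃ θ : ringOf a →+* E, Continuous θ ∧ ∀ (g : G) (t : ringOf a), (t : A) = a g → θ t = e g

/-- `N` is large for `ρ` on the set `S`: for every open subgroup `U` there is a neighbourhood `W` of `1` such that every
element of `ρ(G)` in `W ∩ S` is `ρ g'` for some `g' ∈ U ∩ N`. -/
def Large {H : Type*} [Monoid H] [TopologicalSpace H] (ρ : G → H) (S : Set H) (N : Set G) : Prop :=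
  ∀ U : Subgroup G, IsOpen (U : Set G) → ∃ W ∈ 𝓝 (1 : H), ∀ g, ρ g ∈ W → ρ g ∈ S →
    ∃ g' ∈ U, g' ∈ N ∧ ρ g' = ρ g

end general

section reps

variable {K : Type*} [Field K] {G : Type*} [Group G]

/-- the matrix of `ρ g` -/
def mat (ρ : G →* GL (Fin 2) K) (g : G) : Matrix (Fin 2) (Fin 2) K := ρ g

/-- `ρ` is continuous -/
def Cont [TopologicalSpace K] [TopologicalSpace G] (ρ : G →* GL (Fin 2) K) : Prop := Continuous (mat ρ)

/-- the character of `End ρ`: `g ↦ tr ρ(g) · tr ρ(g)⁻¹` -/
def charEnd (ρ : G →* GL (Fin 2) K) (g : G) : K := (mat ρ g).trace * (mat ρ g⁻¹).trace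

/-- the matrices `ρ g`, `g ∈ U`, span `M_2(K)` for every open subgroup `U` -/
def StronglyIrreducible [TopologicalSpace G] (ρ : G →* GL (Fin 2) K) : Prop :=
  ∀ U : Subgroup G, IsOpen (U : Set G) → Submodule.span K (mat ρ '' U) = ⊤

end reps

section families

variable {E : Type*} [NontriviallyNormedField E] {G : Type*} [Group G] {I : Type*} {K : I → Type*}
  [∀ i, NontriviallyNormedField (K i)]

/-- the elements which are trivial on all `r i` -/
def commonKernel (r : ∀ i, G →* GL (Fin 2) (K i)) : Set G := {g | ∀ i, mat (r i) g = 1}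

/-- `V` is a point of the adjoint Hecke algebra of the family `r`, the closure in `∏ K i` (product topology) of the
subring generated by the families `(charEnd (r i) g)_i`, `g ∈ G`: a continuous ring homomorphism from it to `E` maps
`(charEnd (r i) g)_i` to `charEnd V g` for all `g`. -/
def IsPoint (V : G →* GL (Fin 2) E) (r : ∀ i, G →* GL (Fin 2) (K i)) : Prop :=
  Extends (fun (g : G) (i : I) => charEnd (r i) g) (charEnd V)

/-- The character of `End V` is a uniform limit on `G` of finite sums of `ℚ_p`-linear images of the characters of the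
`End (r i)`. -/
def IsLimit (p : ℕ) [Fact p.Prime] [NormedAlgebra ℚ_[p] E] [∀ i, NormedAlgebra ℚ_[p] (K i)] (V : G →* GL (Fin 2) E)
    (r : ∀ i, G →* GL (Fin 2) (K i)) : Prop :=
  ∀ ε : ℝ, 0 < ε → ∃ (s : Finset I) (l : ∀ i, K i →ₗ[ℚ_[p]] E),
    ∀ g : G, ‖charEnd V g - ∑ i ∈ s, l i (charEnd (r i) g)‖ < ε

/-- On some open subgroup `U` all elements which are trivial on all `r i` act by scalars on `V`. -/
def ScalarKernel [TopologicalSpace G] (V : G →* GL (Fin 2) E) (r : ∀ i, G →* GL (Fin 2) (K i)) : Prop :=
  ∃ U : Subgroup G, IsOpen (U : Set G) ∧ ∀ g ∈ U, g ∈ commonKernel r → ∃ c : E, mat V g = c • 1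

/-- `V` is independent of the family `r`: for every open subgroup `U` there is a neighbourhood `W` of `1` such that every
element of `V(G) ∩ W` of determinant `1` is `V g'` for some `g' ∈ U` on which all `r i` are trivial. -/
def Indep [TopologicalSpace G] (V : G →* GL (Fin 2) E) (r : ∀ i, G →* GL (Fin 2) (K i)) : Prop :=
  Large (mat V) {x | x.det = 1} (commonKernel r)

/-- Some element has trace zero on all `r i` and nonzero trace on `V`. -/
def TraceSeparated (V : G →* GL (Fin 2) E) (r : ∀ i, G →* GL (Fin 2) (K i)) : Prop :=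
  ∃ c : G, (∀ i, (mat (r i) c).trace = 0) ∧ (mat V c).trace ≠ 0

end families

end Pool.Agent.PMD.Stmt
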