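import Pool.Agent.PMD.Main
import Pool.Agent.PMD.Stmt

/-!
# Project PMD (MP_b583a4_nt): the theorem with the definitions of `Stmt.lean`
-/

set_option autoImplicit false
open Filter Topology

namespace Pool.Agent.PMD.Stmt

section reps

variable {K : Type*} [Field K] {G : Type*} [Group G]

theorem mat_apply (ρ : G →* GL (Fin 2) K) (g : G) : mat ρ g = (ρ g : Matrix (Fin 2) (Fin 2) K) := rfl

theorem charEnd_eq (ρ : G →* GL (Fin 2) K) : charEnd ρ = Pool.Agent.PMD.charEnd ρ := by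
  funext g
  unfold charEnd Pool.Agent.PMD.charEnd
  rw [mat_apply, mat_apply, map_inv]

theorem continuous_of_cont [TopologicalSpace K] [TopologicalSpace G] [IsTopologicalGroup G]
    {ρ : G →* GL (Fin 2) K} (h : Cont ρ) : Continuous ρ := by
  refine Units.continuous_iff.2 ⟨h, ?_⟩
  have h1 : (fun g => (((ρ g)⁻¹ : GL (Fin 2) K) : Matrix (Fin 2) (Fin 2) K)) = fun g => mat ρ g⁻¹ := by
    funext g
    rw [mat_apply, map_inv]
  exact h1 ▸ (Continuous.comp (g := mat ρ) h continuous_inv)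

end reps

section families

variable {E : Type*} [NontriviallyNormedField E] {G : Type*} [Group G] {I : Type*} {K : I → Type*}
  [∀ i, NontriviallyNormedField (K i)]

theorem isPoint_iff (V : G →* GL (Fin 2) E) (r : ∀ i, G →* GL (Fin 2) (K i)) :
    IsPoint V r ↔ Pool.Agent.PMD.IsPoint V r := by
  have h : (fun (g : G) (i : I) => charEnd (r i) g) = fun (g : G) (i : I) => Pool.Agent.PMD.charEnd (r i) g := by
    funext g i
    rw [charEnd_eq]
  unfold IsPoint
  rw [h, charEnd_eq]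
  exact Iff.rfl

theorem isLimit_iff (p : ℕ) [Fact p.Prime] [NormedAlgebra ℚ_[p] E] [∀ i, NormedAlgebra ℚ_[p] (K i)]
    (V : G →* GL (Fin 2) E) (r : ∀ i, G →* GL (Fin 2) (K i)) : IsLimit p V r ↔ Pool.Agent.PMD.IsLimit p V r := by
  unfold IsLimit Pool.Agent.PMD.IsLimit
  simp only [charEnd_eq]

theorem mem_commonKernel (r : ∀ i, G →* GL (Fin 2) (K i)) (g : G) : g ∈ commonKernel r ↔ ∀ i, r i g = 1 := by
  refine forall_congr' fun i => ⟨fun h => Units.ext h, fun h => ?_⟩
  rw [mat_apply, h, Units.val_one]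

theorem scalarKernel_iff [TopologicalSpace G] (V : G →* GL (Fin 2) E) (r : ∀ i, G →* GL (Fin 2) (K i)) :
    ScalarKernel V r ↔ ∃ U : Subgroup G, IsOpen (U : Set G) ∧ ∀ g ∈ U, (∀ i, r i g = 1) →
      ∃ c : E, (V g : Mt E) = c • (1 : Mt E) := by
  unfold ScalarKernel
  simp only [mem_commonKernel, mat_apply]

theorem indep_iff [TopologicalSpace G] (V : G →* GL (Fin 2) E) (r : ∀ i, G →* GL (Fin 2) (K i)) :
    Indep V r ↔ Pool.Agent.PMD.Indep V r := by
  unfold Indep Large Pool.Agent.PMD.Indep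
  refine forall₂_congr fun U _ => exists_congr fun W => and_congr_right fun _ => forall_congr' fun g => ?_
  refine imp_congr Iff.rfl (imp_congr Iff.rfl ?_)
  refine exists_congr fun g' => and_congr_right fun _ => ?_
  rw [mem_commonKernel]
  constructor
  · rintro ⟨h1, h2⟩
    exact ⟨Units.ext h2, h1⟩
  · rintro ⟨h1, h2⟩
    refine ⟨h2, ?_⟩
    rw [mat_apply, mat_apply, h1]

end families

theorem final (p : ℕ) [hp : Fact p.Prime] (hp2 : p ≠ 2)
    {E : Type*} [NontriviallyNormedField E] [IsUltrametricDist E] [NormedAlgebra ℚ_[p] E]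
    [FiniteDimensional ℚ_[p] E]
    {G : Type*} [Group G] [TopologicalSpace G] [IsTopologicalGroup G] [CompactSpace G]
    [TotallyDisconnectedSpace G]
    (V : G →* GL (Fin 2) E) (hV : Cont V) (hirr : StronglyIrreducible V)
    {I : Type*} {K : I → Type*} [∀ i, NontriviallyNormedField (K i)] [∀ i, IsUltrametricDist (K i)]
    [∀ i, NormedAlgebra ℚ_[p] (K i)] [∀ i, FiniteDimensional ℚ_[p] (K i)]
    (r : ∀ i, G →* GL (Fin 2) (K i)) (hr : ∀ i, Cont (r i)) :
    [IsPoint V r, IsLimit p V r, ScalarKernel V r, ¬ Indep V r].TFAE ∧ (TraceSeparated V r → Indep V r) := by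
  obtain ⟨h1, h2, h3, h4⟩ := main p hp2 V (continuous_of_cont hV) hirr r (fun i => continuous_of_cont (hr i))
  rw [← isPoint_iff, ← scalarKernel_iff] at h1
  rw [← isPoint_iff, ← isLimit_iff] at h2
  rw [← isPoint_iff, ← indep_iff] at h3
  refine ⟨?_, ?_⟩
  · tfae_have 1 ↔ 3 := h1
    tfae_have 1 ↔ 2 := h2
    tfae_have 1 ↔ 4 := h3
    tfae_finish
  · rintro ⟨c, hc, hcV⟩
    exact (indep_iff V r).2 (h4 c hc hcV)

end Pool.Agent.PMD.Stmt
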