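import Pool.Agent.PMD.StrN
import Pool.Agent.Helper37.Dc.Full
import Pool.Agent.Helper37.Fd.MainD

/-!
# Project PMD (MP_b583a4_nt), module FullN: closed nonscalar normal subgroups have full image

Model: Helper37/Dc/Full.lean (`full_of_nonscalar`), where instead of the common kernel of the `T j` we now have a closed normal subgroup `N`.
PLAN. Take an open normal subgroup `H ≤ U` such that the entries of `V x - 1`, `x ∈ H`, have norm `≤ (p⁻¹)^2` (`exists_small4` in Helper37/Fd/Small4.lean with `ι = J = Empty`, or `exists_small...` in Helper27/FM). `R g = (V g : M2 E)`,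
`I = ASp ℚ_[p] p R (N ⊓ H)` (`ℚ_p`-span of the logarithms of the `V x`, `x ∈ N ⊓ H`), `N ⊓ H` is normal in `G`: `I` is stable under conjugation (`ASp_adj`) and brackets (`ASp_bracket`; logarithms exist: `exists_log_mat`). `I` contains a nonscalar
element: by `exists_ns` there is `x ∈ N ⊓ H` with `V x` nonscalar; if its logarithm `X` were scalar then `V x` would be scalar (`log_inj_mat` applied to `V x` and `y V x y⁻¹`, `y = !![1,1;0,1]`, `!![1,0;1,1]`, or see `scalar_of_kernel`).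
For `h ∈ H` with logarithm `X` and `b ∈ I`: `X b - b X = lim (p^m)⁻¹ (V(h)^(p^m) b V(h)^(-p^m) - b) ∈ I` (`I` is closed: finite dimensional; see `ASp_bracket` in Helper27/FM/Abs.lean). So if `det V(h) = 1` (`trace_log`: `tr X = 0`) then `X ∈ I` (`traceless_mem`,
`adSimple_of_strIrr`). `exists_log_small` for the compact group `N ⊓ H` (as a group, with its open subgroup `⊤`; `N ⊓ H` is closed in `G`): small elements of `I` are logarithms of elements of `N ⊓ H`. End as in `full_of_nonscalar`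
(`exists_nhds_image`, `log_small`, `log_inj_mat`).
-/

set_option autoImplicit false
open Filter Topology

namespace Pool.Agent.PMD

open Pool.Agent.Helper27.FM Pool.Agent.Helper37.Dc

private theorem nhds_entriesN {E : Type*} [NontriviallyNormedField E] {r : ℝ} (hr : 0 < r) :
    {a : M2 E | ∀ i j, ‖(a - 1) i j‖ ≤ r} ∈ 𝓝 (1 : M2 E) := by
  have h : ∀ i j : Fin 2, ∀ᶠ a in 𝓝 (1 : M2 E), ‖(a - 1) i j‖ ≤ r := by
    intro i j
    have hc : Continuous (fun a : M2 E => ‖(a - 1) i j‖) := by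
      have h1 : Continuous (fun a : M2 E => (a - 1) i j) :=
        (continuous_id.sub continuous_const).matrix_elem i j
      exact h1.norm
    have h0 : ‖((1 : M2 E) - 1) i j‖ < r := by
      rw [sub_self, Matrix.zero_apply, norm_zero]
      exact hr
    exact (hc.tendsto 1).eventually_le_const h0
  have h2 : ∀ᶠ a in 𝓝 (1 : M2 E), ∀ i j, ‖(a - 1) i j‖ ≤ r :=
    eventually_all.2 fun i => eventually_all.2 fun j => h i j
  exact h2

section aux

variable (p : ℕ) [hp : Fact p.Prime] {E : Type*} [NontriviallyNormedField E]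
    [IsUltrametricDist E] [NormedAlgebra ℚ_[p] E] [FiniteDimensional ℚ_[p] E] {G : Type*} [Group G]

private theorem exists_alog {V : G →* GL (Fin 2) E} {x : G}
    (h1 : ∀ i j, ‖((V x : M2 E) - 1) i j‖ ≤ (p : ℝ)⁻¹ ^ 2) :
    ∃ z, ALog ℚ_[p] p ((Units.coeHom (M2 E)).comp V) x z := by
  haveI : CompleteSpace E := FiniteDimensional.complete ℚ_[p] E
  obtain ⟨X, hX⟩ := exists_log_mat p (V x : M2 E) h1
  refine ⟨X, ?_⟩
  unfold ALog
  refine hX.congr fun m => ?_
  rw [smul_p_eq]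
  rfl

/-- `I` is stable under brackets with the logarithms of all small elements -/
private theorem bracket_memN {V : G →* GL (Fin 2) E} {K : Subgroup G} (hK : K.Normal) {x : G}
    (hx : ∀ i j, ‖((V x⁻¹ : M2 E) - 1) i j‖ ≤ (p : ℝ)⁻¹ ^ 2) {z b : M2 E}
    (hz : ALog ℚ_[p] p ((Units.coeHom (M2 E)).comp V) x z)
    (hb : b ∈ ASp ℚ_[p] p ((Units.coeHom (M2 E)).comp V) K) :
    z * b - b * z ∈ ASp ℚ_[p] p ((Units.coeHom (M2 E)).comp V) K := by
  have hclosed : IsClosed (ASp ℚ_[p] p ((Units.coeHom (M2 E)).comp V) K : Set (M2 E)) :=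
    Submodule.closed_of_finiteDimensional _
  obtain ⟨z', hz'⟩ := exists_alog p hx
  generalize (Units.coeHom (M2 E)).comp V = R at *
  refine hclosed.mem_of_tendsto
    (f := fun n : ℕ => ((p : ℚ_[p]) ^ n)⁻¹ • (R (x ^ (p ^ n)) * b * R (x ^ (p ^ n))⁻¹ - b))
    (b := atTop) ?_ (Eventually.of_forall fun n => ?_)
  · have h1 : Tendsto (fun n : ℕ => ((p : ℚ_[p]) ^ n)⁻¹ • (R x ^ (p ^ n) - 1)) atTop (𝓝 z) := hz
    have h2 : Tendsto (fun n : ℕ => R x⁻¹ ^ (p ^ n)) atTop (𝓝 1) :=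
      atendsto_one (E := ℚ_[p]) p hz'
    have h3 := ((h1.mul_const b).sub (h1.const_mul b)).mul h2
    rw [mul_one] at h3
    refine h3.congr fun n => ?_
    have e0 : (R x ^ (p ^ n)) * (R x⁻¹ ^ (p ^ n)) = 1 := by
      rw [← map_pow, ← map_pow, ← map_mul, inv_pow, mul_inv_cancel, map_one]
    have e1 : R (x ^ (p ^ n)) * b * R (x ^ (p ^ n))⁻¹ = (R x ^ (p ^ n)) * b * (R x⁻¹ ^ (p ^ n)) := by
      rw [map_pow, ← inv_pow, map_pow]
    rw [e1]
    set S := R x ^ (p ^ n)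
    set T := R x⁻¹ ^ (p ^ n)
    rw [smul_mul_assoc, mul_smul_comm, ← smul_sub, smul_mul_assoc]
    congr 1
    calc ((S - 1) * b - b * (S - 1)) * T = S * b * T - b * (S * T) := by noncomm_ring
      _ = _ := by rw [e0, mul_one]
  · exact Submodule.smul_mem _ _ (Submodule.sub_mem _ (ASp_adj hK _ hb) hb)

/-- if the logarithm of a small `V x` is scalar and `V x` is in a normal small subgroup, then
`V x` is scalar -/
private theorem scalar_of_logN [TopologicalSpace G] {V : G →* GL (Fin 2) E}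
    (hirr : StronglyIrreducible V)
    {H : Subgroup G} (hH : H.Normal) (hs : ∀ x ∈ H, ∀ i j, ‖((V x : M2 E) - 1) i j‖ ≤ (p : ℝ)⁻¹ ^ 2)
    {x : G} (hx : x ∈ H) {z : M2 E} (hz : ALog ℚ_[p] p ((Units.coeHom (M2 E)).comp V) x z)
    {c : E} (hc : z = c • (1 : M2 E)) : ∃ d : E, (V x : M2 E) = d • (1 : M2 E) := by
  have e : ∀ m : ℕ, ∀ a : M2 E, ((p : ℚ_[p]) ^ m)⁻¹ • a = ((p : E) ^ m)⁻¹ • a :=
    fun m a => (smul_p_eq p m a).symm
  have hz0 : Tendsto (fun m : ℕ => ((p : ℚ_[p]) ^ m)⁻¹ • ((V x : M2 E) ^ (p ^ m) - 1)) atTop (𝓝 z) := hz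
  simp only [e] at hz0
  have h1 : ∀ g : G, (V g : M2 E) * (V x : M2 E) = (V x : M2 E) * (V g : M2 E) := by
    intro g
    have h2 := ALog_conj hz g
    have h3 : ((Units.coeHom (M2 E)).comp V) g * z * ((Units.coeHom (M2 E)).comp V) g⁻¹ = z := by
      rw [hc, mul_smul_comm, smul_mul_assoc, mul_one, R_mul_inv]
    rw [h3] at h2
    have h4 : Tendsto (fun m : ℕ => ((p : ℚ_[p]) ^ m)⁻¹ • ((V (g * x * g⁻¹) : M2 E) ^ (p ^ m) - 1))
        atTop (𝓝 z) := h2
    simp only [e] at h4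
    have h5 := log_inj_mat p (hs _ (hH.conj_mem x hx g)) (hs _ hx) h4 hz0
    rw [map_conj_eq] at h5
    exact (cj_eq_iff _ _ _).mp h5
  have h2 : ∀ m : M2 E, (V x : M2 E) * m = m * (V x : M2 E) := by
    intro m
    have hm : m ∈ Submodule.span E ((fun g => (V g : M2 E)) '' ((⊤ : Subgroup G) : Set G)) := by
      have h3 := hirr ⊤ isOpen_univ
      rw [h3]
      trivial
    induction hm using Submodule.span_induction with
    | mem y hy =>
      obtain ⟨g, -, rfl⟩ := hy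
      exact (h1 g).symm
    | zero => simp
    | add a b _ _ ha hb => rw [mul_add, add_mul, ha, hb]
    | smul c a _ ha => rw [mul_smul_comm, smul_mul_assoc, ha]
  exact ⟨_, scalar_of_commutes h2⟩

/-- small elements of the Lie algebra of a closed subgroup are logarithms -/
private theorem small_logN [TopologicalSpace G] [IsTopologicalGroup G] [CompactSpace G]
    {V : G →* GL (Fin 2) E} (hV : Continuous V) {K : Subgroup G} (hKc : IsClosed (K : Set G))
    (hs : ∀ x ∈ K, ∀ i j, ‖((V x : M2 E) - 1) i j‖ ≤ (p : ℝ)⁻¹ ^ 2) :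
    ∃ δ : ℝ, 0 < δ ∧ ∀ X : M2 E, X ∈ ASp ℚ_[p] p ((Units.coeHom (M2 E)).comp V) K →
      (∀ i j, ‖X i j‖ ≤ δ) → ∃ x ∈ K, ALog ℚ_[p] p ((Units.coeHom (M2 E)).comp V) x X := by
  classical
  have hp0 : 0 < (p : ℝ)⁻¹ := by
    have := hp.out.pos
    positivity
  letI i1 : NormedRing (M2 E) := matNormedRing (E := E)
  letI i3 : NormedAlgebra ℚ_[p] (M2 E) := matNormedAlgebra (E := E) p
  haveI i5 : IsUltrametricDist (M2 E) := matUltra (E := E)
  haveI i7 : FiniteDimensional ℚ_[p] (M2 E) := inferInstance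
  haveI : CompactSpace K := isCompact_iff_compactSpace.1 hKc.isCompact
  have hc : Continuous (((Units.coeHom (M2 E)).comp V).comp K.subtype) :=
    (Units.continuous_val.comp hV).comp continuous_subtype_val
  have hone : ‖(1 : M2 E)‖ ≤ 1 := by
    refine (mat_norm_le_iff _ zero_le_one).2 fun i j => ?_
    by_cases h : i = j
    · subst h
      simp
    · simp [Matrix.one_apply_ne h]
  have hsm : ∀ x ∈ (⊤ : Subgroup K), ‖(((Units.coeHom (M2 E)).comp V).comp K.subtype) x - 1‖ ≤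
      (p : ℝ)⁻¹ ^ 2 := by
    intro x _
    refine (mat_norm_le_iff _ (by positivity)).2 ?_
    intro i j
    exact hs x x.2 i j
  have hop : IsOpen ((⊤ : Subgroup K) : Set K) := isOpen_univ
  obtain ⟨δ, hδ, h⟩ := exists_log_small p
    (R := ((Units.coeHom (M2 E)).comp V).comp K.subtype) (U := (⊤ : Subgroup K)) hc hop hone hsm
  refine ⟨δ, hδ, fun X hX hle => ?_⟩
  have hX2 : X ∈ ASp ℚ_[p] p (((Units.coeHom (M2 E)).comp V).comp K.subtype) (⊤ : Subgroup K) := by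
    unfold ASp at hX ⊢
    refine Submodule.span_mono ?_ hX
    rintro z ⟨x, hx, hz⟩
    exact ⟨⟨x, hx⟩, trivial, hz⟩
  obtain ⟨x, -, hx⟩ := h X hX2 ((mat_norm_le_iff _ hδ.le).2 hle)
  exact ⟨x, x.2, hx⟩

end aux

theorem full_normal (p : ℕ) [hp : Fact p.Prime] {E : Type*} [NontriviallyNormedField E]
    [IsUltrametricDist E] [NormedAlgebra ℚ_[p] E] [FiniteDimensional ℚ_[p] E] {G : Type*} [Group G]
    [TopologicalSpace G] [IsTopologicalGroup G] [CompactSpace G] [TotallyDisconnectedSpace G]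
    {V : G →* GL (Fin 2) E} (hV : Continuous V) (hirr : StronglyIrreducible V)
    {N : Subgroup G} (hN : N.Normal) (hNc : IsClosed (N : Set G))
    (hns : ∃ x ∈ N, ∀ c : E, (V x : M2 E) ≠ c • (1 : M2 E))
    {U : Subgroup G} (hU : IsOpen (U : Set G)) :
    ∃ W ∈ 𝓝 (1 : M2 E), ∀ g, (V g : M2 E) ∈ W → (V g : M2 E).det = 1 → ∃ g' ∈ N ⊓ U, V g' = V g := by
  classical
  haveI : CompleteSpace E := FiniteDimensional.complete ℚ_[p] E
  haveI : CharZero E := charZeroE p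
  have hp0 : 0 < (p : ℝ)⁻¹ := by
    have := hp.out.pos
    positivity
  obtain ⟨H, hHn, hHo, hsm, hHU⟩ := exists_small p (κ := Unit) (R := fun _ => V) (fun _ => hV)
    (N := (U : Set G)) hU U.one_mem
  have hs : ∀ x ∈ H, ∀ i j, ‖((V x : M2 E) - 1) i j‖ ≤ (p : ℝ)⁻¹ ^ 2 := fun x hx => hsm x hx ()
  have hKn : (N ⊓ H).Normal := by
    refine ⟨fun x hx g => ⟨hN.conj_mem x hx.1 g, hHn.conj_mem x hx.2 g⟩⟩
  have hKc : IsClosed ((N ⊓ H : Subgroup G) : Set G) := by
    rw [Subgroup.coe_inf]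
    exact hNc.inter (H.isClosed_of_isOpen hHo)
  have hlogK : ∀ x ∈ N ⊓ H, ∃ z, ALog ℚ_[p] p ((Units.coeHom (M2 E)).comp V) x z := fun x hx =>
    exists_alog p (hs x hx.2)
  obtain ⟨δ, hδ, hδ2⟩ := small_logN p hV hKc (fun x hx => hs x hx.2)
  have hcV : Continuous ((Units.coeHom (M2 E)).comp V) := Units.continuous_val.comp hV
  obtain ⟨W, hW, hW2⟩ := exists_nhds_image ((Units.coeHom (M2 E)).comp V) hcV hHo
  have hr : 0 < min δ ((p : ℝ)⁻¹ ^ 2) := lt_min hδ (by positivity)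
  -- a nonscalar element of the Lie algebra
  have hnsI : ∃ b ∈ ASp ℚ_[p] p ((Units.coeHom (M2 E)).comp V) (N ⊓ H),
      ∀ c : E, b ≠ c • (1 : M2 E) := by
    obtain ⟨x, hx, hxn⟩ := exists_ns p hV hirr hN hns hHo
    obtain ⟨z, hz⟩ := hlogK x hx
    refine ⟨z, Submodule.subset_span ⟨x, hx, hz⟩, fun c hc => ?_⟩
    obtain ⟨d, hd⟩ := scalar_of_logN p hirr hHn hs hx.2 hz hc
    exact hxn d hd
  refine ⟨W ∩ {a : M2 E | ∀ i j, ‖(a - 1) i j‖ ≤ min δ ((p : ℝ)⁻¹ ^ 2)},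
    inter_mem hW (nhds_entriesN hr), fun g hg hdet => ?_⟩
  obtain ⟨hg1, hg2⟩ := hg
  obtain ⟨h, hh, hhg⟩ := hW2 g hg1
  have hVh : (V h : M2 E) = (V g : M2 E) := hhg
  obtain ⟨X, hX⟩ := exists_alog p (hs h hh)
  have hX0 : Tendsto (fun m : ℕ => ((p : ℚ_[p]) ^ m)⁻¹ • ((V h : M2 E) ^ (p ^ m) - 1)) atTop (𝓝 X) :=
    hX
  have htr : X.trace = 0 := trace_log p (by rw [hVh]; exact hdet) hX0
  have hsmall : ∀ i j, ‖X i j‖ ≤ min δ ((p : ℝ)⁻¹ ^ 2) := by
    refine log_small p (min_le_right _ _) ?_ hX0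
    rw [hVh]
    exact hg2
  have hXI : X ∈ ASp ℚ_[p] p ((Units.coeHom (M2 E)).comp V) (N ⊓ H) := by
    refine traceless_mem (adSimple_of_strIrr hV ((strIrr_iff _).mp hirr)) _ ?_ ?_ hnsI htr ?_
    · intro g b hb
      have h1 := ASp_adj hKn g hb
      have e : ((Units.coeHom (M2 E)).comp V) g * b * ((Units.coeHom (M2 E)).comp V) g⁻¹ =
          cj (V g) b := by
        change (V g : M2 E) * b * (V g⁻¹ : M2 E) = _
        rw [cj, map_inv]
      rw [e] at h1
      exact h1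
    · intro a ha b hb
      exact ASp_bracket (E := ℚ_[p]) p hKn hlogK ha hb
    · intro b hb
      exact bracket_memN p hKn (hs _ (H.inv_mem hh)) hX hb
  obtain ⟨x, hx, hxl⟩ := hδ2 X hXI fun i j => (hsmall i j).trans (min_le_left _ _)
  have hxl0 : Tendsto (fun m : ℕ => ((p : ℚ_[p]) ^ m)⁻¹ • ((V x : M2 E) ^ (p ^ m) - 1)) atTop
    (𝓝 X) := hxl
  refine ⟨x, ⟨hx.1, hHU hx.2⟩, ?_⟩
  have e : ∀ m : ℕ, ∀ a : M2 E, ((p : ℚ_[p]) ^ m)⁻¹ • a = ((p : E) ^ m)⁻¹ • a :=
    fun m a => (smul_p_eq p m a).symm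
  simp only [e] at hxl0 hX0
  have h3 : (V x : M2 E) = (V h : M2 E) := log_inj_mat p (hs x hx.2) (hs h hh) hxl0 hX0
  exact Units.ext (h3.trans hVh)

end Pool.Agent.PMD
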