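import Pool.Agent.PMD.HGrp

/-!
# Project PMD (MP_b583a4_nt), module Gam: `R(Γ n) ⊂ H n`

PLAN. `Γ_closed`: `d.cD` and `Subgroup.isClosed_topologicalClosure`. `Γ_le`: `Γ (n+1) ≤ Γ n` by induction (`⁅D, D⁆ ≤ D`: `Subgroup.commutator_le`; `Subgroup.commutator_mono`;
`Subgroup.topologicalClosure_minimal`, `Subgroup.topologicalClosure_mono`), so all `Γ n ≤ D`. `R_mem`: `n = 0`: `R_mem_H`. Step: the elements `g ∈ D` with `R g ∈ H (n+1)` are a closed
subgroup (`H_mul`, `H_adj` with `adj_eq`, `one_mem_H`, `H_closed`), which contains the commutators `⁅g, h⁆ = g h g⁻¹ h⁻¹` (`commutatorElement_def`), `g ∈ D`, `h ∈ Γ n` (`H_comm`, `adj_eq`).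
-/

set_option autoImplicit false
open Filter Topology

namespace Pool.Agent.PMD.Dat

variable {p : ℕ} {B : Type*} [CommRing B] [TopologicalSpace B] [IsTopologicalRing B] [T2Space B]
  {G : Type*} [Group G] [TopologicalSpace G] [IsTopologicalGroup G] (d : Dat p B G)

omit [IsTopologicalRing B] [T2Space B] in
theorem Γ_closed (n : ℕ) : IsClosed (d.Γ n : Set G) := by
  cases n with
  | zero => exact d.cD
  | succ n => exact Subgroup.isClosed_topologicalClosure _

omit [IsTopologicalRing B] [T2Space B] [IsTopologicalGroup G] in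
private theorem comm_le_D : ⁅d.D, d.D⁆ ≤ d.D := by
  refine Subgroup.commutator_le.2 fun g hg h hh => ?_
  rw [commutatorElement_def]
  exact d.D.mul_mem (d.D.mul_mem (d.D.mul_mem hg hh) (d.D.inv_mem hg)) (d.D.inv_mem hh)

omit [IsTopologicalRing B] [T2Space B] in
theorem Γ_le (n : ℕ) : d.Γ (n + 1) ≤ d.Γ n := by
  induction n with
  | zero => exact Subgroup.topologicalClosure_minimal _ (comm_le_D d) d.cD
  | succ n ih =>
    exact Subgroup.topologicalClosure_mono (Subgroup.commutator_mono le_rfl ih)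

omit [IsTopologicalRing B] [T2Space B] in
theorem Γ_le_D (n : ℕ) : d.Γ n ≤ d.D := by
  induction n with
  | zero => exact le_rfl
  | succ n ih => exact (d.Γ_le n).trans ih

theorem R_mem [CompactSpace G] (hodd : Odd p) (n : ℕ) {g : G} (hg : g ∈ d.Γ n) : d.R g ∈ d.H n := by
  induction n generalizing g with
  | zero => exact d.R_mem_H hodd hg
  | succ n ih =>
    let S : Subgroup G :=
      { carrier := {x | x ∈ d.D ∧ d.R x ∈ d.H (n + 1)}
        mul_mem' := by
          rintro a b ⟨ha, ha'⟩ ⟨hb, hb'⟩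
          refine ⟨d.D.mul_mem ha hb, ?_⟩
          rw [map_mul]
          exact d.H_mul hodd ha' hb'
        one_mem' := by
          refine ⟨d.D.one_mem, ?_⟩
          rw [map_one]
          exact d.one_mem_H (n + 1)
        inv_mem' := by
          rintro a ⟨ha, ha'⟩
          refine ⟨d.D.inv_mem ha, ?_⟩
          rw [← d.adj_eq ha]
          exact d.H_adj ha' }
    have hS : IsClosed (S : Set G) := d.cD.inter ((d.H_closed (n + 1)).preimage d.cR)
    have h1 : ⁅d.D, d.Γ n⁆ ≤ S := by
      refine Subgroup.commutator_le.2 fun a ha b hb => ?_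
      have hb' := d.Γ_le_D n hb
      refine ⟨comm_le_D d (Subgroup.commutator_mem_commutator ha hb'), ?_⟩
      rw [commutatorElement_def, map_mul, map_mul, map_mul, ← d.adj_eq ha, ← d.adj_eq hb']
      exact (d.H_comm hodd (d.R_mem_H hodd ha) (ih hb)).1
    have h2 : d.Γ (n + 1) ≤ S := Subgroup.topologicalClosure_minimal _ h1 hS
    exact (h2 hg).2

end Pool.Agent.PMD.Dat
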