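import Pool.Agent.PMD.Zero

/-!
# Project PMD (MP_b583a4_nt), module Graph: `C` is the graph of a function of the first component

If `c ∈ C`, `c.1 = 0` and `c.2 ≠ 0`, then `c • br (th (R x)) (th (R y))` is lifted by `exists_lift`, against `hker`.
-/

set_option autoImplicit false
open Filter Topology

namespace Pool.Agent.PMD.Dat

private theorem gph_br_th {B : Type*} [CommRing B] (x y : Mt B) :
    br (th x) (th y) = (4 : B) • br x y := by
  obtain ⟨a, b, c, d, rfl⟩ := ex4 x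
  obtain ⟨a', b', c', d', rfl⟩ := ex4 y
  apply ext4 <;> simp [th, br, Matrix.adjugate_fin_two_of] <;> ring

variable {p : ℕ} {A : Type*} [CommRing A] [TopologicalSpace A] [IsTopologicalRing A] [T2Space A]
  {E : Type*} [NontriviallyNormedField E]
  {G : Type*} [Group G] [TopologicalSpace G] [IsTopologicalGroup G] [CompactSpace G] (d : Dat p (A × E) G)

theorem graph (hodd : Odd p) (hF : ∀ b ∈ d.F.M 1, ‖b.2‖ < 1)
    (hker : ∀ g ∈ d.D, (∀ i j, (d.R g i j).1 = (1 : Mt A) i j) →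
      ∃ c : E, ∀ i j, (d.R g i j).2 = (c • (1 : Mt E)) i j)
    (hnc : ∃ x ∈ d.D, ∃ y ∈ d.D, ∃ i j, (br (d.R x) (d.R y) i j).2 ≠ 0)
    {c : A × E} (hc : c ∈ d.C) (h0 : c.1 = 0) : c.2 = 0 := by
  by_contra hcn
  obtain ⟨x, hx, y, hy, i, j, hij⟩ := hnc
  have h2 : (2 : E) ≠ 0 := by
    intro h
    have h1 := congrArg Prod.snd d.F.half_two
    rw [Prod.snd_mul, Prod.snd_one] at h1
    have h3 : ((2 : A × E)).2 = (2 : E) := rfl
    rw [h3, h, mul_zero] at h1
    exact zero_ne_one h1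
  have h4 : (4 : E) ≠ 0 := by
    have : (4 : E) = 2 * 2 := by norm_num
    rw [this]
    exact mul_ne_zero h2 h2
  set w : Mt (A × E) := br (th (d.R x)) (th (d.R y)) with hw
  have hwL : w ∈ d.L 1 := d.br_mem 0 (d.th_mem hx) (d.th_mem hy)
  have hz : c • w ∈ d.L 1 := d.C_smul 1 hc hwL
  have e1 : ∀ i j, ((c • w) i j).1 = 0 := by
    intro i j
    rw [Matrix.smul_apply, smul_eq_mul, Prod.fst_mul, h0, zero_mul]
  have e2 : ((c • w) i j).2 ≠ 0 := by
    have h3 : ((4 : A × E)).2 = (4 : E) := rfl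
    rw [Matrix.smul_apply, smul_eq_mul, Prod.snd_mul, hw, gph_br_th, Matrix.smul_apply, smul_eq_mul,
      Prod.snd_mul, h3]
    exact mul_ne_zero hcn (mul_ne_zero h4 hij)
  obtain ⟨g, hg, hg1, hg2⟩ := d.exists_lift hodd hF hz e1 ⟨i, j, e2⟩
  obtain ⟨c', hc'⟩ := hker g hg hg1
  obtain ⟨i', j', h⟩ := hg2 c'
  exact h (hc' i' j')

end Pool.Agent.PMD.Dat
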