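import Pool.Agent.PMD.LieA

/-!
# Project PMD (MP_b583a4_nt), module Sq: elements of `R(D)` are squares, and `tr (R x) - 2 ∈ C`

PLAN. `pow_tendsto`: by induction the entries of `(R x)^(p^n) - 1` are in `F.M (n+1)`: if `y = 1 + m` with entries of `m` in `M k`, `k ≥ 1`, then
`y^p - 1 = p m + (terms with at least two factors m)`: the entries of `(p : B) • m` are in `M (1 + k)`, those of products of at least two `m` in `M (2k) ⊂ M (k+1)`
(e.g. prove by induction on `q` that `(1 + m)^q - 1 - q • m` has entries in `M (k+1)`: it is `((1+m)^(q-1) - 1 - (q-1) • m) (1 + m) + (q-1) • m * m`; the entries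
of `w * m`, `w` with entries in `M (k+1)`, are in `M (k + 1 + k)`). Then `F.small`.
`exists_sq`: `z n = x ^ ((p ^ n + 1) / 2) ∈ D`; `R (z n) * R (z n) = R x ^ (p ^ n + 1) = R x ^ (p ^ n) * R x → R x` (`2 * ((p ^ n + 1) / 2) = p ^ n + 1`, `p` odd).
`D` is compact, so `z` has a cluster point `y ∈ D` (`IsCompact.exists_mapClusterPt`), and `R y * R y` is a cluster point of a convergent sequence, so it is the limit.
`tr_sub_two_mem`: `tr (R x) = tr (R y * R y) = tr (R y)^2 - 2` (`trace_sq`), `2 (tr (R y)^2 - 4) = tr (th (R y) * th (R y)) ∈ C` (`trace_th_sq`), and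
halving (`F.half_mem`, `C_closed`).
-/

set_option autoImplicit false
open Filter Topology

namespace Pool.Agent.PMD.Dat

variable {p : ℕ} {B : Type*} [CommRing B] [TopologicalSpace B] [IsTopologicalRing B] [T2Space B]
  {G : Type*} [Group G] [TopologicalSpace G] (d : Dat p B G)

/-- the matrices with entries in `F.M k` -/
private def MM (F : Filt p B) (k : ℕ) : AddSubgroup (Mt B) where
  carrier := {m | ∀ i j, m i j ∈ F.M k}
  zero_mem' := fun _ _ => (F.M k).zero_mem
  add_mem' := fun {a b} ha hb i j => by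
    show (a + b) i j ∈ F.M k
    rw [Matrix.add_apply]
    exact (F.M k).add_mem (ha i j) (hb i j)
  neg_mem' := fun {a} ha i j => by
    show (-a) i j ∈ F.M k
    rw [Matrix.neg_apply]
    exact (F.M k).neg_mem (ha i j)

omit [IsTopologicalRing B] [T2Space B] in
private theorem MM_mul (F : Filt p B) {j k : ℕ} {a b : Mt B} (ha : a ∈ MM F j) (hb : b ∈ MM F k) :
    a * b ∈ MM F (j + k) := by
  intro i l
  rw [Matrix.mul_apply, Fin.sum_univ_two]
  exact (F.M (j + k)).add_mem (F.mul _ _ _ _ (ha i 0) (hb 0 l)) (F.mul _ _ _ _ (ha i 1) (hb 1 l))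

omit [IsTopologicalRing B] [T2Space B] in
private theorem MM_anti (F : Filt p B) {j k : ℕ} (h : j ≤ k) {a : Mt B} (ha : a ∈ MM F k) : a ∈ MM F j :=
  fun i l => F.anti _ _ h (ha i l)

omit [IsTopologicalRing B] [T2Space B] in
private theorem MM_pow (F : Filt p B) {k : ℕ} (hk : 1 ≤ k) {m : Mt B} (hm : m ∈ MM F k) (q : ℕ) :
    (1 + m) ^ q - 1 - q • m ∈ MM F (k + 1) := by
  induction q with
  | zero =>
    rw [pow_zero, zero_smul, sub_self, sub_zero]
    exact (MM F (k + 1)).zero_mem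
  | succ q ih =>
    have e : (1 + m) ^ (q + 1) - 1 - (q + 1) • m =
        ((1 + m) ^ q - 1 - q • m) + ((1 + m) ^ q - 1 - q • m) * m + q • (m * m) := by
      rw [pow_succ, add_smul, one_smul]
      simp only [mul_add, sub_mul, one_mul, mul_one, smul_mul_assoc]
      abel
    rw [e]
    have h1 : ((1 + m) ^ q - 1 - q • m) * m ∈ MM F (k + 1) := MM_anti F (by omega) (MM_mul F ih hm)
    have h2 : m * m ∈ MM F (k + 1) := MM_anti F (by omega) (MM_mul F hm hm)
    exact (MM F (k + 1)).add_mem ((MM F (k + 1)).add_mem ih h1) ((MM F (k + 1)).nsmul_mem h2 q)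

omit [IsTopologicalRing B] [T2Space B] in
private theorem MM_pow_p (F : Filt p B) {k : ℕ} (hk : 1 ≤ k) {m : Mt B} (hm : m ∈ MM F k) :
    (1 + m) ^ p - 1 ∈ MM F (k + 1) := by
  have h1 := MM_pow F hk hm p
  have h2 : p • m ∈ MM F (k + 1) := by
    intro i j
    have e : (p • m) i j = m i j * (p : B) := by
      rw [Matrix.smul_apply, nsmul_eq_mul, mul_comm]
    rw [e]
    exact F.mul _ _ _ _ (hm i j) F.p_mem
  have h3 := (MM F (k + 1)).add_mem h1 h2
  rwa [sub_add_cancel] at h3

omit [IsTopologicalRing B] [T2Space B] in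
private theorem pow_mem {x : G} (hx : x ∈ d.D) (n : ℕ) : d.R x ^ p ^ n - 1 ∈ MM d.F (n + 1) := by
  induction n with
  | zero =>
    rw [pow_zero, pow_one]
    exact d.sm x hx
  | succ n ih =>
    have h := MM_pow_p d.F (by omega) ih
    have e : (1 : Mt B) + (d.R x ^ p ^ n - 1) = d.R x ^ p ^ n := by abel
    rw [e, ← pow_mul, ← pow_succ] at h
    exact h

theorem pow_tendsto {x : G} (hx : x ∈ d.D) : Tendsto (fun n : ℕ => d.R x ^ p ^ n) atTop (𝓝 1) := by
  have h0 : Tendsto (fun n : ℕ => d.R x ^ p ^ n - 1) atTop (𝓝 (0 : Mt B)) := by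
    refine tendsto_pi_nhds.2 fun i => tendsto_pi_nhds.2 fun j => ?_
    rw [tendsto_def]
    intro s hs
    obtain ⟨n, hn⟩ := d.F.small s hs
    filter_upwards [eventually_ge_atTop n] with m hm
    exact hn (d.F.anti n (m + 1) (by omega) (pow_mem d hx m i j))
  have h1 := h0.add_const (1 : Mt B)
  simpa using h1

theorem exists_sq [IsTopologicalGroup G] [CompactSpace G] (hodd : Odd p) {x : G} (hx : x ∈ d.D) :
    ∃ y ∈ d.D, d.R y * d.R y = d.R x := by
  have hz : ∀ n : ℕ, x ^ ((p ^ n + 1) / 2) ∈ (d.D : Set G) := fun n => d.D.pow_mem hx _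
  obtain ⟨y, hy, hcl⟩ := d.cD.isCompact.exists_mapClusterPt (f := atTop)
    (u := fun n : ℕ => x ^ ((p ^ n + 1) / 2)) (tendsto_principal.2 (Eventually.of_forall hz))
  refine ⟨y, hy, ?_⟩
  have hφ : Continuous fun g : G => d.R g * d.R g := d.cR.mul d.cR
  have h1 := hcl.continuousAt_comp (f := fun g : G => d.R g * d.R g) hφ.continuousAt
  have h2 : Tendsto ((fun g : G => d.R g * d.R g) ∘ fun n : ℕ => x ^ ((p ^ n + 1) / 2)) atTop
      (𝓝 (d.R x)) := by
    have h3 := (pow_tendsto d hx).mul_const (d.R x)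
    rw [one_mul] at h3
    refine h3.congr fun n => ?_
    have h4 : (p ^ n + 1) / 2 + (p ^ n + 1) / 2 = p ^ n + 1 := by
      rw [← two_mul]
      exact Nat.two_mul_div_two_of_even ((hodd.pow).add_one)
    show d.R x ^ p ^ n * d.R x = d.R (x ^ ((p ^ n + 1) / 2)) * d.R (x ^ ((p ^ n + 1) / 2))
    rw [← map_mul, ← pow_add, h4, map_pow, pow_succ]
  exact eq_of_nhds_neBot (NeBot.mono h1 (inf_le_inf_left _ h2))

theorem tr_sub_two_mem [IsTopologicalGroup G] [CompactSpace G] (hodd : Odd p) {x : G} (hx : x ∈ d.D) :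
    (d.R x).trace - 2 ∈ d.C := by
  obtain ⟨y, hy, hyx⟩ := exists_sq d hodd hx
  have hdet := d.det y hy
  have h1 : (th (d.R y) * th (d.R y)).trace ∈ d.C := d.tr_mem (d.th_mem hy) (d.th_mem hy)
  rw [trace_th_sq _ hdet] at h1
  have h2 := d.F.half_mem hodd d.C_closed h1
  have h3 : (d.R x).trace - 2 = d.F.half • (2 * ((d.R y).trace ^ 2 - 4)) := by
    rw [← hyx, trace_sq _ hdet, smul_eq_mul, ← mul_assoc, d.F.half_two, one_mul]
    ring
  rw [h3]
  exact h2

end Pool.Agent.PMD.Dat
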