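import Pool.Agent.PMD.LieB
import Pool.Agent.PMD.Sq

/-!
# Project PMD (MP_b583a4_nt), module HGrp: the sets `H n` are groups

`H n = {x | det x = 1 ∧ th x ∈ L n ∧ tr x - 2 ∈ C}`.

PLAN. Write `tr x = 2 + c`, `tr y = 2 + c'` with `c, c' ∈ C`. All divisions by `2` with `F.half_mem` (closed subgroups `L_closed`, `C_closed`; `half • 2 • z = z`).
* `H_mul`: `four_th_mul`: `4 th (x y) = 4 th y + 4 th x + 2 c • th y + 2 c' • th x + br (th x) (th y)`, all in `L n` (`C_smul`, `br_L n n` and `L_anti`);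
  `four_trace_mul`: `4 (tr (x y) - 2) = 4 c + 4 c' + 2 c c' + tr (th x * th y)`, in `C` (`C_mul`, `tr_mem`, `L_anti`).
* `H_adj`: `th_adj`, `tr (adj x) = tr x`, `det (adj x) = 1`.
* `H_closed`: `th_continuous`, continuity of `det` and `trace`.
* `H_add`: `4 (th (x y) - (th x + th y)) = 2 c • th y + 2 c' • th x + br (th x) (th y)` with `C_smul_Ls` (`L (n+3) ≤ L (n+2)`) and `br_L (n+1) (n+1)`.
* `H_comm`: `8 th (x y adj x adj y) = 2 tr (x y) • b + br (th (x y)) b` (`eight_th_comm`), `b = br (th x) (th y) ∈ L (n+1)` (`br_L 0 n`), `tr (x y) = 2 + c`, so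
  `8 (th (x y adj x adj y) - half • b) = 2 c • b + br (th (x y)) b`, in `L (n+2)` by `C_smul_Ls` and `br_L 0 (n+1)`; the trace condition: `H 0` is stable under products and adjugates.
* `R_mem_H`: `tr_sub_two_mem`.
-/

set_option autoImplicit false
open Filter Topology

namespace Pool.Agent.PMD.Dat

variable {p : ℕ} {B : Type*} [CommRing B] [TopologicalSpace B] [IsTopologicalRing B] [T2Space B]
  {G : Type*} [Group G] [TopologicalSpace G] (d : Dat p B G)

private theorem two_div (F : Filt p B) (hodd : Odd p) {A : Type*} [AddCommGroup A] [TopologicalSpace A]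
    [IsTopologicalAddGroup A] [T2Space A] [Module B A] [ContinuousSMul B A] {S : AddSubgroup A}
    (hS : IsClosed (S : Set A)) {z : A} (h : (2 : B) • z ∈ S) : z ∈ S := by
  have h1 := F.half_mem hodd hS h
  rwa [smul_smul, F.half_two, one_smul] at h1

private theorem four_div (F : Filt p B) (hodd : Odd p) {A : Type*} [AddCommGroup A] [TopologicalSpace A]
    [IsTopologicalAddGroup A] [T2Space A] [Module B A] [ContinuousSMul B A] {S : AddSubgroup A}
    (hS : IsClosed (S : Set A)) {z : A} (h : (4 : B) • z ∈ S) : z ∈ S := by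
  refine two_div F hodd hS (two_div F hodd hS ?_)
  rw [smul_smul, show (2 : B) * 2 = 4 by norm_num]
  exact h

private theorem eight_div (F : Filt p B) (hodd : Odd p) {A : Type*} [AddCommGroup A] [TopologicalSpace A]
    [IsTopologicalAddGroup A] [T2Space A] [Module B A] [ContinuousSMul B A] {S : AddSubgroup A}
    (hS : IsClosed (S : Set A)) {z : A} (h : (8 : B) • z ∈ S) : z ∈ S := by
  refine two_div F hodd hS (four_div F hodd hS ?_)
  rw [smul_smul, show (4 : B) * 2 = 8 by norm_num]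
  exact h

private theorem two_mul_mem {B A : Type*} [CommRing B] [AddCommGroup A] [Module B A] {S : AddSubgroup A} {z : A}
    (h : z ∈ S) : (2 : B) • z ∈ S := by
  rw [two_smul]
  exact S.add_mem h h

private theorem four_mul_mem {B A : Type*} [CommRing B] [AddCommGroup A] [Module B A] {S : AddSubgroup A} {z : A}
    (h : z ∈ S) : (4 : B) • z ∈ S := by
  rw [show (4 : B) = 2 * 2 by norm_num, mul_smul]
  exact two_mul_mem (two_mul_mem h)

theorem H_closed (n : ℕ) : IsClosed (d.H n) := by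
  have h1 : IsClosed {x : Mt B | x.det = 1} := isClosed_eq (continuous_id.matrix_det) continuous_const
  have h2 : IsClosed {x : Mt B | th x ∈ d.L n} := (d.L_closed n).preimage th_continuous
  have h3 : IsClosed {x : Mt B | x.trace - 2 ∈ d.C} :=
    d.C_closed.preimage ((Continuous.matrix_trace continuous_id).sub continuous_const)
  exact h1.inter (h2.inter h3)

theorem H_anti {m n : ℕ} (h : m ≤ n) : d.H n ⊆ d.H m := fun _ hx =>
  ⟨hx.1, d.L_anti h hx.2.1, hx.2.2⟩

theorem one_mem_H (n : ℕ) : (1 : Mt B) ∈ d.H n := by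
  refine ⟨Matrix.det_one, ?_, ?_⟩
  · rw [th_one]
    exact (d.L n).zero_mem
  · rw [Matrix.trace_one, Fintype.card_fin, Nat.cast_ofNat, sub_self]
    exact d.C.zero_mem

private theorem trace_adj (x : Mt B) : x.adjugate.trace = x.trace := by
  obtain ⟨a, b, c, d, rfl⟩ := ex4 x
  simp [Matrix.adjugate_fin_two_of, Matrix.trace_fin_two, add_comm]

theorem H_adj {n : ℕ} {x : Mt B} (hx : x ∈ d.H n) : x.adjugate ∈ d.H n := by
  refine ⟨?_, ?_, ?_⟩
  · rw [Matrix.det_adjugate, hx.1, one_pow]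
  · rw [th_adj]
    exact (d.L n).neg_mem hx.2.1
  · rw [trace_adj]
    exact hx.2.2

private theorem key_th {x y : Mt B} : (4 : B) • (th (x * y) - (th x + th y)) =
    (2 : B) • ((x.trace - 2) • th y) + (2 : B) • ((y.trace - 2) • th x) + br (th x) (th y) := by
  have h := four_th_mul x y
  rw [smul_sub, h]
  module

theorem H_mul (hodd : Odd p) {n : ℕ} {x y : Mt B} (hx : x ∈ d.H n) (hy : y ∈ d.H n) : x * y ∈ d.H n := by
  refine ⟨?_, ?_, ?_⟩
  · rw [Matrix.det_mul, hx.1, hy.1, one_mul]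
  · have h1 : th (x * y) - (th x + th y) ∈ d.L n := by
      refine four_div d.F hodd (d.L_closed n) ?_
      rw [key_th]
      refine (d.L n).add_mem ((d.L n).add_mem ?_ ?_) ?_
      · exact two_mul_mem (d.C_smul n hx.2.2 hy.2.1)
      · exact two_mul_mem (d.C_smul n hy.2.2 hx.2.1)
      · exact d.L_anti (by omega) (d.br_L n n hx.2.1 hy.2.1)
    have h2 := (d.L n).add_mem h1 ((d.L n).add_mem hx.2.1 hy.2.1)
    rwa [sub_add_cancel] at h2
  · refine four_div d.F hodd d.C_closed ?_
    have h1 : (4 : B) • ((x * y).trace - 2) = (4 : B) • (x.trace - 2) + (4 : B) • (y.trace - 2) +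
        (2 : B) • ((x.trace - 2) * (y.trace - 2)) + (th x * th y).trace := by
      have h := four_trace_mul x y
      simp only [smul_eq_mul]
      linear_combination h
    rw [h1]
    have hx0 : th x ∈ d.L0 := by
      rw [← L_zero]
      exact d.L_anti (Nat.zero_le n) hx.2.1
    have hy0 : th y ∈ d.L0 := by
      rw [← L_zero]
      exact d.L_anti (Nat.zero_le n) hy.2.1
    exact d.C.add_mem (d.C.add_mem (d.C.add_mem (four_mul_mem hx.2.2) (four_mul_mem hy.2.2))
      (two_mul_mem (d.C_mul hx.2.2 hy.2.2))) (d.tr_mem hx0 hy0)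

theorem H_add (hodd : Odd p) {n : ℕ} {x y : Mt B} (hx : x ∈ d.H (n + 1)) (hy : y ∈ d.H (n + 1)) :
    th (x * y) - (th x + th y) ∈ d.L (n + 2) := by
  refine four_div d.F hodd (d.L_closed (n + 2)) ?_
  rw [key_th]
  refine (d.L (n + 2)).add_mem ((d.L (n + 2)).add_mem ?_ ?_) ?_
  · exact two_mul_mem (d.L_anti (by omega) (d.C_smul_Ls hodd n hx.2.2 hy.2.1))
  · exact two_mul_mem (d.L_anti (by omega) (d.C_smul_Ls hodd n hy.2.2 hx.2.1))
  · exact d.L_anti (by omega) (d.br_L (n + 1) (n + 1) hx.2.1 hy.2.1)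

theorem H_comm (hodd : Odd p) {n : ℕ} {x y : Mt B} (hx : x ∈ d.H 0) (hy : y ∈ d.H n) :
    x * y * x.adjugate * y.adjugate ∈ d.H (n + 1) ∧
    th (x * y * x.adjugate * y.adjugate) - d.F.half • br (th x) (th y) ∈ d.L (n + 2) := by
  have hy0 : y ∈ d.H 0 := d.H_anti (Nat.zero_le n) hy
  have hxy : x * y ∈ d.H 0 := d.H_mul hodd hx hy0
  have hb : br (th x) (th y) ∈ d.L (n + 1) := d.L_anti (by omega) (d.br_L 0 n hx.2.1 hy.2.1)
  have h1 : th (x * y * x.adjugate * y.adjugate) - d.F.half • br (th x) (th y) ∈ d.L (n + 2) := by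
    refine eight_div d.F hodd (d.L_closed (n + 2)) ?_
    have h2 : (8 : B) • (th (x * y * x.adjugate * y.adjugate) - d.F.half • br (th x) (th y)) =
        (2 : B) • (((x * y).trace - 2) • br (th x) (th y)) + br (th (x * y)) (br (th x) (th y)) := by
      rw [smul_sub, eight_th_comm, smul_smul]
      have h3 : (8 : B) * d.F.half = 4 := by
        have h4 := d.F.half_two
        linear_combination 4 * h4
      rw [h3]
      module
    rw [h2]
    refine (d.L (n + 2)).add_mem ?_ ?_
    · exact two_mul_mem (d.L_anti (by omega) (d.C_smul_Ls hodd n hxy.2.2 hb))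
    · exact d.L_anti (by omega) (d.br_L 0 (n + 1) hxy.2.1 hb)
  refine ⟨?_, h1⟩
  have h5 : x * y * x.adjugate * y.adjugate ∈ d.H 0 :=
    d.H_mul hodd (d.H_mul hodd hxy (d.H_adj hx)) (d.H_adj hy0)
  refine ⟨h5.1, ?_, h5.2.2⟩
  have h6 := (d.L (n + 1)).add_mem (d.L_anti (by omega) h1)
    (d.F.half_mem hodd (d.L_closed (n + 1)) hb)
  rwa [sub_add_cancel] at h6

theorem R_mem_H [IsTopologicalGroup G] [CompactSpace G] (hodd : Odd p) {x : G} (hx : x ∈ d.D) :
    d.R x ∈ d.H 0 :=
  ⟨d.det x hx, d.th_mem hx, d.tr_sub_two_mem hodd hx⟩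

end Pool.Agent.PMD.Dat
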