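import Pool.Agent.PMD.Gram

/-!
# Project PMD (MP_b583a4_nt), module RingG: the Hecke algebra multiplies Gram determinants into `C`

The elements `t` such that `t * Gr u ∈ C` for all `u`, `Gr u = det (tr (u a * v b))`, are stable under
multiplication by the generators of the ring, by the identity `rgV`.
-/

set_option autoImplicit false
open Filter Topology

namespace Pool.Agent.PMD

/-- the coordinates of trace zero matrices -/
private def rgE {B : Type*} [CommRing B] (x y z : Fin 3 → B) : Matrix (Fin 3) (Fin 3) B :=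
  Matrix.of fun a k => ![x a, y a, z a] k

private def rgQ (B : Type*) [CommRing B] : Matrix (Fin 3) (Fin 3) B := !![2, 0, 0; 0, 0, 1; 0, 1, 0]

private theorem rg_mul {B : Type*} [CommRing B] (x y z x' y' z' : Fin 3 → B) (a b : Fin 3) :
    (rgE x y z * rgQ B * (rgE x' y' z').transpose) a b =
      2 * x a * x' b + y a * z' b + z a * y' b := by
  rw [Matrix.mul_apply, Fin.sum_univ_three]
  simp only [Matrix.mul_apply, Fin.sum_univ_three, rgE, rgQ, Matrix.transpose_apply, Matrix.of_apply,
    Matrix.cons_val_zero, Matrix.cons_val_one, Matrix.cons_val]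
  ring

private theorem rg_trace {B : Type*} [CommRing B] (x y z x' y' z' : B) :
    ((!![x, y; z, -x] : Mt B) * !![x', y'; z', -x']).trace = 2 * x * x' + y * z' + z * y' := by
  simp [Matrix.trace_fin_two, Matrix.mul_apply, Fin.sum_univ_two]
  ring

/-- replacing the rows by their images under a linear map -/
private theorem rg_row {B : Type*} [CommRing B] (E A : Matrix (Fin 3) (Fin 3) B) :
    ∑ a : Fin 3, (Matrix.of fun c k : Fin 3 =>
      if c = a then ∑ l : Fin 3, A k l * E c l else E c k).det =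
      (A 0 0 + A 1 1 + A 2 2) * E.det := by
  rw [Fin.sum_univ_three]
  simp only [Matrix.det_fin_three, Matrix.of_apply, Fin.sum_univ_three]
  simp only [Fin.isValue, if_true, one_ne_zero, zero_ne_one, if_false,
    (by decide : (2 : Fin 3) ≠ 0), (by decide : (2 : Fin 3) ≠ 1), (by decide : (0 : Fin 3) ≠ 2),
    (by decide : (1 : Fin 3) ≠ 2)]
  ring

/-- the Gram matrix of two triples of trace zero matrices -/
private theorem rgV {B : Type*} [CommRing B] (u v : Fin 3 → Mt B) (hu : ∀ a, (u a).trace = 0)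
    (hv : ∀ a, (v a).trace = 0) (g h : Mt B) (hg : g * h = 1) :
    (g.trace * h.trace - 1) * (Matrix.of fun a b : Fin 3 => (u a * v b).trace).det =
      ∑ a : Fin 3, (Matrix.of fun c b : Fin 3 =>
        ((if c = a then g * u c * h else u c) * v b).trace).det := by
  have hg' : h * g = 1 := mul_eq_one_comm.1 hg
  choose x y z hxyz using fun a => ex3 (hu a)
  choose x1 y1 z1 hxyz1 using fun a => ex3 (hv a)
  obtain ⟨p, q, r, s, rfl⟩ := ex4 g
  obtain ⟨p', q', r', s', rfl⟩ := ex4 h
  have e00 := congrFun (congrFun hg' 0) 0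
  have e01 := congrFun (congrFun hg' 0) 1
  have e10 := congrFun (congrFun hg' 1) 0
  have e11 := congrFun (congrFun hg' 1) 1
  simp only [Matrix.mul_apply, Fin.sum_univ_two, Matrix.of_apply, Matrix.cons_val', Matrix.cons_val_zero,
    Matrix.cons_val_one, Matrix.cons_val_fin_one, Matrix.one_apply_eq, Matrix.one_apply_ne (zero_ne_one' (Fin 2)),
    Matrix.one_apply_ne (one_ne_zero' (Fin 2)), Matrix.empty_val'] at e00 e01 e10 e11
  set A : Matrix (Fin 3) (Fin 3) B := !![p * p' - q * r', p * r', q * p';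
    p * q' - q * s', p * s', q * q'; r * p' - s * r', r * r', s * p'] with hA
  set E := rgE x y z with hE
  set E1 := rgE x1 y1 z1 with hE1
  set X : Fin 3 → B := fun a => ∑ l : Fin 3, A 0 l * E a l with hX
  set Y : Fin 3 → B := fun a => ∑ l : Fin 3, A 1 l * E a l with hY
  set Z : Fin 3 → B := fun a => ∑ l : Fin 3, A 2 l * E a l with hZ
  have hconj : ∀ a, !![p, q; r, s] * u a * !![p', q'; r', s'] = !![X a, Y a; Z a, - X a] := by
    intro a
    rw [hxyz a]
    apply ext4
    · simp [hX, hA, hE, rgE, Matrix.mul_apply, Fin.sum_univ_two, Fin.sum_univ_three]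
      ring
    · simp [hY, hA, hE, rgE, Matrix.mul_apply, Fin.sum_univ_two, Fin.sum_univ_three]
      ring
    · simp [hZ, hA, hE, rgE, Matrix.mul_apply, Fin.sum_univ_two, Fin.sum_univ_three]
      ring
    · simp [hX, hA, hE, rgE, Matrix.mul_apply, Fin.sum_univ_two, Fin.sum_univ_three]
      linear_combination (x a) * e00 + (y a) * e10 + (z a) * e01 - (x a) * e11
  have hG : (Matrix.of fun a b : Fin 3 => (u a * v b).trace) = E * rgQ B * E1.transpose := by
    ext a b
    rw [hE, hE1, rg_mul, Matrix.of_apply, hxyz a, hxyz1 b, rg_trace]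
  have hGa : ∀ a : Fin 3, (Matrix.of fun c b : Fin 3 =>
      ((if c = a then !![p, q; r, s] * u c * !![p', q'; r', s'] else u c) * v b).trace) =
      (Matrix.of fun c k : Fin 3 => if c = a then ∑ l : Fin 3, A k l * E c l else E c k) *
        rgQ B * E1.transpose := by
    intro a
    have h1 : (Matrix.of fun c k : Fin 3 => if c = a then ∑ l : Fin 3, A k l * E c l else E c k) =
        rgE (fun c => if c = a then X c else x c) (fun c => if c = a then Y c else y c)
          (fun c => if c = a then Z c else z c) := by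
      ext c k
      by_cases hc : c = a
      · simp only [Matrix.of_apply, rgE, if_pos hc]
        fin_cases k <;> rfl
      · simp only [Matrix.of_apply, rgE, if_neg hc, hE]
    rw [h1]
    ext c b
    rw [hE1, rg_mul, Matrix.of_apply]
    by_cases hc : c = a
    · rw [if_pos hc, if_pos hc, if_pos hc, if_pos hc, hconj c, hxyz1 b, rg_trace]
    · rw [if_neg hc, if_neg hc, if_neg hc, if_neg hc, hxyz c, hxyz1 b, rg_trace]
  have htr : (!![p, q; r, s] : Mt B).trace * (!![p', q'; r', s'] : Mt B).trace - 1 =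
      A 0 0 + A 1 1 + A 2 2 := by
    simp [Matrix.trace_fin_two, hA]
    linear_combination e11
  rw [htr, hG, Matrix.det_mul, Matrix.det_mul]
  rw [Finset.sum_congr rfl fun a _ => by rw [hGa a, Matrix.det_mul, Matrix.det_mul]]
  rw [← Finset.sum_mul, ← Finset.sum_mul, rg_row]
  ring

end Pool.Agent.PMD

namespace Pool.Agent.PMD.Dat

variable {p : ℕ} {B : Type*} [CommRing B] [TopologicalSpace B] [IsTopologicalRing B] [T2Space B]
  {G : Type*} [Group G] [TopologicalSpace G] (d : Dat p B G)

private theorem rg_det_mem {M : Matrix (Fin 3) (Fin 3) B} (hM : ∀ a b, M a b ∈ d.C) :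
    M.det ∈ d.C := by
  rw [Matrix.det_fin_three]
  have h2 : ∀ a b c e : Fin 3, ∀ a' b' : Fin 3, M a b * M c e * M a' b' ∈ d.C := fun a b c e a' b' =>
    d.C_mul (d.C_mul (hM a b) (hM c e)) (hM a' b')
  refine d.C.sub_mem (d.C.add_mem (d.C.add_mem (d.C.sub_mem (d.C.sub_mem ?_ ?_) ?_) ?_) ?_) ?_ <;>
    exact h2 _ _ _ _ _ _

/-- the Gram determinant -/
private def rgG (v u : Fin 3 → Mt B) : B := (Matrix.of fun a b : Fin 3 => (u a * v b).trace).det

/-- the elements which multiply all Gram determinants into `C` -/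
private def rgP (v : Fin 3 → Mt B) : AddSubgroup B where
  carrier := {t | ∀ u : Fin 3 → Mt B, (∀ a, u a ∈ d.L 0) → t * rgG v u ∈ d.C}
  zero_mem' := fun u _ => by
    rw [zero_mul]
    exact d.C.zero_mem
  add_mem' := fun {s t} hs ht u hu => by
    rw [add_mul]
    exact d.C.add_mem (hs u hu) (ht u hu)
  neg_mem' := fun {s} hs u hu => by
    rw [neg_mul]
    exact d.C.neg_mem (hs u hu)

private theorem rgP_closed (v : Fin 3 → Mt B) : IsClosed (d.rgP v : Set B) := by
  have h : (d.rgP v : Set B) =
      ⋂ u : Fin 3 → Mt B, ⋂ _ : ∀ a, u a ∈ d.L 0, {t : B | t * rgG v u ∈ d.C} := by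
    ext t
    simp only [Set.mem_iInter]
    exact Iff.rfl
  rw [h]
  exact isClosed_iInter fun u => isClosed_iInter fun _ =>
    d.C_closed.preimage (continuous_mul_const (rgG v u))

/-- the multipliers of `P` -/
private def rgS (v : Fin 3 → Mt B) : Subring B where
  carrier := {s | ∀ t ∈ d.rgP v, s * t ∈ d.rgP v}
  zero_mem' := fun t _ => by
    rw [zero_mul]
    exact (d.rgP v).zero_mem
  one_mem' := fun t ht => by rwa [one_mul]
  add_mem' := fun {s s'} hs hs' t ht => by
    rw [add_mul]
    exact (d.rgP v).add_mem (hs t ht) (hs' t ht)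
  neg_mem' := fun {s} hs t ht => by
    rw [neg_mul]
    exact (d.rgP v).neg_mem (hs t ht)
  mul_mem' := fun {s s'} hs hs' t ht => by
    rw [mul_assoc]
    exact hs _ (hs' t ht)

private theorem rgS_closed (v : Fin 3 → Mt B) : IsClosed (d.rgS v : Set B) := by
  have h : (d.rgS v : Set B) = ⋂ t : B, ⋂ _ : t ∈ d.rgP v, {s : B | s * t ∈ d.rgP v} := by
    ext s
    simp only [Set.mem_iInter]
    exact Iff.rfl
  rw [h]
  exact isClosed_iInter fun t => isClosed_iInter fun _ =>
    (d.rgP_closed v).preimage (continuous_mul_const t)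

private theorem rg_gen (hD : d.D.Normal) (v : Fin 3 → Mt B) (hv : ∀ a, v a ∈ d.L 0) (g : G) :
    (d.R g).trace * (d.R g⁻¹).trace ∈ d.rgS v := by
  intro t ht u hu
  have h1 : d.R g * d.R g⁻¹ = 1 := by
    rw [← map_mul, mul_inv_cancel, map_one]
  have h2 := rgV u v (fun a => d.trace_zero 0 (hu a)) (fun a => d.trace_zero 0 (hv a))
    (d.R g) (d.R g⁻¹) h1
  have h3 : (d.R g).trace * (d.R g⁻¹).trace * t * rgG v u =
      (∑ a : Fin 3, t * rgG v fun c => if c = a then d.R g * u c * d.R g⁻¹ else u c) +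
        t * rgG v u := by
    rw [← Finset.mul_sum]
    have h4 : (∑ a : Fin 3, rgG v fun c => if c = a then d.R g * u c * d.R g⁻¹ else u c) =
        ((d.R g).trace * (d.R g⁻¹).trace - 1) * rgG v u := h2.symm
    rw [h4]
    ring
  rw [h3]
  refine d.C.add_mem (d.C.sum_mem fun a _ => ht _ ?_) (ht u hu)
  intro c
  by_cases hc : c = a
  · simp only [if_pos hc]
    exact d.conj_L0 hD g (hu c)
  · simp only [if_neg hc]
    exact hu c

theorem ring_mul_mem (hD : d.D.Normal) (v : Fin 3 → Mt B) (hv : ∀ a, v a ∈ d.L 0) {t : B}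
    (ht : t ∈ (Subring.closure (Set.range fun g : G => (d.R g).trace * (d.R g⁻¹).trace)).topologicalClosure)
    (u : Fin 3 → Mt B) (hu : ∀ a, u a ∈ d.L 0) :
    t * (Matrix.of fun a b : Fin 3 => (u a * v b).trace).det ∈ d.C := by
  have h1 : (1 : B) ∈ d.rgP v := by
    intro u hu
    rw [one_mul]
    exact d.rg_det_mem fun a b => d.tr_mem (hu a) (hv b)
  have h2 : Subring.closure (Set.range fun g : G => (d.R g).trace * (d.R g⁻¹).trace) ≤ d.rgS v := by
    rw [Subring.closure_le]
    rintro _ ⟨g, rfl⟩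
    exact d.rg_gen hD v hv g
  have h3 : t ∈ d.rgS v := Subring.topologicalClosure_minimal _ h2 (d.rgS_closed v) ht
  have h4 := h3 1 h1
  rw [mul_one] at h4
  exact h4 u hu

end Pool.Agent.PMD.Dat
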