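import Pool.Agent.PMD.Graph
import Pool.Agent.PMD.RingG
import Pool.Agent.PMD.Span3
import Pool.Agent.PMD.ExHom
import Pool.Agent.PMD.CptC

/-!
# Project PMD (MP_b583a4_nt), module HomD: the continuous homomorphism

PLAN. Notation `B = (∀ i, K i) × E`. `exists_br_ne` for `W = {(R x).map Prod.snd | x ∈ D}` gives the hypothesis `hnc` of `graph` (`br` commutes with `Matrix.map` along the ring homomorphism `RingHom.snd`), so `c.1 = 0 → c.2 = 0` for `c ∈ C`.
`(2 : E) ≠ 0` because of `d.F.half`. `exists_gram_ne` gives `x a ∈ D` such that with `u a = th (R (x a)) ∈ L 0` (`th_mem`) the Gram determinant `δ₀` has `δ₀.2 ≠ 0` (`RingHom.map_det` for `RingHom.snd`). If `t` is in the closed subring generated by the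
`chE R g` and `t.1 = 0` then `t * δ₀ ∈ C` (`ring_mul_mem` with `v = u`), `(t * δ₀).1 = 0`, so `t.2 * δ₀.2 = 0`, so `t.2 = 0`. Then `compact_closure` and `exists_hom` with `f g = (chE R g).1`, `e g = (chE R g).2`.
(`fun g => ((chE R g).1, (chE R g).2) = chE R` by eta.)
-/

set_option autoImplicit false
open Filter Topology

namespace Pool.Agent.PMD

/-- the character of the endomorphisms -/
def chE {B : Type*} [CommRing B] {G : Type*} [Group G] (R : G →* Mt B) (g : G) : B :=
  (R g).trace * (R g⁻¹).trace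

private theorem hd_map_trace {A E : Type*} [CommRing A] [CommRing E] (x : Mt (A × E)) :
    (x.map Prod.snd).trace = x.trace.2 := by
  rw [Matrix.trace_fin_two, Matrix.trace_fin_two, Matrix.map_apply, Matrix.map_apply, Prod.snd_add]

private theorem hd_map_mul {A E : Type*} [CommRing A] [CommRing E] (x y : Mt (A × E)) :
    (x * y).map Prod.snd = x.map Prod.snd * y.map Prod.snd :=
  Matrix.map_mul (f := RingHom.snd A E)

private theorem hd_map_br {A E : Type*} [CommRing A] [CommRing E] (x y : Mt (A × E)) :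
    br (x.map Prod.snd) (y.map Prod.snd) = (br x y).map Prod.snd := by
  unfold br
  rw [← hd_map_mul, ← hd_map_mul]
  ext i j
  rfl

private theorem hd_map_th {A E : Type*} [CommRing A] [CommRing E] (x : Mt (A × E)) :
    th (x.map Prod.snd) = (th x).map Prod.snd := by
  rw [th_eq, th_eq, hd_map_trace]
  ext i j
  fin_cases i <;> fin_cases j <;> simp

theorem exists_theta {p : ℕ} (hodd : Odd p) {I : Type*} {K : I → Type*} [∀ i, NontriviallyNormedField (K i)]
    [∀ i, IsUltrametricDist (K i)] [∀ i, ProperSpace (K i)] {E : Type*} [NontriviallyNormedField E]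
    [IsUltrametricDist E] [ProperSpace E] {G : Type*} [Group G] [TopologicalSpace G] [IsTopologicalGroup G]
    [CompactSpace G] (d : Dat p ((∀ i, K i) × E) G) (hD : d.D.Normal)
    (hF : ∀ b ∈ d.F.M 1, ‖b.2‖ < 1)
    (hint : ∀ g, (∀ i, ‖(chE d.R g).1 i‖ ≤ 1) ∧ ‖(chE d.R g).2‖ ≤ 1)
    (hker : ∀ g ∈ d.D, (∀ i j, (d.R g i j).1 = (1 : Mt (∀ i, K i)) i j) →
      ∃ c : E, ∀ i j, (d.R g i j).2 = (c • (1 : Mt E)) i j)
    (hspan : Submodule.span E ((fun x => (d.R x).map Prod.snd) '' (d.D : Set G)) = ⊤) :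
    ∃ θ : (Subring.closure (Set.range fun g : G => (chE d.R g).1)).topologicalClosure →+* E, Continuous θ ∧
      ∀ (g : G) (t : (Subring.closure (Set.range fun g : G => (chE d.R g).1)).topologicalClosure),
        (t : ∀ i, K i) = (chE d.R g).1 → θ t = (chE d.R g).2 := by
  classical
  have h2 : (2 : E) ≠ 0 := by
    intro h
    have h1 := congrArg Prod.snd d.F.half_two
    rw [Prod.snd_mul, Prod.snd_one] at h1
    have h3 : ((2 : (∀ i, K i) × E)).2 = (2 : E) := rfl
    rw [h3, h, mul_zero] at h1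
    exact zero_ne_one h1
  have hnc : ∃ x ∈ d.D, ∃ y ∈ d.D, ∃ i j, (br (d.R x) (d.R y) i j).2 ≠ 0 := by
    obtain ⟨x', ⟨x, hx, hx'⟩, y', ⟨y, hy, hy'⟩, i, j, h⟩ := exists_br_ne hspan
    refine ⟨x, hx, y, hy, i, j, ?_⟩
    have hx'' : x' = (d.R x).map Prod.snd := hx'.symm
    have hy'' : y' = (d.R y).map Prod.snd := hy'.symm
    rw [hx'', hy'', hd_map_br, Matrix.map_apply] at h
    exact h
  obtain ⟨x', hx', hdet⟩ := exists_gram_ne h2 hspan
  choose x hx hxx using hx'
  have hu : ∀ a, th (d.R (x a)) ∈ d.L 0 := fun a => d.th_mem (hx a)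
  have hδ : ((Matrix.of fun a b : Fin 3 => (th (d.R (x a)) * th (d.R (x b))).trace).det).2 ≠ 0 := by
    have e1 : ((Matrix.of fun a b : Fin 3 => (th (d.R (x a)) * th (d.R (x b))).trace).det).2 =
        (Matrix.of fun a b : Fin 3 => (th (x' a) * th (x' b)).trace).det := by
      have e2 := RingHom.map_det (RingHom.snd (∀ i, K i) E)
        (Matrix.of fun a b : Fin 3 => (th (d.R (x a)) * th (d.R (x b))).trace)
      refine Eq.trans e2 ?_
      congr 1
      ext a b
      have e3 : ∀ a, th (x' a) = (th (d.R (x a))).map Prod.snd := by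
        intro a
        rw [← hd_map_th]
        exact congrArg th (hxx a).symm
      rw [Matrix.of_apply, e3 a, e3 b, ← hd_map_mul, hd_map_trace]
      rfl
    rw [e1]
    exact hdet
  have hgr : ∀ t ∈ (Subring.closure (Set.range fun g : G => ((chE d.R g).1, (chE d.R g).2))).topologicalClosure,
      t.1 = 0 → t.2 = 0 := by
    intro t ht h0
    have h3 := d.ring_mul_mem hD (fun a => th (d.R (x a))) hu ht (fun a => th (d.R (x a))) hu
    have h4 := d.graph hodd hF hker hnc h3 (by rw [Prod.fst_mul, h0, zero_mul])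
    rw [Prod.snd_mul] at h4
    exact (mul_eq_zero.1 h4).resolve_right hδ
  exact exists_hom (fun g : G => (chE d.R g).1) (fun g : G => (chE d.R g).2)
    (compact_closure (chE d.R) hint) hgr

end Pool.Agent.PMD
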