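import Mathlib

/-!
# Project PMD (MP_b583a4_nt), module Lat: a compact group in `GL_2(K)` is integral in a suitable basis (Mathlib only)

The vectors all of whose translates are integral form a compact lattice; a basis is found by maximising coordinates.
-/

set_option autoImplicit false
open Filter Topology

namespace Pool.Agent.PMD

/-- the vectors all of whose translates are integral -/
private def latS {K : Type*} [NontriviallyNormedField K] {G : Type*} [Group G] (r : G →* GL (Fin 2) K) :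
    Set (Fin 2 → K) :=
  {x | ∀ (g : G) (i : Fin 2), ‖(r g : Matrix (Fin 2) (Fin 2) K) i 0 * x 0 +
    (r g : Matrix (Fin 2) (Fin 2) K) i 1 * x 1‖ ≤ 1}

section

variable {K : Type*} [NontriviallyNormedField K] [IsUltrametricDist K]
    {G : Type*} [Group G] {r : G →* GL (Fin 2) K}

omit [IsUltrametricDist K] in
private theorem latS_closed : IsClosed (latS r) := by
  have h : latS r = ⋂ (g : G), ⋂ (i : Fin 2), {x : Fin 2 → K |
      ‖(r g : Matrix (Fin 2) (Fin 2) K) i 0 * x 0 +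
        (r g : Matrix (Fin 2) (Fin 2) K) i 1 * x 1‖ ≤ 1} := by
    ext x
    simp [latS]
  rw [h]
  refine isClosed_iInter fun g => isClosed_iInter fun i => isClosed_le ?_ continuous_const
  exact ((continuous_const.mul (continuous_apply 0)).add
    (continuous_const.mul (continuous_apply 1))).norm

omit [IsUltrametricDist K] in
private theorem latS_unit {x : Fin 2 → K} (hx : x ∈ latS r) (i : Fin 2) : ‖x i‖ ≤ 1 := by
  have h := hx 1 i
  rw [map_one] at h
  fin_cases i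
  · simpa using h
  · simpa using h

private theorem latS_sub {x y : Fin 2 → K} (hx : x ∈ latS r) (hy : y ∈ latS r) {c : K} (hc : ‖c‖ ≤ 1) :
    (fun k => x k - c * y k) ∈ latS r := by
  intro g i
  have e : (r g : Matrix (Fin 2) (Fin 2) K) i 0 * (x 0 - c * y 0) +
      (r g : Matrix (Fin 2) (Fin 2) K) i 1 * (x 1 - c * y 1) =
      ((r g : Matrix (Fin 2) (Fin 2) K) i 0 * x 0 + (r g : Matrix (Fin 2) (Fin 2) K) i 1 * x 1) +
      -(c * ((r g : Matrix (Fin 2) (Fin 2) K) i 0 * y 0 +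
        (r g : Matrix (Fin 2) (Fin 2) K) i 1 * y 1)) := by ring
  show ‖(r g : Matrix (Fin 2) (Fin 2) K) i 0 * (x 0 - c * y 0) +
      (r g : Matrix (Fin 2) (Fin 2) K) i 1 * (x 1 - c * y 1)‖ ≤ 1
  rw [e]
  refine (IsUltrametricDist.norm_add_le_max _ _).trans (max_le (hx g i) ?_)
  rw [norm_neg, norm_mul]
  exact mul_le_one₀ hc (norm_nonneg _) (hy g i)

omit [IsUltrametricDist K] in
private theorem latS_mul {x : Fin 2 → K} (hx : x ∈ latS r) (g : G) :
    (fun k => (r g : Matrix (Fin 2) (Fin 2) K) k 0 * x 0 +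
      (r g : Matrix (Fin 2) (Fin 2) K) k 1 * x 1) ∈ latS r := by
  intro h i
  have h1 := hx (h * g) i
  rw [map_mul, Units.val_mul, Matrix.mul_apply, Matrix.mul_apply, Fin.sum_univ_two,
    Fin.sum_univ_two] at h1
  have e : (r h : Matrix (Fin 2) (Fin 2) K) i 0 * ((r g : Matrix (Fin 2) (Fin 2) K) 0 0 * x 0 +
      (r g : Matrix (Fin 2) (Fin 2) K) 0 1 * x 1) + (r h : Matrix (Fin 2) (Fin 2) K) i 1 *
      ((r g : Matrix (Fin 2) (Fin 2) K) 1 0 * x 0 + (r g : Matrix (Fin 2) (Fin 2) K) 1 1 * x 1) =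
      ((r h : Matrix (Fin 2) (Fin 2) K) i 0 * (r g : Matrix (Fin 2) (Fin 2) K) 0 0 +
        (r h : Matrix (Fin 2) (Fin 2) K) i 1 * (r g : Matrix (Fin 2) (Fin 2) K) 1 0) * x 0 +
      ((r h : Matrix (Fin 2) (Fin 2) K) i 0 * (r g : Matrix (Fin 2) (Fin 2) K) 0 1 +
        (r h : Matrix (Fin 2) (Fin 2) K) i 1 * (r g : Matrix (Fin 2) (Fin 2) K) 1 1) * x 1 := by
    ring
  show ‖(r h : Matrix (Fin 2) (Fin 2) K) i 0 * ((r g : Matrix (Fin 2) (Fin 2) K) 0 0 * x 0 +
      (r g : Matrix (Fin 2) (Fin 2) K) 0 1 * x 1) + (r h : Matrix (Fin 2) (Fin 2) K) i 1 *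
      ((r g : Matrix (Fin 2) (Fin 2) K) 1 0 * x 0 +
        (r g : Matrix (Fin 2) (Fin 2) K) 1 1 * x 1)‖ ≤ 1
  rw [e]
  exact h1

omit [IsUltrametricDist K] in
private theorem latS_compact [ProperSpace K] : IsCompact (latS r) := by
  refine (isCompact_closedBall (0 : Fin 2 → K) 1).of_isClosed_subset latS_closed fun x hx => ?_
  rw [mem_closedBall_zero_iff]
  exact (pi_norm_le_iff_of_nonneg zero_le_one).2 fun i => latS_unit hx i

omit [IsUltrametricDist K] in
private theorem latS_small [TopologicalSpace G] [CompactSpace G] (hr : Continuous r) :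
    ∃ c : K, c ≠ 0 ∧ (![c, 0] : Fin 2 → K) ∈ latS r ∧ (![0, c] : Fin 2 → K) ∈ latS r := by
  have hM : Continuous fun g => (r g : Matrix (Fin 2) (Fin 2) K) := Units.continuous_val.comp hr
  have hij : ∀ i j : Fin 2, ∃ B : ℝ, ∀ g, ‖(r g : Matrix (Fin 2) (Fin 2) K) i j‖ ≤ B := by
    intro i j
    have h1 : Continuous fun g => (r g : Matrix (Fin 2) (Fin 2) K) i j := hM.matrix_elem i j
    obtain ⟨B, hB⟩ := (isCompact_univ (X := G)).exists_bound_of_continuousOn h1.continuousOn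
    exact ⟨B, fun g => hB g (Set.mem_univ g)⟩
  choose B hB using hij
  set C : ℝ := 1 + |B 0 0| + |B 0 1| + |B 1 0| + |B 1 1| with hC
  have hC0 : 0 < C := by positivity
  have hBC : ∀ i j : Fin 2, ∀ g, ‖(r g : Matrix (Fin 2) (Fin 2) K) i j‖ ≤ C := by
    intro i j g
    refine (hB i j g).trans ((le_abs_self _).trans ?_)
    have h00 := abs_nonneg (B 0 0)
    have h01 := abs_nonneg (B 0 1)
    have h10 := abs_nonneg (B 1 0)
    have h11 := abs_nonneg (B 1 1)
    fin_cases i <;> fin_cases j <;> simp only [hC, Fin.mk_zero, Fin.mk_one] <;>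
      linarith
  obtain ⟨c, hc0, hc1⟩ := NormedField.exists_norm_lt K (inv_pos.2 hC0)
  have hcC : ∀ i j : Fin 2, ∀ g, ‖(r g : Matrix (Fin 2) (Fin 2) K) i j * c‖ ≤ 1 := by
    intro i j g
    rw [norm_mul]
    calc ‖(r g : Matrix (Fin 2) (Fin 2) K) i j‖ * ‖c‖ ≤ C * C⁻¹ :=
          mul_le_mul (hBC i j g) hc1.le hc0.le hC0.le
      _ = 1 := mul_inv_cancel₀ hC0.ne'
  refine ⟨c, norm_pos_iff.1 hc0, ?_, ?_⟩
  · intro g i
    simpa using hcC i 0 g
  · intro g i
    simpa using hcC i 1 g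

end

theorem exists_integral {K : Type*} [NontriviallyNormedField K] [IsUltrametricDist K] [ProperSpace K]
    {G : Type*} [Group G] [TopologicalSpace G] [CompactSpace G] (r : G →* GL (Fin 2) K)
    (hr : Continuous r) :
    ∃ P : GL (Fin 2) K, ∀ g i j, ‖((P * r g * P⁻¹ : GL (Fin 2) K) : Matrix (Fin 2) (Fin 2) K) i j‖ ≤ 1 := by
  obtain ⟨c, hc, hc0, hc1⟩ := latS_small hr
  obtain ⟨b, hb, hbm⟩ := (latS_compact (r := r)).exists_isMaxOn ⟨_, hc0⟩
    (f := fun x => ‖x 0‖) (continuous_apply 0).norm.continuousOn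
  have hK2 : IsCompact (latS r ∩ {x : Fin 2 → K | x 0 = 0}) :=
    (latS_compact (r := r)).inter_right (isClosed_eq (continuous_apply 0) continuous_const)
  have hc1' : (![0, c] : Fin 2 → K) ∈ latS r ∩ {x : Fin 2 → K | x 0 = 0} := ⟨hc1, by simp⟩
  obtain ⟨b', hb', hbm'⟩ := hK2.exists_isMaxOn ⟨_, hc1'⟩
    (f := fun x => ‖x 1‖) (continuous_apply 1).norm.continuousOn
  have hmax : ∀ x ∈ latS r, ‖x 0‖ ≤ ‖b 0‖ := fun x hx => hbm hx
  have hmax' : ∀ x ∈ latS r, x 0 = 0 → ‖x 1‖ ≤ ‖b' 1‖ := fun x hx h => hbm' ⟨hx, h⟩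
  have hb0 : b 0 ≠ 0 := by
    have h := hmax _ hc0
    simp only [Matrix.cons_val_zero] at h
    exact norm_pos_iff.1 ((norm_pos_iff.2 hc).trans_le h)
  have hb1 : b' 1 ≠ 0 := by
    have h := hmax' _ hc1 (by simp)
    simp only [Matrix.cons_val_one, Matrix.cons_val_fin_one] at h
    exact norm_pos_iff.1 ((norm_pos_iff.2 hc).trans_le h)
  have hb'0 : b' 0 = 0 := hb'.2
  have coord : ∀ x ∈ latS r, ∀ c₁ c₂ : K, x 0 = b 0 * c₁ → x 1 = b 1 * c₁ + b' 1 * c₂ →
      ‖c₁‖ ≤ 1 ∧ ‖c₂‖ ≤ 1 := by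
    intro x hx c₁ c₂ h1 h2
    have n1 : ‖c₁‖ ≤ 1 := by
      have h := hmax x hx
      rw [h1, norm_mul] at h
      have hp : 0 < ‖b 0‖ := norm_pos_iff.2 hb0
      nlinarith
    refine ⟨n1, ?_⟩
    have h3 := hmax' _ (latS_sub hx hb n1) (by rw [h1]; ring)
    have h4 : x 1 - c₁ * b 1 = b' 1 * c₂ := by rw [h2]; ring
    rw [h4, norm_mul] at h3
    have hp : 0 < ‖b' 1‖ := norm_pos_iff.2 hb1
    nlinarith
  have hdet : (!![b 0, b' 0; b 1, b' 1] : Matrix (Fin 2) (Fin 2) K).det ≠ 0 := by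
    rw [Matrix.det_fin_two_of, hb'0, zero_mul, sub_zero]
    exact mul_ne_zero hb0 hb1
  set S : GL (Fin 2) K := Matrix.GeneralLinearGroup.mkOfDetNeZero _ hdet with hS
  have hSv : (S : Matrix (Fin 2) (Fin 2) K) = !![b 0, b' 0; b 1, b' 1] := rfl
  refine ⟨S⁻¹, fun g i j => ?_⟩
  set T : GL (Fin 2) K := S⁻¹ * r g * S⁻¹⁻¹ with hT
  have hST : S * T = r g * S := by
    rw [hT, inv_inv]
    group
  have hSTv : (S : Matrix (Fin 2) (Fin 2) K) * (T : Matrix (Fin 2) (Fin 2) K) =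
      (r g : Matrix (Fin 2) (Fin 2) K) * (S : Matrix (Fin 2) (Fin 2) K) := by
    rw [← Units.val_mul, hST, Units.val_mul]
  have hent : ∀ k, (S : Matrix (Fin 2) (Fin 2) K) k 0 * (T : Matrix (Fin 2) (Fin 2) K) 0 j +
      (S : Matrix (Fin 2) (Fin 2) K) k 1 * (T : Matrix (Fin 2) (Fin 2) K) 1 j =
      (r g : Matrix (Fin 2) (Fin 2) K) k 0 * (S : Matrix (Fin 2) (Fin 2) K) 0 j +
      (r g : Matrix (Fin 2) (Fin 2) K) k 1 * (S : Matrix (Fin 2) (Fin 2) K) 1 j := by
    intro k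
    have h := congrFun (congrFun hSTv k) j
    rwa [Matrix.mul_apply, Matrix.mul_apply, Fin.sum_univ_two, Fin.sum_univ_two] at h
  have hcol : (fun k => (S : Matrix (Fin 2) (Fin 2) K) k j) ∈ latS r := by
    rw [hSv]
    fin_cases j
    · refine (Set.mem_of_eq_of_mem ?_ hb)
      funext k
      fin_cases k <;> simp
    · refine (Set.mem_of_eq_of_mem ?_ hb'.1)
      funext k
      fin_cases k <;> simp
  have hx := latS_mul hcol g
  have e0 := hent 0
  have e1 := hent 1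
  have s00 : (S : Matrix (Fin 2) (Fin 2) K) 0 0 = b 0 := by rw [hSv]; simp
  have s01 : (S : Matrix (Fin 2) (Fin 2) K) 0 1 = 0 := by rw [hSv]; simp [hb'0]
  have s10 : (S : Matrix (Fin 2) (Fin 2) K) 1 0 = b 1 := by rw [hSv]; simp
  have s11 : (S : Matrix (Fin 2) (Fin 2) K) 1 1 = b' 1 := by rw [hSv]; simp
  have key := coord _ hx ((T : Matrix (Fin 2) (Fin 2) K) 0 j) ((T : Matrix (Fin 2) (Fin 2) K) 1 j)
    (by rw [← e0, s00, s01]; ring) (by rw [← e1, s10, s11])
  fin_cases i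
  · exact key.1
  · exact key.2

end Pool.Agent.PMD
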