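import Pool.Agent.PMD.LieA1

/-!
# Project PMD (MP_b583a4_nt), module LieA: `L n` is a Lie algebra over the ring `C`

PLAN. (`cspan_map` is in Cs.lean, the continuous additive maps `brR`, `brL` in Dat.lean.)
* `L_succ_le`: induction, `br_L0` for the first step. `L_anti`.
* `C_smul`: `c • br u v = br u (c • v)` (induction on `n`).
* `br_L`: induction on `m`: `br (br u w) v = br u (br w v) - br w (br u v)` (`jacobi`), for `u ∈ L 0`, `w ∈ L m`.
* `L_small`: entries of `th x = x - adj x` are `x 0 0 - x 1 1`, `2 x 0 1`, ...; `F.M` is closed; entries of `br u v` are sums of products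
  (`Matrix.mul_apply`, `Fin.sum_univ_two`); evaluation at an entry is a continuous additive map (`cspan_map`). `C_small` similarly.
-/

set_option autoImplicit false
open Filter Topology

namespace Pool.Agent.PMD.Dat

variable {p : ℕ} {B : Type*} [CommRing B] [TopologicalSpace B] [IsTopologicalRing B]
  {G : Type*} [Group G] [TopologicalSpace G] (d : Dat p B G)

theorem L_succ_le (n : ℕ) : d.L (n + 1) ≤ d.L n := by
  induction n with
  | zero =>
    rw [d.L_succ]
    refine cspan_le (d.L_closed 0) ?_
    rintro z ⟨u, hu, v, hv, rfl⟩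
    exact d.br_L0 hu hv
  | succ n ih =>
    rw [d.L_succ (n + 1)]
    refine cspan_le (d.L_closed (n + 1)) ?_
    rintro z ⟨u, hu, v, hv, rfl⟩
    exact d.br_mem n hu (ih hv)

theorem L_anti {m n : ℕ} (h : m ≤ n) : d.L n ≤ d.L m := by
  induction n, h using Nat.le_induction with
  | base => exact le_refl _
  | succ n _ ih => exact (d.L_succ_le n).trans ih

private def smulC (c : B) : Mt B →+ Mt B where
  toFun z := c • z
  map_zero' := smul_zero c
  map_add' a b := smul_add c a b

omit [TopologicalSpace B] [IsTopologicalRing B] in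
private theorem smul_br (c : B) (u v : Mt B) : c • br u v = br u (c • v) := by
  simp only [br, smul_sub, Matrix.mul_smul, Matrix.smul_mul]

private theorem smulC_continuous (c : B) : Continuous (smulC c) := by
  change Continuous fun z : Mt B => c • z
  exact continuous_const_smul c

theorem C_smul (n : ℕ) {c : B} {z : Mt B} (hc : c ∈ d.C) (hz : z ∈ d.L n) : c • z ∈ d.L n := by
  induction n generalizing z with
  | zero => exact d.C_smul_L0 hc hz
  | succ n ih =>
    rw [d.L_succ] at hz
    refine cspan_map (smulC c) (smulC_continuous c) (d.L_closed (n + 1)) ?_ hz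
    rintro s ⟨u, hu, v, hv, rfl⟩
    have h1 : smulC c (br u v) = br u (c • v) := smul_br c u v
    rw [h1]
    exact d.br_mem n hu (ih hv)

omit [TopologicalSpace B] [IsTopologicalRing B] in
private theorem jac2 (u w v : Mt B) : br (br u w) v = br u (br w v) - br w (br u v) := by
  rw [jacobi u w v]
  abel

theorem br_L (m n : ℕ) {u v : Mt B} (hu : u ∈ d.L m) (hv : v ∈ d.L n) : br u v ∈ d.L (m + n + 1) := by
  induction m generalizing u v n with
  | zero =>
    have h := d.br_mem n hu hv
    rwa [Nat.zero_add]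
  | succ m ih =>
    rw [d.L_succ] at hu
    refine cspan_map (brL v) (brL_continuous v) (d.L_closed (m + 1 + n + 1)) ?_ hu
    rintro s ⟨u, hu, w, hw, rfl⟩
    have h1 : brL v (br u w) = br u (br w v) - br w (br u v) := jac2 u w v
    rw [h1]
    refine AddSubgroup.sub_mem _ ?_ ?_
    · have h2 := d.br_mem _ hu (ih n hw hv)
      have e : m + 1 + n + 1 = m + n + 1 + 1 := by omega
      rwa [e]
    · have h2 := ih (n + 1) hw (d.br_mem n hu hv)
      have e : m + 1 + n + 1 = m + (n + 1) + 1 := by omega
      rwa [e]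

private def entry (B : Type*) [CommRing B] (i j : Fin 2) : Mt B →+ B where
  toFun z := z i j
  map_zero' := rfl
  map_add' _ _ := rfl

private theorem entry_continuous (i j : Fin 2) : Continuous (entry B i j) := by
  change Continuous fun z : Mt B => z i j
  exact (continuous_apply j).comp (continuous_apply i)

private theorem th_small {x : G} (hx : x ∈ d.D) (i j : Fin 2) : th (d.R x) i j ∈ d.F.M 1 := by
  have h := d.sm x hx
  have e : th (d.R x) = (d.R x - 1) - (d.R x - 1).adjugate := by
    obtain ⟨a, b, c, e, h⟩ := ex4 (d.R x)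
    rw [h]
    apply ext4 <;> simp [th, Matrix.adjugate_fin_two]
  rw [e, Matrix.adjugate_fin_two]
  fin_cases i <;> fin_cases j
  · exact AddSubgroup.sub_mem _ (h 0 0) (h 1 1)
  · exact AddSubgroup.sub_mem _ (h 0 1) (AddSubgroup.neg_mem _ (h 0 1))
  · exact AddSubgroup.sub_mem _ (h 1 0) (AddSubgroup.neg_mem _ (h 1 0))
  · exact AddSubgroup.sub_mem _ (h 1 1) (h 0 0)

omit [IsTopologicalRing B] in
private theorem mul_small (F : Filt p B) {m n : ℕ} {u v : Mt B} (hu : ∀ i j, u i j ∈ F.M m) (hv : ∀ i j, v i j ∈ F.M n)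
    (i j : Fin 2) : (u * v) i j ∈ F.M (m + n) := by
  rw [Matrix.mul_apply, Fin.sum_univ_two]
  exact AddSubgroup.add_mem _ (F.mul _ _ _ _ (hu _ _) (hv _ _)) (F.mul _ _ _ _ (hu _ _) (hv _ _))

theorem L_small (n : ℕ) {z : Mt B} (hz : z ∈ d.L n) (i j : Fin 2) : z i j ∈ d.F.M (n + 1) := by
  induction n generalizing z i j with
  | zero =>
    rw [d.L_zero] at hz
    refine cspan_map (entry B i j) (entry_continuous i j) (d.F.closed _) ?_ hz
    rintro s ⟨x, hx, rfl⟩
    exact th_small d hx i j
  | succ n ih =>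
    have h0 : ∀ u ∈ d.L0, ∀ i j, u i j ∈ d.F.M 1 := by
      intro u hu i j
      refine cspan_map (entry B i j) (entry_continuous i j) (d.F.closed _) ?_ hu
      rintro s ⟨x, hx, rfl⟩
      exact th_small d hx i j
    rw [d.L_succ] at hz
    refine cspan_map (entry B i j) (entry_continuous i j) (d.F.closed _) ?_ hz
    rintro s ⟨u, hu, v, hv, rfl⟩
    have h1 : (u * v) i j ∈ d.F.M (1 + (n + 1)) := mul_small d.F (h0 u hu) (fun i j => ih hv i j) i j
    have h2 : (v * u) i j ∈ d.F.M ((n + 1) + 1) := mul_small d.F (fun i j => ih hv i j) (h0 u hu) i j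
    rw [Nat.add_comm 1 (n + 1)] at h1
    exact AddSubgroup.sub_mem _ h1 h2

theorem C_small {c : B} (hc : c ∈ d.C) : c ∈ d.F.M 2 := by
  have h1 : d.C ≤ d.F.M 2 := by
    refine cspan_le (d.F.closed 2) ?_
    rintro c ⟨u, hu, v, hv, rfl⟩
    have h0 : ∀ i j, (u * v) i j ∈ d.F.M (1 + 1) :=
      mul_small d.F (fun i j => d.L_small 0 hu i j) (fun i j => d.L_small 0 hv i j)
    rw [Matrix.trace_fin_two]
    exact AddSubgroup.add_mem _ (h0 0 0) (h0 1 1)
  exact h1 hc

end Pool.Agent.PMD.Dat
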