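import Pool.Agent.PMD.Dat

/-!
# Project PMD (MP_b583a4_nt), module LieA1: `L 0` is a Lie algebra over the ring `C`

The identities of module Mx for generators extend to closed spans by `cspan_map`.
-/

set_option autoImplicit false
open Filter Topology

namespace Pool.Agent.PMD.Dat

variable {p : ℕ} {B : Type*} [CommRing B] [TopologicalSpace B] [IsTopologicalRing B]
  {G : Type*} [Group G] [TopologicalSpace G] (d : Dat p B G)

/-- multiplication by a scalar -/
private def smH (t : B) : Mt B →+ Mt B where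
  toFun z := t • z
  map_zero' := smul_zero _
  map_add' := smul_add _

private theorem smH_cont (t : B) : Continuous (smH t : Mt B → Mt B) :=
  continuous_const_smul t

/-- multiples of a matrix -/
private def smC (z : Mt B) : B →+ Mt B where
  toFun c := c • z
  map_zero' := zero_smul _ _
  map_add' _ _ := add_smul _ _ _

private theorem smC_cont (z : Mt B) : Continuous (smC z : B → Mt B) :=
  continuous_id.smul continuous_const

private def trL (z v : Mt B) : Mt B →+ Mt B where
  toFun u := (u * v).trace • z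
  map_zero' := by rw [zero_mul, Matrix.trace_zero, zero_smul]
  map_add' a b := by rw [add_mul, Matrix.trace_add, add_smul]

private theorem trL_cont (z v : Mt B) : Continuous (trL z v : Mt B → Mt B) := by
  show Continuous fun u : Mt B => (u * v).trace • z
  have h : Continuous fun u : Mt B => u * v := by fun_prop
  exact (Continuous.matrix_trace h).smul continuous_const

private def trR (z u : Mt B) : Mt B →+ Mt B where
  toFun v := (u * v).trace • z
  map_zero' := by rw [mul_zero, Matrix.trace_zero, zero_smul]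
  map_add' a b := by rw [mul_add, Matrix.trace_add, add_smul]

private theorem trR_cont (z u : Mt B) : Continuous (trR z u : Mt B → Mt B) := by
  show Continuous fun v : Mt B => (u * v).trace • z
  have h : Continuous fun v : Mt B => u * v := by fun_prop
  exact (Continuous.matrix_trace h).smul continuous_const

theorem adj_eq {x : G} (hx : x ∈ d.D) : (d.R x).adjugate = d.R x⁻¹ := by
  have h1 : d.R x * d.R x⁻¹ = 1 := by
    rw [← map_mul, mul_inv_cancel, map_one]
  have h2 : (d.R x).adjugate * d.R x = 1 := by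
    rw [Matrix.adjugate_mul, d.det x hx, one_smul]
  calc (d.R x).adjugate = (d.R x).adjugate * (d.R x * d.R x⁻¹) := by rw [h1, mul_one]
    _ = (d.R x).adjugate * d.R x * d.R x⁻¹ := by rw [mul_assoc]
    _ = d.R x⁻¹ := by rw [h2, one_mul]

theorem trace_zero [T2Space B] (n : ℕ) {z : Mt B} (hz : z ∈ d.L n) : z.trace = 0 := by
  have hc : Continuous (Matrix.traceAddMonoidHom (Fin 2) B) := by
    show Continuous fun z : Mt B => z.trace
    exact Continuous.matrix_trace continuous_id
  have hP : IsClosed ((⊥ : AddSubgroup B) : Set B) := by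
    rw [AddSubgroup.coe_bot]
    exact isClosed_singleton
  have h : Matrix.traceAddMonoidHom (Fin 2) B z ∈ (⊥ : AddSubgroup B) := by
    cases n with
    | zero =>
      refine cspan_map _ hc hP ?_ hz
      rintro s ⟨x, _, rfl⟩
      exact AddSubgroup.mem_bot.2 (th_trace _)
    | succ n =>
      refine cspan_map _ hc hP ?_ hz
      rintro s ⟨u, _, v, _, rfl⟩
      exact AddSubgroup.mem_bot.2 (br_trace _ _)
  exact AddSubgroup.mem_bot.1 h

theorem tr_smul {x : G} (hx : x ∈ d.D) {z : Mt B} (hz : z ∈ d.L 0) : (d.R x).trace • z ∈ d.L 0 := by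
  refine cspan_map (smH (d.R x).trace) (smH_cont _) (d.L_closed 0) ?_ hz
  rintro s ⟨y, hy, rfl⟩
  show (d.R x).trace • th (d.R y) ∈ d.L 0
  rw [← th_mul_add, d.adj_eq hx, ← map_mul, ← map_mul]
  exact (d.L 0).add_mem (d.th_mem (d.D.mul_mem hx hy)) (d.th_mem (d.D.mul_mem (d.D.inv_mem hx) hy))

theorem br_L0 {u v : Mt B} (hu : u ∈ d.L 0) (hv : v ∈ d.L 0) : br u v ∈ d.L 0 := by
  have h1 : ∀ y ∈ d.D, ∀ u ∈ d.L 0, br u (th (d.R y)) ∈ d.L 0 := by
    intro y hy u hu
    refine cspan_map (brL (th (d.R y))) (brL_continuous _) (d.L_closed 0) ?_ hu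
    rintro s ⟨x, hx, rfl⟩
    show br (th (d.R x)) (th (d.R y)) ∈ d.L 0
    rw [br_th, two_smul, ← map_mul, ← map_mul]
    have h2 : th (d.R (x * y)) - th (d.R (y * x)) ∈ d.L 0 :=
      (d.L 0).sub_mem (d.th_mem (d.D.mul_mem hx hy)) (d.th_mem (d.D.mul_mem hy hx))
    exact (d.L 0).add_mem h2 h2
  refine cspan_map (brR u) (brR_continuous _) (d.L_closed 0) ?_ hv
  rintro s ⟨y, hy, rfl⟩
  exact h1 y hy u hu

theorem C_smul_L0 {c : B} {z : Mt B} (hc : c ∈ d.C) (hz : z ∈ d.L 0) : c • z ∈ d.L 0 := by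
  have h1 : ∀ x ∈ d.D, ∀ y ∈ d.D, (th (d.R x) * th (d.R y)).trace • z ∈ d.L 0 := by
    intro x hx y hy
    rw [trace_th_mul, d.adj_eq hx, ← map_mul, ← map_mul, mul_smul, two_smul, sub_smul]
    have h2 : (d.R (x * y)).trace • z - (d.R (x⁻¹ * y)).trace • z ∈ d.L 0 :=
      (d.L 0).sub_mem (d.tr_smul (d.D.mul_mem hx hy) hz)
        (d.tr_smul (d.D.mul_mem (d.D.inv_mem hx) hy) hz)
    exact (d.L 0).add_mem h2 h2
  have h3 : ∀ y ∈ d.D, ∀ u ∈ d.L 0, (u * th (d.R y)).trace • z ∈ d.L 0 := by
    intro y hy u hu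
    refine cspan_map (trL z (th (d.R y))) (trL_cont _ _) (d.L_closed 0) ?_ hu
    rintro s ⟨x, hx, rfl⟩
    exact h1 x hx y hy
  have h4 : ∀ u ∈ d.L 0, ∀ v ∈ d.L 0, (u * v).trace • z ∈ d.L 0 := by
    intro u hu v hv
    refine cspan_map (trR z u) (trR_cont _ _) (d.L_closed 0) ?_ hv
    rintro s ⟨y, hy, rfl⟩
    exact h3 y hy u hu
  refine cspan_map (smC z) (smC_cont z) (d.L_closed 0) ?_ hc
  rintro s ⟨u, hu, v, hv, rfl⟩
  exact h4 u hu v hv

theorem C_mul {c c' : B} (hc : c ∈ d.C) (hc' : c' ∈ d.C) : c * c' ∈ d.C := by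
  refine cspan_map (AddMonoidHom.mulLeft c) (continuous_const.mul continuous_id) d.C_closed ?_ hc'
  rintro s ⟨u, hu, v, hv, rfl⟩
  show c * (u * v).trace ∈ d.C
  have h1 : c * (u * v).trace = ((c • u) * v).trace := by
    rw [smul_mul_assoc, Matrix.trace_smul, smul_eq_mul]
  rw [h1]
  exact d.tr_mem (d.C_smul_L0 hc hu) hv

end Pool.Agent.PMD.Dat
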