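import Pool.Agent.PMD.LieA

/-!
# Project PMD (MP_b583a4_nt), module LieB: `C L_n ⊂ L_(n+2)` for `n ≥ 1`

For `u, v, x, y ∈ L 0` put `a(u,y;v,x) = tr (u y) • br v x`. `br x (br y (br u v)) ∈ L 3`, so `br_br_br` (all of `L 0` has trace zero) gives
`2 (a(u,y;v,x) - a(v,y;u,x)) ∈ L 3` (note `br x u = - br u x`), so `a(u,y;v,x) - a(v,y;u,x) ∈ L 3` (`F.half_mem`, `half • 2 • z = z` by `half_two`).
With `a(u,y;v,x) = a(y,u;v,x)` (`Matrix.trace_mul_comm`) and `a(u,y;v,x) = -a(u,y;x,v)` this gives modulo `L 3`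
`a(1,2;3,4) = a(3,2;1,4) = -a(3,2;4,1) = -a(4,2;3,1) = a(4,2;1,3) = a(1,2;4,3) = -a(1,2;3,4)`,
so `2 a ∈ L 3`, `a ∈ L 3`. Then `cspan_map` (in `c`, in `z`; `L 1` is the closed span of `br v x`, `v ∈ L0`, `x ∈ L 0`) gives `C_smul_L1`.
`C_smul_Ls`: induction on `n`, `c • br u w = br u (c • w)`.
-/

set_option autoImplicit false
open Filter Topology

namespace Pool.Agent.PMD.Dat

variable {p : ℕ} {B : Type*} [CommRing B] [TopologicalSpace B] [IsTopologicalRing B] [T2Space B]
  {G : Type*} [Group G] [TopologicalSpace G] (d : Dat p B G)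

/-- multiplication of a fixed matrix by a scalar -/
private def smL (z : Mt B) : B →+ Mt B where
  toFun c := c • z
  map_zero' := zero_smul _ _
  map_add' a b := add_smul a b z

/-- multiplication by a fixed scalar -/
private def smR (c : B) : Mt B →+ Mt B where
  toFun z := c • z
  map_zero' := smul_zero _
  map_add' a b := smul_add c a b

omit [T2Space B] in
private theorem smL_continuous (z : Mt B) : Continuous (smL z) := by
  change Continuous fun c : B => c • z
  fun_prop

omit [T2Space B] in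
private theorem smR_continuous (c : B) : Continuous (smR c) := by
  change Continuous fun z : Mt B => c • z
  fun_prop

private theorem halve (hodd : Odd p) (n : ℕ) {z : Mt B} (hz : (2 : B) • z ∈ d.L n) : z ∈ d.L n := by
  have h1 := d.F.half_mem hodd (d.L_closed n) hz
  rw [smul_smul, d.F.half_two, one_smul] at h1
  exact h1

private theorem swap (hodd : Odd p) {u v x y : Mt B} (hu : u ∈ d.L0) (hv : v ∈ d.L0) (hx : x ∈ d.L0)
    (hy : y ∈ d.L0) : (u * y).trace • br v x - (v * y).trace • br u x ∈ d.L 3 := by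
  have h1 : br x (br y (br u v)) ∈ d.L 3 := d.br_mem 2 hx (d.br_mem 1 hy (d.br_mem 0 hu hv))
  rw [br_br_br x y u v (d.trace_zero 0 hx) (d.trace_zero 0 hy) (d.trace_zero 0 hu) (d.trace_zero 0 hv)] at h1
  have h2 := halve d hodd 3 (neg_mem_iff.1 h1)
  have h3 : br x u = - br u x := by
    simp only [br]
    noncomm_ring
  rw [h3, smul_neg, ← sub_eq_add_neg] at h2
  exact h2

private theorem a_mem (hodd : Odd p) {u v x y : Mt B} (hu : u ∈ d.L0) (hv : v ∈ d.L0) (hx : x ∈ d.L0)
    (hy : y ∈ d.L0) : (u * y).trace • br v x ∈ d.L 3 := by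
  have s1 := swap d hodd hu hv hx hy
  have s2 := swap d hodd hv hx hu hy
  have s3 := swap d hodd hx hu hv hy
  have e : ∀ a b : Mt B, br a b = - br b a := by
    intro a b
    simp only [br]
    noncomm_ring
  have h : (2 : B) • ((u * y).trace • br v x) =
      ((u * y).trace • br v x - (v * y).trace • br u x) - ((v * y).trace • br x u - (x * y).trace • br v u) +
        ((x * y).trace • br u v - (u * y).trace • br x v) := by
    rw [e x u, e v u, e x v, two_smul]
    simp only [smul_neg]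
    abel
  refine halve d hodd 3 ?_
  rw [h]
  exact add_mem (sub_mem s1 s2) s3

theorem C_smul_L1 (hodd : Odd p) {c : B} {z : Mt B} (hc : c ∈ d.C) (hz : z ∈ d.L 1) : c • z ∈ d.L 3 := by
  have h1 : ∀ v ∈ d.L0, ∀ x ∈ d.L 0, c • br v x ∈ d.L 3 := by
    intro v hv x hx
    refine cspan_map (smL (br v x)) (smL_continuous _) (d.L_closed 3) ?_ hc
    rintro _ ⟨u, hu, y, hy, rfl⟩
    exact a_mem d hodd hu hv hx hy
  refine cspan_map (smR c) (smR_continuous c) (d.L_closed 3) ?_ (by rw [d.L_succ] at hz; exact hz)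
  rintro _ ⟨v, hv, x, hx, rfl⟩
  exact h1 v hv x hx

theorem C_smul_Ls (hodd : Odd p) (n : ℕ) {c : B} {z : Mt B} (hc : c ∈ d.C) (hz : z ∈ d.L (n + 1)) :
    c • z ∈ d.L (n + 3) := by
  induction n generalizing z with
  | zero => exact d.C_smul_L1 hodd hc hz
  | succ n ih =>
    refine cspan_map (smR c) (smR_continuous c) (d.L_closed (n + 1 + 3)) ?_ (by rw [d.L_succ] at hz; exact hz)
    rintro _ ⟨u, hu, w, hw, rfl⟩
    have h1 : smR c (br u w) = br u (c • w) := by
      change c • br u w = br u (c • w)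
      simp only [br, smul_sub, mul_smul_comm, smul_mul_assoc]
    rw [h1]
    exact d.br_mem (n + 3) hu (ih hw)

end Pool.Agent.PMD.Dat
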