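import Pool.Agent.PMD.Surj

/-!
# Project PMD (MP_b583a4_nt), module Lim: `H 1 = R(Γ 1)` (Pink's theorem)

PLAN. (1) For `x ∈ H 1` and all `k` there is `g ∈ Γ 1` with `(R g).adjugate * x ∈ H (k+1)`: induction; `k = 0`: `g = 1`. Given `g`, put `h = (R g).adjugate * x ∈ H (k+1)`; take `y ∈ Γ (k+1) ≤ Γ 1`
with `th (R y) - th h ∈ L (k+2)` (`surj`); then `(R (g y)).adjugate * x = (R y).adjugate * h ∈ H (k+1)`, and by `H_add`, `th_adj` its `th` is `th h - th (R y)` modulo `L (k+2)`, so it is in `H (k+2)`.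
(2) The elements of `H (k+1)` tend to `1`: let `h ∈ H (k+1)`, `t = tr h - 2 ∈ C ⊂ M 2` (`C_small`), `w = th h` with entries in `M (k+2)` (`L_small`). `trace_th_sq`: `tr (w * w) = 2 (tr h ^ 2 - 4) = 2 (t ^ 2 + 4 t)`, so
`8 t = tr (w w) - 2 t^2`; if `t ∈ M j`, `j ≥ 1`, then `t^2 ∈ M (2j)`, so `8 t ∈ M (min (2k+4) (j+1))`, and `t` too (`F.half_mem`, `F.closed`). Hence `t ∈ M (k+2)`. `2 (h - 1) = t • 1 + w` (`th_eq`), so the
entries of `h - 1` are in `M (k+2)`. (3) With `g_k` from (1): `x = R (g_k) * h_k` (`Matrix.mul_adjugate`, `det (R g) = 1`), `h_k → 1` (`F.small`), so `R (g_k)⁻¹ x → 1`; a cluster point `g ∈ Γ 1` of `g_k` (compact) has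
`(R g).adjugate * x = 1` (the map `g ↦ (R g⁻¹) * x` is continuous), so `R g = x`.
-/

set_option autoImplicit false
open Filter Topology

namespace Pool.Agent.PMD.Dat

variable {p : ℕ} {B : Type*} [CommRing B] [TopologicalSpace B] [IsTopologicalRing B] [T2Space B]
  {G : Type*} [Group G] [TopologicalSpace G] [IsTopologicalGroup G] [CompactSpace G] (d : Dat p B G)

private theorem step1 (hodd : Odd p) {x : Mt B} (hx : x ∈ d.H 1) (k : ℕ) :
    ∃ g ∈ d.Γ 1, (d.R g).adjugate * x ∈ d.H (k + 1) := by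
  induction k with
  | zero =>
    refine ⟨1, one_mem _, ?_⟩
    rw [map_one, Matrix.adjugate_one, one_mul]
    exact hx
  | succ k ih =>
    obtain ⟨g, hg, hh⟩ := ih
    obtain ⟨y, hy, hyL⟩ := d.surj hodd k hh.2.1
    have hle : ∀ m, d.Γ (m + 1) ≤ d.Γ 1 := by
      intro m
      induction m with
      | zero => exact le_rfl
      | succ m ih => exact (d.Γ_le (m + 1)).trans ih
    refine ⟨g * y, mul_mem hg (hle k hy), ?_⟩
    have hRy := d.R_mem hodd (k + 1) hy
    have hRy' := d.H_adj hRy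
    have e : (d.R (g * y)).adjugate * x = (d.R y).adjugate * ((d.R g).adjugate * x) := by
      rw [map_mul, Matrix.adjugate_mul_distrib, Matrix.mul_assoc]
    rw [e]
    have h1 := d.H_mul hodd hRy' hh
    have h2 := d.H_add hodd hRy' hh
    refine ⟨h1.1, ?_, h1.2.2⟩
    rw [th_adj] at h2
    have h3 : th ((d.R y).adjugate * ((d.R g).adjugate * x)) =
        (th ((d.R y).adjugate * ((d.R g).adjugate * x)) -
          (-th (d.R y) + th ((d.R g).adjugate * x))) -
        (th (d.R y) - th ((d.R g).adjugate * x)) := by abel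
    rw [h3]
    exact (d.L _).sub_mem h2 hyL

omit [IsTopologicalGroup G] [CompactSpace G] in
private theorem halfB (hodd : Odd p) (n : ℕ) {a : B} (h : 2 * a ∈ d.F.M n) : a ∈ d.F.M n := by
  have h1 := d.F.half_mem hodd (d.F.closed n) h
  rwa [smul_eq_mul, ← mul_assoc, d.F.half_two, one_mul] at h1

private theorem step2 (hodd : Odd p) (k : ℕ) {h : Mt B} (hh : h ∈ d.H (k + 1)) (i j : Fin 2) :
    (h - 1) i j ∈ d.F.M (k + 2) := by
  have hw : ∀ i j, th h i j ∈ d.F.M (k + 2) := fun i j => d.L_small (k + 1) hh.2.1 i j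
  have ht2 : h.trace - 2 ∈ d.F.M 2 := d.C_small hh.2.2
  have hsq := trace_th_sq h hh.1
  have htw : (th h * th h).trace ∈ d.F.M (k + 2 + (k + 2)) := by
    rw [Matrix.trace_fin_two, Matrix.mul_apply, Matrix.mul_apply, Fin.sum_univ_two,
      Fin.sum_univ_two]
    exact add_mem (add_mem (d.F.mul _ _ _ _ (hw _ _) (hw _ _)) (d.F.mul _ _ _ _ (hw _ _) (hw _ _)))
      (add_mem (d.F.mul _ _ _ _ (hw _ _) (hw _ _)) (d.F.mul _ _ _ _ (hw _ _) (hw _ _)))
  have ht : ∀ m, m + 1 ≤ k + 2 → h.trace - 2 ∈ d.F.M (m + 1) := by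
    intro m
    induction m with
    | zero => exact fun _ => d.F.anti _ _ (by omega) ht2
    | succ m ih =>
      intro hm
      have h1 := ih (by omega)
      have h2 : (h.trace - 2) * (h.trace - 2) ∈ d.F.M (m + 1 + (m + 1)) := d.F.mul _ _ _ _ h1 h1
      have h3 : (h.trace - 2) * (h.trace - 2) ∈ d.F.M (m + 1 + 1) := d.F.anti _ _ (by omega) h2
      have h4 : (th h * th h).trace ∈ d.F.M (m + 1 + 1) := d.F.anti _ _ (by omega) htw
      apply d.halfB hodd
      apply d.halfB hodd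
      apply d.halfB hodd
      have h5 : 2 * (2 * (2 * (h.trace - 2))) = (th h * th h).trace -
          ((h.trace - 2) * (h.trace - 2) + (h.trace - 2) * (h.trace - 2)) := by
        rw [hsq]; ring
      rw [h5]
      exact sub_mem h4 (add_mem h3 h3)
  have ht' := ht (k + 1) (by omega)
  apply d.halfB hodd
  have h6 : 2 * (h - 1) i j = (h.trace - 2) * (1 : Mt B) i j + th h i j := by
    rw [th_eq]
    simp only [Matrix.sub_apply, Matrix.smul_apply, smul_eq_mul]
    ring
  rw [h6]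
  refine add_mem ?_ (hw i j)
  rw [Matrix.one_apply]
  split_ifs
  · rw [mul_one]; exact ht'
  · rw [mul_zero]; exact zero_mem _

/-- Pink's theorem for the commutator group -/
theorem exists_of_mem_H1 (hodd : Odd p) {x : Mt B} (hx : x ∈ d.H 1) : ∃ g ∈ d.Γ 1, d.R g = x := by
  have hR := d.cR
  have hcf : Continuous fun g : G => (d.R g).adjugate * x := by fun_prop
  have hS : ∀ n : ℕ, IsClosed {g : G | g ∈ d.Γ 1 ∧ ∀ i j, ((d.R g).adjugate * x - 1) i j ∈ d.F.M n} := by
    intro n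
    refine (d.Γ_closed 1).inter ?_
    have e : {g : G | ∀ i j, ((d.R g).adjugate * x - 1) i j ∈ d.F.M n} =
        ⋂ i, ⋂ j, (fun g : G => ((d.R g).adjugate * x - 1) i j) ⁻¹' (d.F.M n : Set B) := by
      ext g
      simp
    change IsClosed {g : G | ∀ i j, ((d.R g).adjugate * x - 1) i j ∈ d.F.M n}
    rw [e]
    refine isClosed_iInter fun i => isClosed_iInter fun j => (d.F.closed n).preimage ?_
    exact (hcf.sub continuous_const).matrix_elem i j
  have hne := IsCompact.nonempty_iInter_of_sequence_nonempty_isCompact_isClosed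
    (fun n : ℕ => {g : G | g ∈ d.Γ 1 ∧ ∀ i j, ((d.R g).adjugate * x - 1) i j ∈ d.F.M n})
    (by
      rintro n g ⟨h1, h2⟩
      exact ⟨h1, fun i j => d.F.anti _ _ (by omega) (h2 i j)⟩)
    (by
      intro n
      obtain ⟨g, hg, hh⟩ := d.step1 hodd hx n
      exact ⟨g, hg, fun i j => d.F.anti _ _ (by omega) (d.step2 hodd n hh i j)⟩)
    ((hS 0).isCompact) hS
  obtain ⟨g, hg⟩ := hne
  rw [Set.mem_iInter] at hg
  refine ⟨g, (hg 0).1, ?_⟩
  have h0 : ∀ a : B, (∀ n, a ∈ d.F.M n) → a = 0 := by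
    intro a ha
    by_contra hne
    have : ({a}ᶜ : Set B) ∈ 𝓝 (0 : B) := isOpen_compl_singleton.mem_nhds (Ne.symm hne)
    obtain ⟨n, hn⟩ := d.F.small _ this
    exact hn (ha n) rfl
  have h1 : (d.R g).adjugate * x = 1 := by
    ext i j
    have := h0 _ (fun n => (hg n).2 i j)
    rwa [Matrix.sub_apply, sub_eq_zero] at this
  have hdet := d.det g (d.Γ_le_D 1 (hg 0).1)
  have h2 : d.R g * ((d.R g).adjugate * x) = d.R g := by rw [h1, mul_one]
  rw [← Matrix.mul_assoc, Matrix.mul_adjugate, hdet, one_smul, one_mul] at h2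
  exact h2.symm

end Pool.Agent.PMD.Dat
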