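import Pool.Agent.PMD.Defs
import Pool.Agent.PMD.DualB

/-!
# Project PMD (MP_b583a4_nt), module LimOf: from additive relations to limits

PLAN. Let `ε > 0`; apply `h` with `ε' = ε * ‖(3 : E)‖` (`3 ≠ 0` in `E`, `‖3‖ ≤ 1`: `E` is an ultrametric normed algebra over `ℚ_p`) to `f i g = charEnd (r i) g - 1`, `f₀ g = charEnd V g - 1`. `dualA`, `dualB` give `lam i` with `‖f₀ g - ∑ lam i (f i g)‖ < ε'` for all `g`
(`‖f i g‖ ≤ 1`, `QuotientAddGroup.eq`). For `g = 1`: `f₀ 1 = 3`, `f i 1 = 3` (`charEnd ρ 1 = 2 * 2`), so `‖3‖ * ‖1 - ∑ lam i 1‖ < ε'` (`lam i 3 = 3 • lam i 1`), `‖1 - ∑ lam i 1‖ < ε`. Then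
`charEnd V g - ∑ lam i (charEnd (r i) g) = (f₀ g - ∑ lam i (f i g)) + (1 - ∑ lam i 1)`; ultrametric inequality.
-/

set_option autoImplicit false
open Filter Topology

namespace Pool.Agent.PMD

private theorem charEnd_one {K : Type*} [Field K] {G : Type*} [Group G] (ρ : G →* GL (Fin 2) K) :
    charEnd ρ 1 - 1 = 1 + 1 + 1 := by
  unfold charEnd
  rw [map_one, inv_one, Units.val_one, Matrix.trace_one, Fintype.card_fin]
  norm_num

theorem isLimit_of (p : ℕ) [Fact p.Prime] {E : Type*} [NontriviallyNormedField E] [IsUltrametricDist E]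
    [NormedAlgebra ℚ_[p] E] {G : Type*} [Group G] (V : G →* GL (Fin 2) E) {I : Type*} {K : I → Type*}
    [∀ i, NontriviallyNormedField (K i)] [∀ i, IsUltrametricDist (K i)] [∀ i, NormedAlgebra ℚ_[p] (K i)]
    [∀ i, FiniteDimensional ℚ_[p] (K i)] (r : ∀ i, G →* GL (Fin 2) (K i))
    (hb : ∀ i g, ‖charEnd (r i) g - 1‖ ≤ 1)
    (h : ∀ ε : ℝ, 0 < ε → ∃ (s : Finset I) (δ : ℝ), 0 < δ ∧ ∀ a : G →₀ ℤ,
      (∀ i ∈ s, ‖a.sum fun g n => (n : K i) * (charEnd (r i) g - 1)‖ < δ) →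
      ‖a.sum fun g n => (n : E) * (charEnd V g - 1)‖ < ε) : IsLimit p V r := by
  intro ε hε
  have : CharZero E := charZero_of_injective_algebraMap (algebraMap ℚ_[p] E).injective
  have h3 : (3 : E) ≠ 0 := by norm_num
  have h30 : 0 < ‖(3 : E)‖ := norm_pos_iff.2 h3
  have h31 : ‖(3 : E)‖ ≤ 1 := by
    have := IsUltrametricDist.norm_natCast_le_one E 3
    simpa using this
  have hε' : 0 < ε * ‖(3 : E)‖ := mul_pos hε h30
  obtain ⟨s, δ, hδ, ha⟩ := h _ hε'
  obtain ⟨ψ, hψ0, hψ⟩ := dualA p (f := fun i g => charEnd (r i) g - 1)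
    (f₀ := fun g => charEnd V g - 1) hε' s hδ ha
  have hlam := fun i => dualB p hε' hδ (ψ i) (hψ0 i)
  choose lam hlam using hlam
  have key : ∀ g : G, ‖(charEnd V g - 1) - ∑ i ∈ s, lam i (charEnd (r i) g - 1)‖ < ε * ‖(3 : E)‖ := by
    intro g
    have h1 : (QuotientAddGroup.mk (∑ i ∈ s, lam i (charEnd (r i) g - 1)) : E ⧸ ball E _ hε') =
        QuotientAddGroup.mk (charEnd V g - 1) := by
      rw [hψ g]
      rw [← QuotientAddGroup.coe_mk', map_sum]
      refine Finset.sum_congr rfl fun i _ => ?_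
      exact hlam i _ (hb i g)
    have h2 := QuotientAddGroup.eq.1 h1
    have h4 : ‖-(∑ i ∈ s, lam i (charEnd (r i) g - 1)) + (charEnd V g - 1)‖ < ε * ‖(3 : E)‖ := h2
    rwa [neg_add_eq_sub] at h4
  have hone : ‖1 - ∑ i ∈ s, lam i 1‖ < ε := by
    have h1 := key 1
    have e : (charEnd V 1 - 1) - ∑ i ∈ s, lam i (charEnd (r i) 1 - 1) =
        3 * (1 - ∑ i ∈ s, lam i 1) := by
      rw [charEnd_one, mul_sub, Finset.mul_sum]
      congr 1
      · norm_num
      · refine Finset.sum_congr rfl fun i _ => ?_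
        rw [charEnd_one, map_add, map_add]
        ring
    rw [e, norm_mul, mul_comm ε] at h1
    exact lt_of_mul_lt_mul_left h1 h30.le
  refine ⟨s, lam, fun g => ?_⟩
  have e : charEnd V g - ∑ i ∈ s, lam i (charEnd (r i) g) =
      ((charEnd V g - 1) - ∑ i ∈ s, lam i (charEnd (r i) g - 1)) + (1 - ∑ i ∈ s, lam i 1) := by
    have h5 : ∑ i ∈ s, lam i (charEnd (r i) g - 1) =
        ∑ i ∈ s, lam i (charEnd (r i) g) - ∑ i ∈ s, lam i 1 := by
      rw [← Finset.sum_sub_distrib]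
      exact Finset.sum_congr rfl fun i _ => map_sub _ _ _
    rw [h5]
    ring
  rw [e]
  refine (IsUltrametricDist.norm_add_le_max _ _).trans_lt (max_lt ((key g).trans_le ?_) hone)
  calc ε * ‖(3 : E)‖ ≤ ε * 1 := mul_le_mul_of_nonneg_left h31 hε.le
    _ = ε := mul_one ε

end Pool.Agent.PMD
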