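import Pool.Agent.PMD.Defs2
import Pool.Agent.PMD.LimOf

/-!
# Project PMD (MP_b583a4_nt), module LimHom: a point of the Hecke algebra is a limit

Continuity at `0` in the product topology gives the hypothesis of `isLimit_of`.
-/

set_option autoImplicit false
open Filter Topology

namespace Pool.Agent.PMD

theorem limit_of_point (p : ℕ) [Fact p.Prime] {E : Type*} [NontriviallyNormedField E] [IsUltrametricDist E]
    [NormedAlgebra ℚ_[p] E] {G : Type*} [Group G] (V : G →* GL (Fin 2) E) {I : Type*} {K : I → Type*}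
    [∀ i, NontriviallyNormedField (K i)] [∀ i, IsUltrametricDist (K i)] [∀ i, NormedAlgebra ℚ_[p] (K i)]
    [∀ i, FiniteDimensional ℚ_[p] (K i)] (r : ∀ i, G →* GL (Fin 2) (K i))
    (hb : ∀ i g, ‖charEnd (r i) g - 1‖ ≤ 1) (h : IsPoint V r) : IsLimit p V r := by
  classical
  obtain ⟨θ, hθ, hθg⟩ := h
  refine isLimit_of p V r hb fun ε hε => ?_
  obtain ⟨χ, hχ⟩ : ∃ χ : G → hecke r, ∀ g, ((χ g : hecke r) : ∀ i, K i) = fun i => charEnd (r i) g :=
    ⟨fun g => ⟨fun i => charEnd (r i) g, Subring.le_topologicalClosure _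
      (Subring.subset_closure ⟨g, rfl⟩)⟩, fun _ => rfl⟩
  -- a neighbourhood of zero
  have h1 : {t : hecke r | ‖θ t‖ < ε} ∈ 𝓝 (0 : hecke r) := by
    have h2 : Tendsto (fun t : hecke r => ‖θ t‖) (𝓝 0) (𝓝 ‖θ 0‖) :=
      (continuous_norm.comp hθ).tendsto 0
    rw [map_zero, norm_zero] at h2
    exact h2.eventually (gt_mem_nhds hε)
  rw [nhds_subtype_eq_comap, mem_comap] at h1
  obtain ⟨U, hU, hUs⟩ := h1
  rw [nhds_pi, Filter.mem_pi] at hU
  obtain ⟨J, hJ, T, hT, hTU⟩ := hU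
  have h3 : ∀ i, ∃ δ : ℝ, 0 < δ ∧ Metric.ball (0 : K i) δ ⊆ T i := fun i =>
    Metric.mem_nhds_iff.1 (hT i)
  choose δf hδ0 hδT using h3
  obtain ⟨δ, hδ, hδle⟩ : ∃ δ : ℝ, 0 < δ ∧ ∀ i ∈ hJ.toFinset, δ ≤ δf i := by
    generalize hJ.toFinset = s
    induction s using Finset.induction_on with
    | empty => exact ⟨1, one_pos, fun i hi => absurd hi (Finset.notMem_empty i)⟩
    | insert i s _ ih =>
      obtain ⟨δ, hδ, h4⟩ := ih
      refine ⟨min δ (δf i), lt_min hδ (hδ0 i), fun j hj => ?_⟩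
      rcases Finset.mem_insert.1 hj with rfl | hj
      · exact min_le_right _ _
      · exact (min_le_left _ _).trans (h4 j hj)
  refine ⟨hJ.toFinset, δ, hδ, fun a ha => ?_⟩
  obtain ⟨t, ht⟩ : ∃ t : hecke r, t = a.sum fun g n => (n : hecke r) * (χ g - 1) := ⟨_, rfl⟩
  have e1 : ∀ i, (t : ∀ i, K i) i = a.sum fun g n => (n : K i) * (charEnd (r i) g - 1) := by
    intro i
    have e2 : (t : ∀ i, K i) i = ((Pi.evalRingHom K i).comp (hecke r).subtype) t := rfl
    rw [e2, ht, map_finsuppSum]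
    refine Finsupp.sum_congr fun g _ => ?_
    rw [map_mul, map_sub, map_one, map_intCast]
    congr 2
    show ((χ g : hecke r) : ∀ i, K i) i = _
    rw [hχ g]
  have e3 : θ t = a.sum fun g n => (n : E) * (charEnd V g - 1) := by
    rw [ht, map_finsuppSum]
    refine Finsupp.sum_congr fun g _ => ?_
    rw [map_mul, map_sub, map_one, map_intCast, hθg g (χ g) (hχ g)]
  rw [← e3]
  have h5 : t ∈ {t : hecke r | ‖θ t‖ < ε} := by
    refine hUs (hTU ?_)
    intro i hi
    refine hδT i ?_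
    rw [Metric.mem_ball, dist_zero_right, e1 i]
    exact (ha i (hJ.mem_toFinset.2 hi)).trans_le (hδle i (hJ.mem_toFinset.2 hi))
  exact h5

end Pool.Agent.PMD
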