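import Pool.Agent.PMD.Defs
import Pool.Agent.PMD.CommN

/-!
# Project PMD (MP_b583a4_nt), module LimInd: a limit is not independent

PLAN. Let `U = ⊤` in `Indep`, `W` the neighbourhood, `W' = W ∩ {a | a.trace ≠ -2}` (a neighbourhood of `1`: `tr 1 = 2 ≠ -2`). Take an open normal subgroup `U'` with `V ⁅x, y⁆ ∈ W'`... more precisely (continuity of `V` at `1`) an open subgroup `U'` with `V u ∈ W'` for all
`u ∈ U'`. Let `D = (⁅U', U'⁆).topologicalClosure` or just `⁅U', U'⁆ ≤ U'` (a subgroup on which `det V = 1`). For `x ∈ ⁅U', U'⁆` there is `g'` with `V g' = V x` and all `r i g' = 1`, so `charEnd (r i) g' = 4 = charEnd (r i) 1`, and `IsLimit` for all `ε` gives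
`charEnd V x = charEnd V g' = charEnd V 1 = 4` (both are within `ε` of the same sum). As `det V(x) = 1`, `tr V(x)⁻¹ = tr V(x)` (adjugate), so `(tr V x)^2 = 4`, so `tr V x = 2` (`V x ∈ W'`). So `tr (V x * V y) = 2 = tr (V y)` for `x, y ∈ ⁅U', U'⁆`. These `V y` span
`M_2(E)`: `⁅U', U'⁆` is normal when `U'` is (take `U'` normal), nonscalar (`comm_ns` gives a nonscalar element of the closure; scalar elements are closed under limits, or use the proof of `comm_ns`), and `span_inf` with `U = ⊤`. So `tr ((V x - 1) * a) = 0` for all `a`, so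
`V x = 1` for all `x ∈ ⁅U', U'⁆`: contradiction to nonscalar. (Working with `D = (⁅U', U'⁆).topologicalClosure ≤ U'` throughout avoids the limit argument: `D ≤ U'` because `U'` is closed, `det_comm`.)
`not_indep_of_scalar`: see the last part of the proof of `dichotomy` in Helper37/Fd/MainD.lean (`exists_nonscalar`).
-/

set_option autoImplicit false
open Filter Topology

namespace Pool.Agent.PMD

open Pool.Agent.Helper27.FM

variable (p : ℕ) [hp : Fact p.Prime] {E : Type*} [NontriviallyNormedField E]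
  [IsUltrametricDist E] [NormedAlgebra ℚ_[p] E] [FiniteDimensional ℚ_[p] E] {G : Type*} [Group G]
  [TopologicalSpace G] [IsTopologicalGroup G] [CompactSpace G] [TotallyDisconnectedSpace G]
  {V : G →* GL (Fin 2) E} (hV : Continuous V) (hirr : StronglyIrreducible V)
  {I : Type*} {K : I → Type*} [∀ i, NontriviallyNormedField (K i)] [∀ i, NormedAlgebra ℚ_[p] (K i)]
  (r : ∀ i, G →* GL (Fin 2) (K i))

omit [FiniteDimensional ℚ_[p] E] [TopologicalSpace G] [IsTopologicalGroup G] [CompactSpace G]
  [TotallyDisconnectedSpace G] [IsUltrametricDist E] in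
private theorem charEnd_eq_four (hL : IsLimit p V r) {g : G} (h : ∀ i, r i g = 1) :
    charEnd V g = 4 := by
  have h1 : charEnd V (1 : G) = 4 := by
    rw [charEnd, map_one, inv_one, Units.val_one, Matrix.trace_one, Fintype.card_fin]
    norm_num
  have h2 : ∀ ε : ℝ, 0 < ε → ‖charEnd V g - charEnd V 1‖ ≤ ε := by
    intro ε hε
    obtain ⟨s, lam, hs⟩ := hL (ε / 2) (half_pos hε)
    have e : ∑ i ∈ s, lam i (charEnd (r i) g) = ∑ i ∈ s, lam i (charEnd (r i) 1) := by
      refine Finset.sum_congr rfl fun i _ => ?_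
      rw [charEnd, charEnd, h i, map_one]
    have a1 := hs g
    have a2 := hs 1
    rw [e] at a1
    have a3 : charEnd V g - charEnd V 1 = (charEnd V g - ∑ i ∈ s, lam i (charEnd (r i) 1)) -
        (charEnd V 1 - ∑ i ∈ s, lam i (charEnd (r i) 1)) := by ring
    rw [a3]
    refine (norm_sub_le _ _).trans ?_
    linarith
  have h3 : ‖charEnd V g - charEnd V 1‖ ≤ 0 := le_of_forall_pos_le_add (by simpa using h2)
  have h4 : charEnd V g - charEnd V 1 = 0 := norm_le_zero_iff.1 h3
  rw [sub_eq_zero.1 h4, h1]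

include hV hirr in
theorem not_indep_of_limit (hL : IsLimit p V r) : ¬ Indep V r := by
  intro hI
  have hchar : CharZero E := charZero_of_injective_algebraMap (algebraMap ℚ_[p] E).injective
  obtain ⟨W, hW, hWf⟩ := hI ⊤ isOpen_univ
  have hW' : W ∩ {a : M2 E | a.trace ≠ -2} ∈ 𝓝 (1 : M2 E) := by
    refine Filter.inter_mem hW (IsOpen.mem_nhds ?_ ?_)
    · have hc : Continuous fun a : M2 E => a.trace := Continuous.matrix_trace continuous_id
      exact isOpen_compl_singleton.preimage hc
    · change (1 : M2 E).trace ≠ -2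
      rw [Matrix.trace_one, Fintype.card_fin]
      intro h
      have h2 : ((4 : ℕ) : E) = 0 := by push_cast at h ⊢; linear_combination h
      exact (Nat.cast_ne_zero.2 (by norm_num : (4 : ℕ) ≠ 0)) h2
  have hc : Continuous fun g : G => (V g : M2 E) := Units.continuous_val.comp hV
  have hpre : (fun g : G => (V g : M2 E)) ⁻¹' (W ∩ {a : M2 E | a.trace ≠ -2}) ∈ 𝓝 (1 : G) := by
    apply hc.continuousAt
    simpa using hW'
  obtain ⟨H, hH⟩ := ProfiniteGrp.exist_openNormalSubgroup_sub_open_nhds_of_one isOpen_interior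
    (mem_interior_iff_mem_nhds.2 hpre)
  have hHo : IsOpen (H.toSubgroup : Set G) := H.isOpen'
  have hHc : IsClosed (H.toSubgroup : Set G) := Subgroup.isClosed_of_isOpen _ hHo
  have hHn : H.toSubgroup.Normal := H.isNormal'
  have hle := comm_le hHc
  have hn := comm_normal hHn
  -- nonscalar elements
  have hns : ∃ x ∈ H.toSubgroup, ∀ c : E, (V x : M2 E) ≠ c • (1 : M2 E) := by
    by_contra hcon
    push Not at hcon
    have hs := hirr _ hHo
    have h1 : (⊤ : Submodule E (M2 E)) ≤ Submodule.span E {(1 : M2 E)} := by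
      rw [← hs, Submodule.span_le]
      rintro _ ⟨x, hx, rfl⟩
      obtain ⟨c, hc⟩ := hcon x hx
      rw [SetLike.mem_coe, Submodule.mem_span_singleton]
      exact ⟨c, hc.symm⟩
    have h2 : (!![0, 1; 0, 0] : M2 E) ∈ Submodule.span E {(1 : M2 E)} := h1 Submodule.mem_top
    rw [Submodule.mem_span_singleton] at h2
    obtain ⟨c, hc⟩ := h2
    have h3 := congrFun (congrFun hc 0) 1
    simp at h3
  obtain ⟨x0, hx0, hx0s⟩ := comm_ns p hV hirr hHn hns
  have hspan := span_inf p hV hirr (N := (⁅H.toSubgroup, H.toSubgroup⁆).topologicalClosure) hn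
    ⟨x0, hx0, hx0s⟩ (U := ⊤) isOpen_univ
  -- the trace is two
  have htr : ∀ x ∈ (⁅H.toSubgroup, H.toSubgroup⁆).topologicalClosure, (V x : M2 E).trace = 2 := by
    intro x hx
    have hd : (V x : M2 E).det = 1 := det_comm hV hx
    have hxW : (V x : M2 E) ∈ W ∩ {a : M2 E | a.trace ≠ -2} := by
      have hy := interior_subset (hH (hle hx))
      exact hy
    obtain ⟨g', -, hg1, hg2⟩ := hWf x hxW.1 hd
    have h4 := charEnd_eq_four p r hL hg2
    rw [charEnd, hg1] at h4
    have hinv : (((V x)⁻¹ : GL (Fin 2) E) : M2 E).trace = (V x : M2 E).trace := by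
      rw [Matrix.coe_units_inv, Matrix.inv_def, hd, Ring.inverse_one, one_smul,
        Matrix.adjugate_fin_two, Matrix.trace_fin_two_of, Matrix.trace_fin_two, add_comm]
    rw [hinv] at h4
    have h5 : ((V x : M2 E).trace - 2) * ((V x : M2 E).trace + 2) = 0 := by
      linear_combination h4
    rcases mul_eq_zero.1 h5 with h | h
    · exact sub_eq_zero.1 h
    · exact absurd (eq_neg_of_add_eq_zero_left h) hxW.2
  -- the trace form
  have hform : ∀ a : M2 E, (((V x0 : M2 E) - 1) * a).trace = 0 := by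
    intro a
    have ha : a ∈ Submodule.span E ((fun g => (V g : M2 E)) ''
        (((⁅H.toSubgroup, H.toSubgroup⁆).topologicalClosure ⊓ ⊤ : Subgroup G) : Set G)) := by
      rw [hspan]; exact Submodule.mem_top
    induction ha using Submodule.span_induction with
    | mem y hy =>
      obtain ⟨g, hg, rfl⟩ := hy
      have hg' : g ∈ (⁅H.toSubgroup, H.toSubgroup⁆).topologicalClosure := hg.1
      have e1 : (V x0 : M2 E) * (V g : M2 E) = (V (x0 * g) : M2 E) := by
        rw [map_mul, Units.val_mul]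
      change (((V x0 : M2 E) - 1) * (V g : M2 E)).trace = 0
      rw [sub_mul, one_mul, e1, Matrix.trace_sub, htr _ (mul_mem hx0 hg'), htr _ hg', sub_self]
    | zero => rw [mul_zero, Matrix.trace_zero]
    | add x y _ _ hx hy => rw [mul_add, Matrix.trace_add, hx, hy, add_zero]
    | smul c x _ hx => rw [mul_smul_comm, Matrix.trace_smul, hx, smul_zero]
  apply hx0s 1
  rw [one_smul]
  have hz : (V x0 : M2 E) - 1 = 0 := by
    ext i j
    have h6 := hform (Matrix.single j i 1)
    rw [Matrix.trace_fin_two, Matrix.mul_apply, Matrix.mul_apply, Fin.sum_univ_two,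
      Fin.sum_univ_two] at h6
    fin_cases i <;> fin_cases j <;> simpa [Matrix.single] using h6
  exact sub_eq_zero.1 hz

include p hp hV hirr in
theorem not_indep_of_scalar (h : ∃ U : Subgroup G, IsOpen (U : Set G) ∧ ∀ g ∈ U, (∀ i, r i g = 1) →
      ∃ c : E, (V g : Matrix (Fin 2) (Fin 2) E) = c • (1 : Matrix (Fin 2) (Fin 2) E)) : ¬ Indep V r := by
  have hchar : CharZero E := charZero_of_injective_algebraMap (algebraMap ℚ_[p] E).injective
  obtain ⟨U, hU, hUs⟩ := h
  intro hI
  obtain ⟨W, hW, hWf⟩ := hI U hU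
  obtain ⟨g, hg, hd, hne⟩ := Pool.Agent.Helper37.Dc.exists_nonscalar hV hirr hW
  obtain ⟨g', hg', h1, h2⟩ := hWf g hg hd
  obtain ⟨c, hc⟩ := hUs g' hg' h2
  exact hne c (by rw [← h1, hc])

end Pool.Agent.PMD
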