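import Pool.Agent.Helper27.FM.Simple
import Pool.Agent.Helper37.Dc.LogFacts
import Pool.Agent.Helper37.Dc.Full
import Pool.Agent.Helper37.Fd.MainD

/-!
# Project PMD (MP_b583a4_nt), module NonSc: every open subgroup contains an `x` with `V x ^ p` not scalar
-/

set_option autoImplicit false
open Filter Topology

namespace Pool.Agent.PMD

open Pool.Agent.Helper27.FM Pool.Agent.Helper37.Dc Pool.Agent.Helper37.Kr Pool.Agent.Helper37.Fd

theorem exists_pow_nonscalar (p : ℕ) [hp : Fact p.Prime] {E : Type*} [NontriviallyNormedField E]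
    [IsUltrametricDist E] [NormedAlgebra ℚ_[p] E] [FiniteDimensional ℚ_[p] E] {G : Type*} [Group G]
    [TopologicalSpace G] [IsTopologicalGroup G] [CompactSpace G] [TotallyDisconnectedSpace G]
    {V : G →* GL (Fin 2) E} (hV : Continuous V) (hirr : StronglyIrreducible V) {U : Subgroup G}
    (hU : IsOpen (U : Set G)) :
    ∃ x ∈ U, ∀ c : E, ((V x ^ p : GL (Fin 2) E) : Matrix (Fin 2) (Fin 2) E) ≠ c • (1 : Matrix (Fin 2) (Fin 2) E) := by
  classical
  haveI : CompleteSpace E := FiniteDimensional.complete ℚ_[p] E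
  by_contra hcon
  push Not at hcon
  obtain ⟨H, hHn, hHo, hsm, hHU⟩ := exists_small p (κ := Unit) (R := fun _ => V) (fun _ => hV)
    (N := (U : Set G)) hU U.one_mem
  have hs : ∀ x ∈ H, ∀ i j, ‖((V x : M2 E) - 1) i j‖ ≤ (p : ℝ)⁻¹ ^ 2 := fun x hx => hsm x hx ()
  have key : ∀ x ∈ H, ∃ d : E, (V x : M2 E) = d • (1 : M2 E) := by
    intro x hx
    obtain ⟨z, hz⟩ := exists_log_mat p (V x : M2 E) (hs x hx)
    obtain ⟨c, hc⟩ := hcon x (hHU hx)
    rw [Units.val_pow_eq_pow_val] at hc
    have hpow : ∀ m : ℕ, (V x : M2 E) ^ (p ^ (m + 1)) = c ^ (p ^ m) • (1 : M2 E) := by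
      intro m
      rw [pow_succ', pow_mul, hc, smul_pow, one_pow]
    have h1 : ∀ g : G, (V g : M2 E) * (V x : M2 E) = (V x : M2 E) * (V g : M2 E) := by
      intro g
      have hcj : (V (g * x * g⁻¹) : M2 E) = cj (V g) (V x : M2 E) := by
        rw [map_conj_eq]
      have hpow2 : ∀ m : ℕ, (V (g * x * g⁻¹) : M2 E) ^ (p ^ (m + 1)) = (V x : M2 E) ^ (p ^ (m + 1)) := by
        intro m
        have e1 : (V (g * x * g⁻¹)) ^ (p ^ (m + 1)) = V g * (V x) ^ (p ^ (m + 1)) * (V g)⁻¹ := by
          rw [map_mul, map_mul, map_inv, conj_pow]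
        rw [← Units.val_pow_eq_pow_val, e1, Units.val_mul, Units.val_mul, Units.val_pow_eq_pow_val, hpow,
          mul_smul_comm, smul_mul_assoc, mul_one, ← Units.val_mul, mul_inv_cancel, Units.val_one]
      obtain ⟨z', hz'⟩ := exists_log_mat p (V (g * x * g⁻¹) : M2 E) (hs _ (hHn.conj_mem x hx g))
      have h5 : z' = z := by
        refine tendsto_nhds_unique hz' (hz.congr' ?_)
        filter_upwards [eventually_ge_atTop 1] with m hm
        obtain ⟨k, rfl⟩ : ∃ k, m = k + 1 := ⟨m - 1, by omega⟩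
        rw [hpow2 k]
      rw [h5] at hz'
      have h6 := log_inj_mat p (hs _ (hHn.conj_mem x hx g)) (hs _ hx) hz' hz
      rw [map_conj_eq] at h6
      exact (cj_eq_iff _ _ _).mp h6
    have h2 : ∀ m : M2 E, (V x : M2 E) * m = m * (V x : M2 E) := by
      intro m
      have hm : m ∈ Submodule.span E ((fun g => (V g : M2 E)) '' ((⊤ : Subgroup G) : Set G)) := by
        have h3 := hirr ⊤ isOpen_univ
        rw [h3]
        trivial
      induction hm using Submodule.span_induction with
      | mem y hy =>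
        obtain ⟨g, -, rfl⟩ := hy
        exact (h1 g).symm
      | zero => simp
      | add a b _ _ ha hb => rw [mul_add, add_mul, ha, hb]
      | smul c a _ ha => rw [mul_smul_comm, smul_mul_assoc, ha]
    exact ⟨_, scalar_of_commutes h2⟩
  have hall := hirr H hHo
  have h01 : ∀ m ∈ Submodule.span E ((fun g => (V g : M2 E)) '' (H : Set G)), m 0 1 = 0 := by
    intro m hm
    induction hm using Submodule.span_induction with
    | mem y hy =>
      obtain ⟨g, hg, rfl⟩ := hy
      obtain ⟨d, hd⟩ := key g hg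
      change (V g : M2 E) 0 1 = 0
      rw [hd]
      simp
    | zero => rfl
    | add a b _ _ ha hb => rw [Matrix.add_apply, ha, hb, add_zero]
    | smul c a _ ha => rw [Matrix.smul_apply, ha, smul_zero]
  have h2 := h01 (!![0, 1; 0, 0] : M2 E) (by rw [hall]; trivial)
  simp at h2

end Pool.Agent.PMD
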