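import Pool.Agent.PMD.Defs2

/-!
# Project PMD (MP_b583a4_nt), module Odd: a trace obstruction for points of the Hecke algebra
-/

set_option autoImplicit false
open Filter Topology

namespace Pool.Agent.PMD

theorem trace_inv_mul_det {K : Type*} [Field K] (x : GL (Fin 2) K) :
    ((x⁻¹ : GL (Fin 2) K) : Matrix (Fin 2) (Fin 2) K).trace * (x : Matrix (Fin 2) (Fin 2) K).det =
      (x : Matrix (Fin 2) (Fin 2) K).trace := by
  have hd : (x : Matrix (Fin 2) (Fin 2) K).det ≠ 0 := x.det_ne_zero
  rw [Matrix.coe_units_inv, Matrix.inv_def, Matrix.trace_smul, Matrix.adjugate_fin_two, Matrix.trace_fin_two,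
    Matrix.trace_fin_two, Ring.inverse_eq_inv']
  simp only [Matrix.of_apply, Matrix.cons_val', Matrix.cons_val_zero, Matrix.cons_val_one, smul_eq_mul,
    Matrix.cons_val_fin_one]
  field_simp
  ring

/-- if all `r i` have trace zero at an element where `V` has nonzero trace then `V` is not a point of the Hecke algebra -/
theorem not_isPoint_of_trace {E : Type*} [NontriviallyNormedField E] {G : Type*} [Group G]
    {V : G →* GL (Fin 2) E} {I : Type*} {K : I → Type*} [∀ i, NontriviallyNormedField (K i)]
    {r : ∀ i, G →* GL (Fin 2) (K i)} {c : G} (hr : ∀ i, (r i c : Matrix (Fin 2) (Fin 2) (K i)).trace = 0)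
    (hV : (V c : Matrix (Fin 2) (Fin 2) E).trace ≠ 0) : ¬ IsPoint V r := by
  rintro ⟨θ, -, hθ⟩
  have h0 : (fun i => charEnd (r i) c) = 0 := by
    funext i
    unfold charEnd
    rw [hr i, zero_mul]
    rfl
  have h1 : θ 0 = charEnd V c := hθ c 0 (by rw [h0]; rfl)
  rw [map_zero] at h1
  have h2 := trace_inv_mul_det (V c)
  unfold charEnd at h1
  rcases mul_eq_zero.1 h1.symm with h | h
  · exact hV h
  · rw [h, zero_mul] at h2
    exact hV h2.symm

end Pool.Agent.PMD
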