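import Pool.Agent.PMD.Res

/-!
# Project PMD (MP_b583a4_nt), module PPow: `p`-th powers are images of elements of the common residual kernel

A limit along an ultrafilter of the powers `x ^ N n`, `N n ≡ 1` modulo `p ^ n`, `N n` divisible by all small numbers prime to `p`.
-/

set_option autoImplicit false
open Filter Topology

namespace Pool.Agent.PMD

private def ppBd {K : Type*} [NormedField K] (c : ℝ) (M : Matrix (Fin 2) (Fin 2) K) : Prop :=
  ∀ i j, ‖M i j‖ ≤ c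

section Bd

variable {K : Type*} [NormedField K] [IsUltrametricDist K]

omit [IsUltrametricDist K] in
private theorem pp_mono {c d : ℝ} {M : Matrix (Fin 2) (Fin 2) K} (h : ppBd c M) (hcd : c ≤ d) :
    ppBd d M := fun i j => (h i j).trans hcd

private theorem pp_add {c : ℝ} {M N : Matrix (Fin 2) (Fin 2) K} (h : ppBd c M) (h' : ppBd c N) :
    ppBd c (M + N) := by
  intro i j
  rw [Matrix.add_apply]
  exact (IsUltrametricDist.norm_add_le_max _ _).trans (max_le (h i j) (h' i j))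

private theorem pp_mul {c d : ℝ} (hc : 0 ≤ c) {M N : Matrix (Fin 2) (Fin 2) K} (h : ppBd c M)
    (h' : ppBd d N) : ppBd (c * d) (M * N) := by
  intro i j
  have h1 : ∀ k, ‖M i k * N k j‖ ≤ c * d := by
    intro k
    rw [norm_mul]
    exact mul_le_mul (h i k) (h' k j) (norm_nonneg _) hc
  rw [Matrix.mul_apply, Fin.sum_univ_two]
  exact (IsUltrametricDist.norm_add_le_max _ _).trans (max_le (h1 0) (h1 1))

omit [IsUltrametricDist K] in
private theorem pp_one : ppBd 1 (1 : Matrix (Fin 2) (Fin 2) K) := by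
  intro i j
  rw [Matrix.one_apply]
  split_ifs
  · rw [norm_one]
  · rw [norm_zero]
    exact zero_le_one

private theorem pp_pow {c : ℝ} (hc : 0 ≤ c) {M : Matrix (Fin 2) (Fin 2) K} (h : ppBd c M) (n : ℕ) :
    ppBd (c ^ n) (M ^ n) := by
  induction n with
  | zero =>
    rw [pow_zero, pow_zero]
    exact pp_one
  | succ n ih =>
    rw [pow_succ, pow_succ]
    exact pp_mul (pow_nonneg hc n) ih h

private theorem pp_pow1 {M : Matrix (Fin 2) (Fin 2) K} (h : ppBd 1 M) (n : ℕ) : ppBd 1 (M ^ n) := by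
  have := pp_pow zero_le_one h n
  rwa [one_pow] at this

omit [IsUltrametricDist K] in
private theorem pp_cast {c : ℝ} (hc : 0 ≤ c) (n : ℕ) (h : ‖(n : K)‖ ≤ c) :
    ppBd c (n : Matrix (Fin 2) (Fin 2) K) := by
  intro i j
  rw [Matrix.natCast_apply]
  split_ifs
  · exact h
  · rw [Nat.cast_zero, norm_zero]
    exact hc

private theorem pp_sum {ι : Type*} (s : Finset ι) (f : ι → Matrix (Fin 2) (Fin 2) K)
    (h : ∀ i ∈ s, ppBd 1 (f i)) : ppBd 1 (∑ i ∈ s, f i) := by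
  classical
  induction s using Finset.induction_on with
  | empty =>
    intro i j
    rw [Finset.sum_empty, Matrix.zero_apply, norm_zero]
    exact zero_le_one
  | insert a s ha ih =>
    rw [Finset.sum_insert ha]
    exact pp_add (h a (Finset.mem_insert_self a s))
      (ih fun i hi => h i (Finset.mem_insert_of_mem hi))

private theorem pp_ppow {p : ℕ} (hp : p.Prime) {ρ : ℝ} (hρ : 0 ≤ ρ) (hρ1 : ρ ≤ 1)
    (hpρ : ‖(p : K)‖ ≤ ρ) {Y : Matrix (Fin 2) (Fin 2) K} {k : ℕ} (hk : 1 ≤ k)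
    (h : ppBd (ρ ^ k) (Y - 1)) : ppBd (ρ ^ (k + 1)) (Y ^ p - 1) := by
  have hm1 : ppBd 1 (Y - 1) := pp_mono h (pow_le_one₀ hρ hρ1)
  have e := (Commute.one_left (Y - 1)).add_pow_prime_eq hp
  rw [add_sub_cancel] at e
  have e2 : Y ^ p - 1 = (Y - 1) ^ p + (p : Matrix (Fin 2) (Fin 2) K) * 1 * (Y - 1) *
      ∑ k ∈ Finset.Ioo 0 p, 1 ^ (k - 1) * (Y - 1) ^ (p - k - 1) * ((p.choose k / p : ℕ) :
        Matrix (Fin 2) (Fin 2) K) := by
    rw [e, one_pow]
    abel
  rw [e2]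
  refine pp_add (pp_mono (pp_pow (pow_nonneg hρ k) h p) ?_) ?_
  · rw [← pow_mul]
    apply pow_le_pow_of_le_one hρ hρ1
    have := hp.two_le
    nlinarith
  · have h1 : ppBd (ρ * ρ ^ k * 1) ((p : Matrix (Fin 2) (Fin 2) K) * 1 * (Y - 1) *
        ∑ k ∈ Finset.Ioo 0 p, 1 ^ (k - 1) * (Y - 1) ^ (p - k - 1) * ((p.choose k / p : ℕ) :
          Matrix (Fin 2) (Fin 2) K)) := by
      rw [mul_one (p : Matrix (Fin 2) (Fin 2) K)]
      refine pp_mul (by positivity) (pp_mul hρ (pp_cast hρ p hpρ) h) (pp_sum _ _ fun j _ => ?_)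
      rw [one_pow, one_mul]
      have h3 := pp_mul zero_le_one (pp_pow1 hm1 (p - j - 1))
        (pp_cast zero_le_one (p.choose j / p) (IsUltrametricDist.norm_natCast_le_one K _))
      rwa [mul_one] at h3
    refine pp_mono h1 (le_of_eq ?_)
    rw [mul_one, pow_succ]
    ring

private theorem pp_powk {c : ℝ} (hc0 : 0 ≤ c) (hc : c ≤ 1) {Y : Matrix (Fin 2) (Fin 2) K}
    (h : ppBd c (Y - 1)) (k : ℕ) : ppBd c (Y ^ k - 1) := by
  have hY : ppBd 1 Y := by
    have := pp_add (pp_mono h hc) (pp_one (K := K))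
    rwa [sub_add_cancel] at this
  induction k with
  | zero =>
    rw [pow_zero, sub_self]
    intro i j
    rw [Matrix.zero_apply, norm_zero]
    exact hc0
  | succ k ih =>
    have e : Y ^ (k + 1) - 1 = Y ^ k * (Y - 1) + (Y ^ k - 1) := by
      rw [pow_succ, mul_sub, mul_one]
      abel
    rw [e]
    refine pp_add ?_ ih
    have := pp_mul zero_le_one (pp_pow1 hY k) h
    rwa [one_mul] at this

private theorem pp_ppown {p : ℕ} (hp : p.Prime) {ρ : ℝ} (hρ : 0 ≤ ρ) (hρ1 : ρ ≤ 1)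
    (hpρ : ‖(p : K)‖ ≤ ρ) {Y : Matrix (Fin 2) (Fin 2) K}
    (h : ppBd ρ (Y - 1)) (n : ℕ) : ppBd (ρ ^ (n + 1)) (Y ^ p ^ n - 1) := by
  induction n with
  | zero =>
    rw [zero_add, pow_one, pow_zero, pow_one]
    exact h
  | succ n ih =>
    have e : Y ^ p ^ (n + 1) = (Y ^ p ^ n) ^ p := by rw [← pow_mul, ← pow_succ]
    rw [e]
    exact pp_ppow hp hρ hρ1 hpρ (by omega) ih

private theorem pp_final {p : ℕ} (hp : p.Prime) {ρ : ℝ} (hρ : 0 ≤ ρ) (hρ1 : ρ ≤ 1)
    (hpρ : ‖(p : K)‖ ≤ ρ) {Y : Matrix (Fin 2) (Fin 2) K}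
    (h : ppBd ρ (Y - 1)) (n k : ℕ) : ppBd (ρ ^ (n + 1)) (Y ^ (1 + p ^ n * k) - Y) := by
  have hY : ppBd 1 Y := by
    have := pp_add (pp_mono h hρ1) (pp_one (K := K))
    rwa [sub_add_cancel] at this
  have h1 := pp_powk (pow_nonneg hρ (n + 1)) (pow_le_one₀ hρ hρ1) (pp_ppown hp hρ hρ1 hpρ h n) k
  have e : Y ^ (1 + p ^ n * k) - Y = Y * ((Y ^ p ^ n) ^ k - 1) := by
    rw [pow_add, pow_one, pow_mul, mul_sub, mul_one]
  rw [e]
  have := pp_mul zero_le_one hY h1
  rwa [one_mul] at this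

end Bd

private theorem pp_seq (p : ℕ) (hp : p.Prime) : ∃ N : ℕ → ℕ, (∀ n, ∃ k, N n = 1 + p ^ n * k) ∧
    ∀ m : ℕ, m ≠ 0 → ¬ p ∣ m → ∀ n, m ≤ n → m ∣ N n := by
  classical
  set Q : ℕ → ℕ := fun n => ∏ k ∈ (Finset.range (n + 1)).filter (fun k => k ≠ 0 ∧ ¬ p ∣ k), k with hQ
  have hQc : ∀ n, Nat.Coprime (Q n) p := by
    intro n
    apply Nat.Coprime.prod_left
    intro k hk
    rw [Finset.mem_filter] at hk
    exact ((Nat.Prime.coprime_iff_not_dvd hp).2 hk.2.2).symm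
  refine ⟨fun n => Q n ^ Nat.totient (p ^ n), fun n => ?_, fun m hm hpm n hmn => ?_⟩
  · have h1 : Q n ^ Nat.totient (p ^ n) ≡ 1 [MOD p ^ n] :=
      Nat.ModEq.pow_totient ((hQc n).pow_right n)
    have hQ0 : Q n ≠ 0 := by
      rw [hQ]
      exact Finset.prod_ne_zero_iff.2 fun k hk => (Finset.mem_filter.1 hk).2.1
    have h2 : 1 ≤ Q n ^ Nat.totient (p ^ n) := Nat.one_le_iff_ne_zero.2 (pow_ne_zero _ hQ0)
    have h3 : p ^ n ∣ Q n ^ Nat.totient (p ^ n) - 1 := (Nat.modEq_iff_dvd' h2).1 h1.symm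
    obtain ⟨k, hk⟩ := h3
    refine ⟨k, ?_⟩
    show Q n ^ Nat.totient (p ^ n) = 1 + p ^ n * k
    omega
  · have h1 : m ∣ Q n := Finset.dvd_prod_of_mem (fun k => k)
      (Finset.mem_filter.2 ⟨Finset.mem_range.2 (by omega), hm, hpm⟩)
    exact h1.trans (dvd_pow_self _ (Nat.totient_pos.2 (pow_pos hp.pos n)).ne')

theorem exists_ppow {p : ℕ} [hp : Fact p.Prime] {G : Type*} [Group G] [TopologicalSpace G]
    [IsTopologicalGroup G] [CompactSpace G] {I : Type*} {K : I → Type*}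
    [∀ i, NontriviallyNormedField (K i)] [∀ i, IsUltrametricDist (K i)] (hK : ∀ i, ‖(p : K i)‖ < 1)
    {E : Type*} [NontriviallyNormedField E] [IsUltrametricDist E] (hE : ‖(p : E)‖ < 1)
    (r : ∀ i, G →* GL (Fin 2) (K i)) (hr : ∀ i, Integral (r i)) (hrc : ∀ i, Continuous (r i))
    (V : G →* GL (Fin 2) E) (hV : Integral V) (hVc : Continuous V) {x : G} (hx : x ∈ resKer V hV) :
    ∃ y ∈ resKer V hV, (∀ i, y ∈ resKer (r i) (hr i)) ∧ V y = V x ^ p := by
  obtain ⟨N, hN1, hN2⟩ := pp_seq p hp.out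
  obtain ⟨y, -, hy⟩ := isCompact_univ.ultrafilter_le_nhds
    ((Filter.hyperfilter ℕ).map fun n => x ^ N n) (by simp)
  have hyt : Tendsto (fun n => x ^ N n) (Filter.hyperfilter ℕ : Filter ℕ) (𝓝 y) := hy
  have hat : (Filter.hyperfilter ℕ : Filter ℕ) ≤ atTop := Nat.hyperfilter_le_atTop
  -- (a)
  have hyV : y ∈ resKer V hV := by
    have hcl : IsClosed (resKer V hV : Set G) :=
      (resKer V hV).isClosed_of_isOpen (resKer_isOpen hV hVc)
    exact hcl.mem_of_tendsto hyt (Eventually.of_forall fun n => (resKer V hV).pow_mem hx _)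
  have hVy : V y = V x := by
    apply Units.ext
    ext i j
    obtain ⟨ρ, hρ0, hρ1, hpρ, hρ⟩ := resKer_rho hE hV hVc
    have hcont : Continuous fun g => (V g : Matrix (Fin 2) (Fin 2) E) i j :=
      (Units.continuous_val.comp hVc).matrix_elem i j
    have t1 : Tendsto (fun n => (V (x ^ N n) : Matrix (Fin 2) (Fin 2) E) i j)
        (Filter.hyperfilter ℕ : Filter ℕ) (𝓝 ((V y : Matrix (Fin 2) (Fin 2) E) i j)) :=
      (hcont.tendsto y).comp hyt
    have t2 : Tendsto (fun n => (V (x ^ N n) : Matrix (Fin 2) (Fin 2) E) i j) atTop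
        (𝓝 ((V x : Matrix (Fin 2) (Fin 2) E) i j)) := by
      rw [tendsto_iff_norm_sub_tendsto_zero]
      have hρt : Tendsto (fun n : ℕ => ρ ^ (n + 1)) atTop (𝓝 0) :=
        (tendsto_pow_atTop_nhds_zero_of_lt_one hρ0.le hρ1).comp (tendsto_add_atTop_nat 1)
      refine squeeze_zero (fun n => norm_nonneg _) (fun n => ?_) hρt
      obtain ⟨k, hk⟩ := hN1 n
      have h1 := pp_final hp.out hρ0.le hρ1.le hpρ (Y := (V x : Matrix (Fin 2) (Fin 2) E))
        (fun i j => hρ x hx i j) n k i j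
      rw [Matrix.sub_apply] at h1
      rw [map_pow, Units.val_pow_eq_pow_val, hk]
      exact h1
    exact tendsto_nhds_unique t1 (t2.mono_left hat)
  refine ⟨y ^ p, (resKer V hV).pow_mem hyV p, fun i => ?_, by rw [map_pow, hVy]⟩
  -- (b)
  have hop : IsOpen (resKer (r i) (hr i) : Set G) := resKer_isOpen (hr i) (hrc i)
  have hcl : IsClosed (resKer (r i) (hr i) : Set G) := (resKer (r i) (hr i)).isClosed_of_isOpen hop
  have hnorm : (resKer (r i) (hr i)).Normal := resKer_normal (hr i)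
  have hfin : Finite (G ⧸ resKer (r i) (hr i)) := (resKer (r i) (hr i)).quotient_finite_of_isOpen hop
  have hidx : (resKer (r i) (hr i)).index ≠ 0 := Subgroup.index_ne_zero_of_finite
  obtain ⟨a, m, hm, hq⟩ := Nat.exists_eq_pow_mul_and_not_dvd hidx p hp.out.ne_one
  have hm0 : m ≠ 0 := by
    rintro rfl
    exact hm (dvd_zero p)
  have hya : y ^ p ^ a ∈ resKer (r i) (hr i) := by
    have t1 : Tendsto (fun n => (x ^ N n) ^ p ^ a) (Filter.hyperfilter ℕ : Filter ℕ)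
        (𝓝 (y ^ p ^ a)) := hyt.pow _
    refine hcl.mem_of_tendsto t1 ?_
    refine hat ?_
    filter_upwards [eventually_ge_atTop m] with n hn
    obtain ⟨t, ht⟩ := hN2 m hm0 hm n hn
    have e : (x ^ N n) ^ p ^ a = (x ^ (resKer (r i) (hr i)).index) ^ t := by
      rw [← pow_mul, ← pow_mul, hq, ht]
      congr 1
      ring
    show (x ^ N n) ^ p ^ a ∈ resKer (r i) (hr i)
    rw [e]
    exact (resKer (r i) (hr i)).pow_mem (Subgroup.pow_index_mem _ x) t
  exact unip (hK i) (hr i) hya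

end Pool.Agent.PMD
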