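import Pool.Agent.PMD.HomD
import Pool.Agent.PMD.LimHom
import Pool.Agent.PMD.Odd
import Pool.Agent.PMD.FiltP
import Pool.Agent.PMD.Lat
import Pool.Agent.PMD.PPow
import Pool.Agent.PMD.NonSc
import Pool.Agent.PMD.CommN
import Pool.Agent.PMD.FullN
import Pool.Agent.PMD.LimInd
import Pool.Agent.PMD.LimOf

/-!
# Project PMD (MP_b583a4_nt): assembly
-/

set_option autoImplicit false
open Filter Topology

namespace Pool.Agent.PMD

open Pool.Agent.Helper27.FM

section conj

variable {K : Type*} [NontriviallyNormedField K] {G : Type*} [Group G]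

/-- the conjugate of a representation -/
def cjr (P : GL (Fin 2) K) (r : G →* GL (Fin 2) K) : G →* GL (Fin 2) K where
  toFun g := P * r g * P⁻¹
  map_one' := by simp
  map_mul' a b := by
    rw [map_mul]
    group

theorem cjr_apply (P : GL (Fin 2) K) (r : G →* GL (Fin 2) K) (g : G) : cjr P r g = P * r g * P⁻¹ := rfl

theorem cjr_continuous [TopologicalSpace G] (P : GL (Fin 2) K) {r : G →* GL (Fin 2) K} (hr : Continuous r) :
    Continuous (cjr P r) := by
  change Continuous fun g => P * r g * P⁻¹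
  exact (continuous_const.mul hr).mul continuous_const

theorem cjr_eq_one {P : GL (Fin 2) K} {r : G →* GL (Fin 2) K} {g : G} (h : cjr P r g = 1) : r g = 1 := by
  rw [cjr_apply, mul_inv_eq_one] at h
  exact mul_eq_left.mp h

theorem trace_conj (P x : GL (Fin 2) K) :
    ((P * x * P⁻¹ : GL (Fin 2) K) : Matrix (Fin 2) (Fin 2) K).trace = (x : Matrix (Fin 2) (Fin 2) K).trace := by
  rw [Units.val_mul, Units.val_mul, Matrix.trace_mul_comm, ← mul_assoc, ← Units.val_mul, inv_mul_cancel,
    Units.val_one, one_mul]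

theorem charEnd_cjr (P : GL (Fin 2) K) (r : G →* GL (Fin 2) K) (g : G) :
    charEnd (cjr P r) g = charEnd r g := by
  unfold charEnd
  rw [cjr_apply, trace_conj]
  have h : (P * r g * P⁻¹)⁻¹ = P * (r g)⁻¹ * P⁻¹ := by group
  rw [h, trace_conj]

theorem norm_charEnd_le' [IsUltrametricDist K] {r : G →* GL (Fin 2) K} (hr : Integral r) (g : G) :
    ‖charEnd r g‖ ≤ 1 := by
  have h : ∀ g : G, ‖(r g : Matrix (Fin 2) (Fin 2) K).trace‖ ≤ 1 := by
    intro g
    rw [Matrix.trace_fin_two]
    exact (IsUltrametricDist.norm_add_le_max _ _).trans (max_le (hr g 0 0) (hr g 1 1))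
  unfold charEnd
  rw [← map_inv, norm_mul]
  exact mul_le_one₀ (h g) (norm_nonneg _) (h g⁻¹)

theorem norm_charEnd_le [IsUltrametricDist K] {r : G →* GL (Fin 2) K} (hr : Integral r) (g : G) :
    ‖charEnd r g - 1‖ ≤ 1 := by
  rw [sub_eq_add_neg]
  refine (IsUltrametricDist.norm_add_le_max _ _).trans (max_le (norm_charEnd_le' hr g) ?_)
  rw [norm_neg, norm_one]

theorem span_conj {P : GL (Fin 2) K} {r : G →* GL (Fin 2) K} {S : Set G}
    (h : Submodule.span K ((fun g => (r g : Mt K)) '' S) = ⊤) :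
    Submodule.span K ((fun g => (cjr P r g : Mt K)) '' S) = ⊤ := by
  let f : Mt K →ₗ[K] Mt K :=
    { toFun := fun x => (P : Mt K) * x * ((P⁻¹ : GL (Fin 2) K) : Mt K)
      map_add' := fun x y => by rw [mul_add, add_mul]
      map_smul' := fun c x => by
        rw [mul_smul_comm, smul_mul_assoc, RingHom.id_apply] }
  have hf : Function.Surjective f := by
    intro y
    refine ⟨((P⁻¹ : GL (Fin 2) K) : Mt K) * y * (P : Mt K), ?_⟩
    change (P : Mt K) * (((P⁻¹ : GL (Fin 2) K) : Mt K) * y * (P : Mt K)) * ((P⁻¹ : GL (Fin 2) K) : Mt K) = y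
    have h1 : (P : Mt K) * ((P⁻¹ : GL (Fin 2) K) : Mt K) = 1 := by
      rw [← Units.val_mul, mul_inv_cancel, Units.val_one]
    calc _ = ((P : Mt K) * ((P⁻¹ : GL (Fin 2) K) : Mt K)) * y * ((P : Mt K) * ((P⁻¹ : GL (Fin 2) K) : Mt K)) := by
          noncomm_ring
      _ = y := by rw [h1, one_mul, mul_one]
  have h1 : (fun g => (cjr P r g : Mt K)) '' S = f '' ((fun g => (r g : Mt K)) '' S) := by
    rw [Set.image_image]
    rfl
  rw [h1, Submodule.span_image, h, Submodule.map_top, LinearMap.range_eq_top]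
  exact hf

end conj

section joint

variable {I : Type*} {K : I → Type*} [∀ i, NontriviallyNormedField (K i)] {E : Type*}
  [NontriviallyNormedField E] {G : Type*} [Group G]

/-- the joint representation -/
def joint (r : ∀ i, G →* GL (Fin 2) (K i)) (V : G →* GL (Fin 2) E) : G →* Mt ((∀ i, K i) × E) where
  toFun g := Matrix.of fun a b => ((fun i => (r i g : Mt (K i)) a b), (V g : Mt E) a b)
  map_one' := by
    ext a b
    · rename_i i
      change (r i 1 : Mt (K i)) a b = ((1 : Mt ((∀ i, K i) × E)) a b).1 i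
      rw [map_one, Units.val_one]
      fin_cases a <;> fin_cases b <;> rfl
    · change (V 1 : Mt E) a b = ((1 : Mt ((∀ i, K i) × E)) a b).2
      rw [map_one, Units.val_one]
      fin_cases a <;> fin_cases b <;> rfl
  map_mul' g h := by
    ext a b
    · rename_i i
      rw [Matrix.mul_apply, Fin.sum_univ_two]
      change (r i (g * h) : Mt (K i)) a b = (r i g : Mt (K i)) a 0 * (r i h : Mt (K i)) 0 b +
        (r i g : Mt (K i)) a 1 * (r i h : Mt (K i)) 1 b
      rw [map_mul, Units.val_mul, Matrix.mul_apply, Fin.sum_univ_two]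
    · rw [Matrix.mul_apply, Fin.sum_univ_two]
      change (V (g * h) : Mt E) a b = (V g : Mt E) a 0 * (V h : Mt E) 0 b + (V g : Mt E) a 1 * (V h : Mt E) 1 b
      rw [map_mul, Units.val_mul, Matrix.mul_apply, Fin.sum_univ_two]

theorem joint_fst (r : ∀ i, G →* GL (Fin 2) (K i)) (V : G →* GL (Fin 2) E) (g : G) (a b : Fin 2) (i : I) :
    (joint r V g a b).1 i = (r i g : Mt (K i)) a b := rfl

theorem joint_snd (r : ∀ i, G →* GL (Fin 2) (K i)) (V : G →* GL (Fin 2) E) (g : G) (a b : Fin 2) :
    (joint r V g a b).2 = (V g : Mt E) a b := rfl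

theorem joint_continuous [TopologicalSpace G] {r : ∀ i, G →* GL (Fin 2) (K i)} {V : G →* GL (Fin 2) E}
    (hr : ∀ i, Continuous (r i)) (hV : Continuous V) : Continuous (joint r V) := by
  refine continuous_matrix fun a b => ?_
  refine Continuous.prodMk (continuous_pi fun i => ?_) ?_
  · exact (Units.continuous_val.comp (hr i)).matrix_elem a b
  · exact (Units.continuous_val.comp hV).matrix_elem a b

theorem joint_det {r : ∀ i, G →* GL (Fin 2) (K i)} {V : G →* GL (Fin 2) E} {g : G}
    (hr : ∀ i, (r i g : Mt (K i)).det = 1) (hV : (V g : Mt E).det = 1) : (joint r V g).det = 1 := by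
  rw [Matrix.det_fin_two]
  refine Prod.ext (funext fun i => ?_) ?_
  · have h := hr i
    rw [Matrix.det_fin_two] at h
    exact h
  · rw [Matrix.det_fin_two] at hV
    exact hV

theorem chE_fst (r : ∀ i, G →* GL (Fin 2) (K i)) (V : G →* GL (Fin 2) E) (g : G) (i : I) :
    (chE (joint r V) g).1 i = charEnd (r i) g := by
  unfold chE charEnd
  rw [← map_inv, Matrix.trace_fin_two, Matrix.trace_fin_two, Matrix.trace_fin_two, Matrix.trace_fin_two]
  rfl

theorem chE_snd (r : ∀ i, G →* GL (Fin 2) (K i)) (V : G →* GL (Fin 2) E) (g : G) :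
    (chE (joint r V) g).2 = charEnd V g := by
  unfold chE charEnd
  rw [← map_inv, Matrix.trace_fin_two, Matrix.trace_fin_two, Matrix.trace_fin_two, Matrix.trace_fin_two]
  rfl

end joint

theorem norm_p_lt (p : ℕ) [hp : Fact p.Prime] (K : Type*) [NontriviallyNormedField K] [NormedAlgebra ℚ_[p] K] :
    ‖(p : K)‖ < 1 := by
  have h : (p : K) = algebraMap ℚ_[p] K p := by simp
  rw [h, norm_algebraMap', Padic.norm_p]
  exact inv_lt_one_of_one_lt₀ (by exact_mod_cast hp.out.one_lt)

/-- the main implication: if the common kernel of the family acts by scalars on `V` then `V` is a point of its Hecke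
algebra -/
theorem isPoint_of_kernel (p : ℕ) [hp : Fact p.Prime] (hp2 : p ≠ 2) {E : Type*} [NontriviallyNormedField E]
    [IsUltrametricDist E] [NormedAlgebra ℚ_[p] E] [FiniteDimensional ℚ_[p] E] {G : Type*} [Group G]
    [TopologicalSpace G] [IsTopologicalGroup G] [CompactSpace G] [TotallyDisconnectedSpace G]
    {V : G →* GL (Fin 2) E} (hV : Continuous V) (hirr : StronglyIrreducible V)
    {I : Type*} {K : I → Type*} [∀ i, NontriviallyNormedField (K i)] [∀ i, IsUltrametricDist (K i)]
    [∀ i, NormedAlgebra ℚ_[p] (K i)] [∀ i, FiniteDimensional ℚ_[p] (K i)]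
    {r : ∀ i, G →* GL (Fin 2) (K i)} (hr : ∀ i, Continuous (r i))
    (hker : ∀ g, (∀ i, r i g = 1) → ∃ c : E, (V g : Mt E) = c • (1 : Mt E)) : IsPoint V r := by
  classical
  have hodd : Odd p := hp.out.odd_of_ne_two hp2
  haveI : ProperSpace E := FiniteDimensional.proper ℚ_[p] E
  haveI : ∀ i, ProperSpace (K i) := fun i => FiniteDimensional.proper ℚ_[p] (K i)
  haveI : CharZero E := charZero_of_injective_algebraMap (algebraMap ℚ_[p] E).injective
  haveI : ∀ i, CharZero (K i) := fun i =>
    charZero_of_injective_algebraMap (algebraMap ℚ_[p] (K i)).injective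
  -- integral forms
  obtain ⟨P₀, hP₀⟩ := exists_integral V hV
  choose P hP using fun i => exists_integral (r i) (hr i)
  have hVi : Integral (cjr P₀ V) := hP₀
  have hri : ∀ i, Integral (cjr (P i) (r i)) := hP
  have hVc : Continuous (cjr P₀ V) := cjr_continuous P₀ hV
  have hrc : ∀ i, Continuous (cjr (P i) (r i)) := fun i => cjr_continuous (P i) (hr i)
  -- the common residual kernel
  let N : Subgroup G := resKer _ hVi ⊓ ⨅ i, resKer _ (hri i)
  have hNn : N.Normal := by
    haveI := resKer_normal hVi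
    haveI : (⨅ i, resKer _ (hri i)).Normal := Subgroup.normal_iInf_normal fun i => resKer_normal (hri i)
    exact inferInstanceAs (resKer _ hVi ⊓ ⨅ i, resKer _ (hri i)).Normal
  have hNc : IsClosed (N : Set G) := by
    have h1 : (N : Set G) = (resKer _ hVi : Set G) ∩ ⋂ i, (resKer _ (hri i) : Set G) := by
      ext x
      simp [N, Subgroup.mem_inf, Subgroup.mem_iInf]
    rw [h1]
    exact (Subgroup.isClosed_of_isOpen _ (resKer_isOpen hVi hVc)).inter
      (isClosed_iInter fun i => Subgroup.isClosed_of_isOpen _ (resKer_isOpen (hri i) (hrc i)))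
  have hNV : ∀ x ∈ N, x ∈ resKer _ hVi := fun x hx => hx.1
  have hNr : ∀ x ∈ N, ∀ i, x ∈ resKer _ (hri i) := fun x hx i => Subgroup.mem_iInf.1 hx.2 i
  have hns : ∃ x ∈ N, ∀ c : E, (V x : Mt E) ≠ c • (1 : Mt E) := by
    obtain ⟨x, hx, hxn⟩ := exists_pow_nonscalar p hV hirr (resKer_isOpen hVi hVc)
    obtain ⟨y, hy, hyr, hyx⟩ := exists_ppow (p := p) (fun i => norm_p_lt p (K i)) (norm_p_lt p E) _ hri hrc _ hVi
      hVc hx
    refine ⟨y, ⟨hy, Subgroup.mem_iInf.2 hyr⟩, ?_⟩
    have h1 : V y = V x ^ p := by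
      rw [← map_pow, cjr_apply, cjr_apply] at hyx
      rw [← map_pow]
      exact mul_left_cancel (mul_right_cancel hyx)
    rw [h1]
    exact hxn
  -- the commutator group
  let D : Subgroup G := (⁅N, N⁆).topologicalClosure
  have hDn : D.Normal := comm_normal hNn
  have hDc : IsClosed (D : Set G) := comm_closed
  have hDN : D ≤ N := comm_le hNc
  have hspan : Submodule.span E ((fun g => (V g : Mt E)) '' (D : Set G)) = ⊤ := by
    have h1 := span_inf p hV hirr hDn (comm_ns p hV hirr hNn hns) (U := ⊤) isOpen_univ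
    rw [inf_top_eq] at h1
    exact h1
  -- the filtration
  choose ρ hρ0 hρ1 hρp hρ using fun i => resKer_rho (norm_p_lt p (K i)) (hri i) (hrc i)
  obtain ⟨ρ₀, hρ₀0, hρ₀1, hρ₀p, hρ₀⟩ := resKer_rho (norm_p_lt p E) hVi hVc
  obtain ⟨F, hF⟩ := exists_filt p ρ ρ₀ hρ0 hρ1 hρp hρ₀0 hρ₀1 hρ₀p
  let d : Dat p ((∀ i, K i) × E) G :=
    { F := F
      R := joint (fun i => cjr (P i) (r i)) (cjr P₀ V)
      cR := joint_continuous hrc hVc
      D := D
      cD := hDc
      det := fun x hx => joint_det (fun i => det_comm (hrc i) hx) (det_comm hVc hx)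
      sm := by
        intro x hx a b
        rw [hF]
        have hxN := hDN hx
        refine ⟨fun i => ?_, ?_⟩
        · have h1 := hρ i x (hNr x hxN i) a b
          have h2 : ((joint (fun i => cjr (P i) (r i)) (cjr P₀ V) x - 1) a b).1 i =
              ((cjr (P i) (r i) x : Mt (K i)) - 1) a b := by
            rw [Matrix.sub_apply, Matrix.sub_apply]
            fin_cases a <;> fin_cases b <;> rfl
          rw [h2]
          exact h1
        · have h1 := hρ₀ x (hNV x hxN) a b
          have h2 : ((joint (fun i => cjr (P i) (r i)) (cjr P₀ V) x - 1) a b).2 =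
              ((cjr P₀ V x : Mt E) - 1) a b := by
            rw [Matrix.sub_apply, Matrix.sub_apply]
            fin_cases a <;> fin_cases b <;> rfl
          rw [h2]
          exact h1 }
  have hch : ∀ g i, (chE d.R g).1 i = charEnd (r i) g := by
    intro g i
    change (chE (joint (fun i => cjr (P i) (r i)) (cjr P₀ V)) g).1 i = _
    rw [chE_fst, charEnd_cjr]
  have hch2 : ∀ g, (chE d.R g).2 = charEnd V g := by
    intro g
    change (chE (joint (fun i => cjr (P i) (r i)) (cjr P₀ V)) g).2 = _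
    rw [chE_snd, charEnd_cjr]
  have hth := exists_theta hodd d hDn
    (fun b hb => ((hF b).1 hb).2.trans_lt hρ₀1)
    (fun g => ⟨fun i => by
      rw [hch, ← charEnd_cjr (P i)]
      exact norm_charEnd_le' (hri i) g, by
      rw [hch2, ← charEnd_cjr P₀]
      exact norm_charEnd_le' hVi g⟩)
    (by
      intro g _ hg1
      obtain ⟨c, hc⟩ := hker g fun i => by
        apply cjr_eq_one (P := P i)
        apply Units.ext
        ext a b
        have h1 := congrFun (hg1 a b) i
        rw [Units.val_one]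
        have h2 : (1 : Mt (∀ i, K i)) a b i = (1 : Mt (K i)) a b := by
          fin_cases a <;> fin_cases b <;> rfl
        rw [← h2]
        exact h1
      refine ⟨c, fun a b => ?_⟩
      change (cjr P₀ V g : Mt E) a b = _
      rw [cjr_apply, Units.val_mul, Units.val_mul, hc, mul_smul_comm, smul_mul_assoc, mul_one, ← Units.val_mul,
        mul_inv_cancel, Units.val_one])
    (by
      have h1 := span_conj (P := P₀) hspan
      have h2 : (fun x => (d.R x).map Prod.snd) = fun g => (cjr P₀ V g : Mt E) := by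
        funext x
        rfl
      rw [h2]
      exact h1)
  have hfun : (fun g : G => (chE d.R g).1) = fun (g : G) (i : I) => charEnd (r i) g := by
    funext g i
    exact hch g i
  rw [hfun] at hth
  obtain ⟨θ, hθc, hθ⟩ := hth
  refine ⟨θ, hθc, fun g t ht => ?_⟩
  exact (hθ g t (ht.trans (congrFun hfun g).symm)).trans (hch2 g)

/-- all equivalences -/
theorem main (p : ℕ) [hp : Fact p.Prime] (hp2 : p ≠ 2) {E : Type*} [NontriviallyNormedField E]
    [IsUltrametricDist E] [NormedAlgebra ℚ_[p] E] [FiniteDimensional ℚ_[p] E] {G : Type*} [Group G]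
    [TopologicalSpace G] [IsTopologicalGroup G] [CompactSpace G] [TotallyDisconnectedSpace G]
    (V : G →* GL (Fin 2) E) (hV : Continuous V) (hirr : StronglyIrreducible V)
    {I : Type*} {K : I → Type*} [∀ i, NontriviallyNormedField (K i)] [∀ i, IsUltrametricDist (K i)]
    [∀ i, NormedAlgebra ℚ_[p] (K i)] [∀ i, FiniteDimensional ℚ_[p] (K i)]
    (r : ∀ i, G →* GL (Fin 2) (K i)) (hr : ∀ i, Continuous (r i)) :
    (IsPoint V r ↔ ∃ U : Subgroup G, IsOpen (U : Set G) ∧ ∀ g ∈ U, (∀ i, r i g = 1) →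
      ∃ c : E, (V g : Mt E) = c • (1 : Mt E)) ∧
    (IsPoint V r ↔ IsLimit p V r) ∧
    (IsPoint V r ↔ ¬ Indep V r) ∧
    (∀ c : G, (∀ i, (r i c : Mt (K i)).trace = 0) → (V c : Mt E).trace ≠ 0 → Indep V r) := by
  -- not independent implies scalar kernel
  have h1 : ¬ Indep V r → ∀ g, (∀ i, r i g = 1) → ∃ c : E, (V g : Mt E) = c • (1 : Mt E) := by
    intro hni
    by_contra hcon
    push Not at hcon
    obtain ⟨x, hx, hxn⟩ := hcon
    apply hni
    let N : Subgroup G := ⨅ i, (r i).ker
    have hN : N.Normal := Subgroup.normal_iInf_normal fun i => MonoidHom.normal_ker (r i)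
    have hNm : ∀ g, g ∈ N ↔ ∀ i, r i g = 1 := fun g => by
      simp [N, Subgroup.mem_iInf, MonoidHom.mem_ker]
    have hNc : IsClosed (N : Set G) := by
      have h : (N : Set G) = ⋂ i, (r i) ⁻¹' {1} := by
        ext g
        rw [SetLike.mem_coe, hNm]
        simp
      rw [h]
      exact isClosed_iInter fun i => isClosed_singleton.preimage (hr i)
    intro U hU
    obtain ⟨W, hW, hWf⟩ := full_normal p hV hirr hN hNc ⟨x, (hNm x).2 hx, hxn⟩ hU
    refine ⟨W, hW, fun g hg hd => ?_⟩
    obtain ⟨g', hg', hgg⟩ := hWf g hg hd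
    exact ⟨g', hg'.2, hgg, (hNm g').1 hg'.1⟩
  have h2 : IsLimit p V r → ¬ Indep V r := not_indep_of_limit p hV hirr r
  have h3 := not_indep_of_scalar p hV hirr r
  have h4 : ¬ Indep V r → IsPoint V r := fun h => isPoint_of_kernel p hp2 hV hirr hr (h1 h)
  have h5 : IsPoint V r → IsLimit p V r := by
    intro h
    haveI : ∀ i, ProperSpace (K i) := fun i => FiniteDimensional.proper ℚ_[p] (K i)
    refine limit_of_point p V r (fun i g => ?_) h
    obtain ⟨P, hP⟩ := exists_integral (r i) (hr i)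
    rw [← charEnd_cjr P]
    exact norm_charEnd_le (r := cjr P (r i)) hP g
  refine ⟨⟨fun h => ⟨⊤, isOpen_univ, fun g _ hg => h1 (h2 (h5 h)) g hg⟩, fun h => h4 (h3 h)⟩,
    ⟨h5, fun h => h4 (h2 h)⟩, ⟨fun h => h2 (h5 h), h4⟩, fun c hc hcV => ?_⟩
  by_contra hni
  exact not_isPoint_of_trace hc hcV (h4 hni)

end Pool.Agent.PMD
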