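import Mathlib

/-!
# Project PMD (MP_b583a4_nt), module Mx: identities for `2 × 2` matrices

`th x = x - adj x = 2 x - tr x` is the (doubled) trace zero part of `x`, `br u v` the commutator. All identities are
polynomial identities in the entries (some use `det x = 1`).
-/

set_option autoImplicit false
set_option linter.unusedSimpArgs false

namespace Pool.Agent.PMD

/-- the `2 × 2` matrices over `B` -/
abbrev Mt (B : Type*) : Type _ := Matrix (Fin 2) (Fin 2) B

variable {B : Type*} [CommRing B]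

/-- twice the trace zero part of `x` -/
def th (x : Mt B) : Mt B := x - x.adjugate

/-- the commutator of two matrices -/
def br (u v : Mt B) : Mt B := u * v - v * u

omit [CommRing B] in
theorem ex4 (x : Mt B) : ∃ a b c d : B, x = !![a, b; c, d] :=
  ⟨x 0 0, x 0 1, x 1 0, x 1 1, Matrix.eta_fin_two x⟩

omit [CommRing B] in
theorem ext4 {x y : Mt B} (h1 : x 0 0 = y 0 0) (h2 : x 0 1 = y 0 1) (h3 : x 1 0 = y 1 0)
    (h4 : x 1 1 = y 1 1) : x = y := by
  ext i j
  fin_cases i <;> fin_cases j <;> assumption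

theorem th_eq (x : Mt B) : th x = (2 : B) • x - x.trace • (1 : Mt B) := by
  obtain ⟨a, b, c, d, rfl⟩ := ex4 x
  apply ext4 <;> simp [th, Matrix.adjugate_fin_two_of, Matrix.trace_fin_two_of] <;> ring

theorem th_trace (x : Mt B) : (th x).trace = 0 := by
  obtain ⟨a, b, c, d, rfl⟩ := ex4 x
  simp [th, Matrix.adjugate_fin_two_of, Matrix.trace_fin_two]

theorem th_one : th (1 : Mt B) = 0 := by
  simp [th]

theorem th_adj (x : Mt B) : th x.adjugate = - th x := by
  obtain ⟨a, b, c, d, rfl⟩ := ex4 x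
  apply ext4 <;> simp [th, Matrix.adjugate_fin_two_of] <;> ring

theorem br_trace (u v : Mt B) : (br u v).trace = 0 := by
  rw [br, Matrix.trace_sub, Matrix.trace_mul_comm, sub_self]

theorem th_mul_add (x y : Mt B) : th (x * y) + th (x.adjugate * y) = x.trace • th y := by
  obtain ⟨a, b, c, d, rfl⟩ := ex4 x
  obtain ⟨a', b', c', d', rfl⟩ := ex4 y
  apply ext4 <;> simp [th, Matrix.adjugate_fin_two_of, Matrix.trace_fin_two_of, Matrix.mul_fin_two] <;> ring

theorem br_th (x y : Mt B) : br (th x) (th y) = (2 : B) • (th (x * y) - th (y * x)) := by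
  obtain ⟨a, b, c, d, rfl⟩ := ex4 x
  obtain ⟨a', b', c', d', rfl⟩ := ex4 y
  apply ext4 <;> simp [th, br, Matrix.adjugate_fin_two_of, Matrix.mul_apply, Fin.sum_univ_two] <;> ring

theorem trace_th_mul (x y : Mt B) :
    (th x * th y).trace = 2 * ((x * y).trace - (x.adjugate * y).trace) := by
  obtain ⟨a, b, c, d, rfl⟩ := ex4 x
  obtain ⟨a', b', c', d', rfl⟩ := ex4 y
  simp [th, Matrix.adjugate_fin_two_of, Matrix.trace_fin_two, Matrix.mul_apply, Fin.sum_univ_two]
  ring

theorem four_th_mul (x y : Mt B) :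
    (4 : B) • th (x * y) = (2 * x.trace) • th y + (2 * y.trace) • th x + br (th x) (th y) := by
  obtain ⟨a, b, c, d, rfl⟩ := ex4 x
  obtain ⟨a', b', c', d', rfl⟩ := ex4 y
  apply ext4 <;> simp [th, br, Matrix.adjugate_fin_two_of, Matrix.trace_fin_two, Matrix.mul_apply,
    Fin.sum_univ_two] <;> ring

theorem four_trace_mul (x y : Mt B) :
    4 * (x * y).trace = 2 * x.trace * y.trace + (th x * th y).trace := by
  obtain ⟨a, b, c, d, rfl⟩ := ex4 x
  obtain ⟨a', b', c', d', rfl⟩ := ex4 y
  simp [th, Matrix.adjugate_fin_two_of, Matrix.trace_fin_two, Matrix.mul_apply, Fin.sum_univ_two]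
  ring

theorem trace_sq (x : Mt B) (h : x.det = 1) : (x * x).trace = x.trace ^ 2 - 2 := by
  obtain ⟨a, b, c, d, rfl⟩ := ex4 x
  rw [Matrix.det_fin_two_of] at h
  simp [Matrix.trace_fin_two, Matrix.mul_apply, Fin.sum_univ_two]
  linear_combination (-2) * h

theorem trace_th_sq (x : Mt B) (h : x.det = 1) : (th x * th x).trace = 2 * (x.trace ^ 2 - 4) := by
  obtain ⟨a, b, c, d, rfl⟩ := ex4 x
  rw [Matrix.det_fin_two_of] at h
  simp [th, Matrix.adjugate_fin_two_of, Matrix.trace_fin_two, Matrix.mul_apply, Fin.sum_univ_two]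
  linear_combination (-8) * h

theorem ex3 {x : Mt B} (h : x.trace = 0) : ∃ a b c : B, x = !![a, b; c, -a] := by
  obtain ⟨a, b, c, d, rfl⟩ := ex4 x
  rw [Matrix.trace_fin_two_of] at h
  exact ⟨a, b, c, by rw [show d = -a by linear_combination h]⟩

theorem br_br (x y z : Mt B) (hx : x.trace = 0) (hy : y.trace = 0) (hz : z.trace = 0) :
    br x (br y z) = (2 : B) • ((x * y).trace • z - (x * z).trace • y) := by
  obtain ⟨a, b, c, rfl⟩ := ex3 hx
  obtain ⟨a', b', c', rfl⟩ := ex3 hy
  obtain ⟨a'', b'', c'', rfl⟩ := ex3 hz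
  apply ext4 <;> simp [br, Matrix.trace_fin_two, Matrix.mul_apply, Fin.sum_univ_two] <;> ring

theorem br_br_br (x y u v : Mt B) (hx : x.trace = 0) (hy : y.trace = 0) (hu : u.trace = 0)
    (hv : v.trace = 0) :
    br x (br y (br u v)) = -((2 : B) • ((u * y).trace • br v x + (v * y).trace • br x u)) := by
  obtain ⟨a, b, c, rfl⟩ := ex3 hx
  obtain ⟨a', b', c', rfl⟩ := ex3 hy
  obtain ⟨e, f, g, rfl⟩ := ex3 hu
  obtain ⟨e', f', g', rfl⟩ := ex3 hv
  apply ext4 <;> simp [br, Matrix.trace_fin_two, Matrix.mul_apply, Fin.sum_univ_two] <;> ring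

theorem jacobi (x y z : Mt B) : br x (br y z) = br (br x y) z + br y (br x z) := by
  simp only [br]
  noncomm_ring

theorem eight_th_comm (x y : Mt B) :
    (8 : B) • th (x * y * x.adjugate * y.adjugate) =
      (2 * (x * y).trace) • br (th x) (th y) + br (th (x * y)) (br (th x) (th y)) := by
  -- `P = x y`, `Q = y x`, `P * adj Q`
  have e1 : x * y * x.adjugate * y.adjugate = (x * y) * (y * x).adjugate := by
    rw [Matrix.adjugate_mul_distrib]
    noncomm_ring
  have e2 : (y * x).trace = (x * y).trace := Matrix.trace_mul_comm _ _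
  have e3 : br (th (x * y)) (th (y * x)) = (2 : B) • (th ((x * y) * (y * x)) - th ((y * x) * (x * y))) :=
    br_th _ _
  have h4 := four_th_mul (x * y) (y * x).adjugate
  have e4 : (y * x).adjugate.trace = (x * y).trace := by
    rw [← e2]
    obtain ⟨a, b, c, d, h⟩ := ex4 (y * x)
    rw [h]
    simp [Matrix.adjugate_fin_two_of, Matrix.trace_fin_two, add_comm]
  rw [e4, th_adj] at h4
  have e5 : br (th x) (th y) = (2 : B) • (th (x * y) - th (y * x)) := br_th _ _
  rw [e1, e5]
  have h5 : (8 : B) • th (x * y * (y * x).adjugate) = (2 : B) • ((4 : B) • th (x * y * (y * x).adjugate)) := by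
    rw [smul_smul]; norm_num
  rw [h5, h4]
  simp only [br, smul_sub, smul_add, mul_sub, sub_mul, mul_neg, neg_mul, mul_smul_comm, smul_mul_assoc, smul_neg,
    smul_smul]
  module

end Pool.Agent.PMD
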