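import Pool.Agent.PMD.Res1

/-!
# Project PMD (MP_b583a4_nt), module Res: residually unipotent elements

Reduction to the residue field: the residual matrix of `g` is unipotent, so its difference to `1` has square
zero (characteristic `p`).
-/

set_option autoImplicit false
open Filter Topology

namespace Pool.Agent.PMD

variable {K : Type*} [NontriviallyNormedField K] [IsUltrametricDist K] {G : Type*} [Group G]

/-- a nilpotent matrix has square zero -/
private theorem sq_zero {k : Type*} [Field k] {N : Matrix (Fin 2) (Fin 2) k} (hN : IsNilpotent N) :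
    N ^ 2 = 0 := by
  have h1 : N.trace = 0 := (Matrix.isNilpotent_trace_of_isNilpotent hN).eq_zero
  obtain ⟨n, hn⟩ := hN
  have h2 : N.det = 0 := by
    have h3 : N.det ^ n = 0 := by
      rw [← Matrix.det_pow, hn, Matrix.det_zero]
    exact IsReduced.eq_zero _ ⟨n, h3⟩
  rw [Matrix.trace_fin_two] at h1
  rw [Matrix.det_fin_two] at h2
  ext i j
  fin_cases i <;> fin_cases j <;> simp [pow_two, Matrix.mul_apply, Fin.sum_univ_two]
  · linear_combination N 0 0 * h1 - h2
  · linear_combination N 0 1 * h1
  · linear_combination N 1 0 * h1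
  · linear_combination N 1 1 * h1 - h2

variable (K) in
/-- the residue field -/
private abbrev Fk : Type _ :=
  IsLocalRing.ResidueField (NormedField.valuation (K := K)).valuationSubring

/-- the residual representation, as a homomorphism of monoids -/
private theorem exists_res {r : G →* GL (Fin 2) K} (hr : Integral r) :
    ∃ ρ : G →* Matrix (Fin 2) (Fin 2) (Fk K),
      (∀ n : ℕ, ‖(n : K)‖ < 1 → (n : Fk K) = 0) ∧ ∀ g, g ∈ resKer r hr ↔ ρ g = 1 := by
  let v : Valuation K NNReal := NormedField.valuation
  let O := v.valuationSubring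
  let π : O →+* IsLocalRing.ResidueField O := IsLocalRing.residue O
  have hpi : ∀ x : O, π x = 0 ↔ ‖(x : K)‖ < 1 := by
    intro x
    rw [IsLocalRing.residue_eq_zero_iff, Valuation.mem_maximalIdeal_iff]
    exact Iff.rfl
  let M : G → Matrix (Fin 2) (Fin 2) O := fun g =>
    Matrix.of fun i j => (⟨(r g : Matrix (Fin 2) (Fin 2) K) i j, hr g i j⟩ : O)
  have hM : ∀ g i j, ((M g i j : O) : K) = (r g : Matrix (Fin 2) (Fin 2) K) i j := fun g i j => rfl
  have hM1 : M 1 = 1 := by
    ext i j
    rw [hM, map_one]
    by_cases hij : i = j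
    · subst hij
      simp
    · simp [Matrix.one_apply_ne hij]
  have hMm : ∀ g h, M (g * h) = M g * M h := by
    intro g h
    ext i j
    rw [hM, map_mul, Units.val_mul, Matrix.mul_apply, Matrix.mul_apply, Fin.sum_univ_two,
      Fin.sum_univ_two]
    push_cast
    rw [hM, hM, hM, hM]
  let ρ : G →* Matrix (Fin 2) (Fin 2) (IsLocalRing.ResidueField O) :=
    { toFun := fun g => (M g).map π
      map_one' := by rw [hM1]; simp
      map_mul' := fun g h => by rw [hMm, Matrix.map_mul] }
  refine ⟨ρ, ?_, ?_⟩
  · intro n hn
    have h1 := (hpi (n : O)).2 (by simpa using hn)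
    rwa [map_natCast] at h1
  · intro g
    rw [mem_resKer]
    constructor
    · intro h
      ext i j
      have h1 := h i j
      have h2 : π (M g i j - (1 : Matrix (Fin 2) (Fin 2) O) i j) = 0 := by
        rw [hpi]
        have h3 : ((M g i j - (1 : Matrix (Fin 2) (Fin 2) O) i j : O) : K) =
            ((r g : Matrix (Fin 2) (Fin 2) K) - 1) i j := by
          rw [Matrix.sub_apply]
          push_cast
          rw [hM]
          by_cases hij : i = j
          · subst hij
            simp
          · simp [Matrix.one_apply_ne hij]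
        rw [h3]
        exact h1
      rw [map_sub, sub_eq_zero] at h2
      change π (M g i j) = _
      rw [h2]
      by_cases hij : i = j
      · subst hij
        simp
      · simp [Matrix.one_apply_ne hij]
    · intro h i j
      have h2 : π (M g i j - (1 : Matrix (Fin 2) (Fin 2) O) i j) = 0 := by
        have h4 : π (M g i j) = (1 : Matrix (Fin 2) (Fin 2) (IsLocalRing.ResidueField O)) i j := by
          rw [← h]
          rfl
        rw [map_sub, h4, sub_eq_zero]
        by_cases hij : i = j
        · subst hij
          simp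
        · simp [Matrix.one_apply_ne hij]
      rw [hpi] at h2
      have h3 : ((M g i j - (1 : Matrix (Fin 2) (Fin 2) O) i j : O) : K) =
          ((r g : Matrix (Fin 2) (Fin 2) K) - 1) i j := by
        rw [Matrix.sub_apply]
        push_cast
        rw [hM]
        by_cases hij : i = j
        · subst hij
          simp
        · simp [Matrix.one_apply_ne hij]
      rwa [h3] at h2

theorem unip {p : ℕ} [Fact p.Prime] (hp : ‖(p : K)‖ < 1) {r : G →* GL (Fin 2) K} (hr : Integral r) {g : G} {a : ℕ}
    (hg : g ^ p ^ a ∈ resKer r hr) : g ^ p ∈ resKer r hr := by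
  obtain ⟨ρ, hk, hρ⟩ := exists_res hr
  have hprime : p.Prime := Fact.out
  have : CharP (Fk K) p := (CharP.charP_iff_prime_eq_zero hprime).2 (hk p hp)
  rw [hρ, map_pow] at hg ⊢
  have h1 : (ρ g - 1) ^ p ^ a = 0 := by
    rw [sub_pow_char_pow_of_commute _ _ (Commute.one_right (ρ g)), hg, one_pow, sub_self]
  have h2 : (ρ g - 1) ^ 2 = 0 := sq_zero ⟨p ^ a, h1⟩
  have h3 : (ρ g - 1) ^ p = 0 := by
    obtain ⟨m, hm⟩ := Nat.exists_eq_add_of_le hprime.two_le
    rw [hm, pow_add, h2, zero_mul]
  rw [sub_pow_char_of_commute _ (Commute.one_right (ρ g)), one_pow, sub_eq_zero] at h3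
  exact h3

end Pool.Agent.PMD
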