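import Mathlib

/-!
# Project PMD (MP_b583a4_nt), module Res1: the kernel of the residual representation

`r` is integral (`Integral r`: all entries of all `r g` have norm at most one).

PLAN. `resKer`: for `a, b` in the set `r (a b) - 1 = r a (r b - 1) + (r a - 1)`; inverse: `r g⁻¹ - 1 = - r g⁻¹ (r g - 1)`; ultrametric estimates of sums of two products. Normal: `r (h g h⁻¹) - 1 = r h (r g - 1) r h⁻¹`.
Open: the map `g ↦ (r g - 1) i j` is continuous (`Units.continuous_val`). `resKer_rho`: an open subgroup is closed (`Subgroup.isClosed_of_isOpen`), so `resKer` is compact, and the continuous function `g ↦ max_{i,j} ‖(r g - 1) i j‖` has a maximum `< 1` on it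
(`IsCompact.exists_isMaxOn`); take the maximum of it, of `‖(p : K)‖ < 1` and of `1/2`.
-/

set_option autoImplicit false
open Filter Topology

namespace Pool.Agent.PMD

variable {K : Type*} [NontriviallyNormedField K] [IsUltrametricDist K] {G : Type*} [Group G]

/-- all entries of all `r g` have norm at most one -/
def Integral (r : G →* GL (Fin 2) K) : Prop :=
  ∀ g i j, ‖(r g : Matrix (Fin 2) (Fin 2) K) i j‖ ≤ 1

omit [Group G] in
private theorem mul_lt_left {A M : Matrix (Fin 2) (Fin 2) K} (hA : ∀ i j, ‖A i j‖ ≤ 1)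
    (hM : ∀ i j, ‖M i j‖ < 1) (i j : Fin 2) : ‖(A * M) i j‖ < 1 := by
  have h1 : ∀ k, ‖A i k * M k j‖ < 1 := by
    intro k
    rw [norm_mul]
    exact (mul_le_of_le_one_left (norm_nonneg _) (hA i k)).trans_lt (hM k j)
  rw [Matrix.mul_apply, Fin.sum_univ_two]
  exact (IsUltrametricDist.norm_add_le_max _ _).trans_lt (max_lt (h1 0) (h1 1))

omit [Group G] in
private theorem mul_lt_right {A M : Matrix (Fin 2) (Fin 2) K} (hA : ∀ i j, ‖A i j‖ ≤ 1)
    (hM : ∀ i j, ‖M i j‖ < 1) (i j : Fin 2) : ‖(M * A) i j‖ < 1 := by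
  have h1 : ∀ k, ‖M i k * A k j‖ < 1 := by
    intro k
    rw [norm_mul]
    exact (mul_le_of_le_one_right (norm_nonneg _) (hA k j)).trans_lt (hM i k)
  rw [Matrix.mul_apply, Fin.sum_univ_two]
  exact (IsUltrametricDist.norm_add_le_max _ _).trans_lt (max_lt (h1 0) (h1 1))

/-- the kernel of the residual representation -/
def resKer (r : G →* GL (Fin 2) K) (hr : Integral r) : Subgroup G where
  carrier := {g | ∀ i j, ‖((r g : Matrix (Fin 2) (Fin 2) K) - 1) i j‖ < 1}
  one_mem' := by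
    intro i j
    rw [map_one, Units.val_one, sub_self, Matrix.zero_apply, norm_zero]
    exact one_pos
  mul_mem' := by
    intro a b ha hb i j
    have h1 : (r (a * b) : Matrix (Fin 2) (Fin 2) K) - 1 =
        (r a : Matrix (Fin 2) (Fin 2) K) * ((r b : Matrix (Fin 2) (Fin 2) K) - 1) +
          ((r a : Matrix (Fin 2) (Fin 2) K) - 1) := by
      rw [map_mul, Units.val_mul, mul_sub, mul_one, sub_add_sub_cancel]
    rw [h1, Matrix.add_apply]
    exact (IsUltrametricDist.norm_add_le_max _ _).trans_lt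
      (max_lt (mul_lt_left (hr a) hb i j) (ha i j))
  inv_mem' := by
    intro a ha i j
    have h1 : (r a⁻¹ : Matrix (Fin 2) (Fin 2) K) - 1 =
        -((r a⁻¹ : Matrix (Fin 2) (Fin 2) K) * ((r a : Matrix (Fin 2) (Fin 2) K) - 1)) := by
      have h2 : (r a⁻¹ : Matrix (Fin 2) (Fin 2) K) * (r a : Matrix (Fin 2) (Fin 2) K) = 1 := by
        rw [← Units.val_mul, ← map_mul, inv_mul_cancel, map_one, Units.val_one]
      rw [mul_sub, h2, mul_one, neg_sub]
    rw [h1, Matrix.neg_apply, norm_neg]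
    exact mul_lt_left (hr a⁻¹) ha i j

theorem mem_resKer {r : G →* GL (Fin 2) K} {hr : Integral r} {g : G} :
    g ∈ resKer r hr ↔ ∀ i j, ‖((r g : Matrix (Fin 2) (Fin 2) K) - 1) i j‖ < 1 := Iff.rfl

theorem resKer_normal {r : G →* GL (Fin 2) K} (hr : Integral r) : (resKer r hr).Normal := by
  refine ⟨fun n hn g => ?_⟩
  intro i j
  have h1 : (r (g * n * g⁻¹) : Matrix (Fin 2) (Fin 2) K) - 1 =
      (r g : Matrix (Fin 2) (Fin 2) K) * (((r n : Matrix (Fin 2) (Fin 2) K) - 1) *
        (r g⁻¹ : Matrix (Fin 2) (Fin 2) K)) := by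
    have h2 : (r g : Matrix (Fin 2) (Fin 2) K) * (r g⁻¹ : Matrix (Fin 2) (Fin 2) K) = 1 := by
      rw [← Units.val_mul, ← map_mul, mul_inv_cancel, map_one, Units.val_one]
    rw [sub_mul, one_mul, mul_sub, h2, map_mul, map_mul, Units.val_mul, Units.val_mul, mul_assoc]
  rw [h1]
  exact mul_lt_left (hr g) (mul_lt_right (hr g⁻¹) hn) i j

private theorem cont_ent [TopologicalSpace G] {r : G →* GL (Fin 2) K} (hc : Continuous r)
    (i j : Fin 2) : Continuous fun g => ‖((r g : Matrix (Fin 2) (Fin 2) K) - 1) i j‖ := by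
  have h1 : Continuous fun g => (r g : Matrix (Fin 2) (Fin 2) K) := Units.continuous_val.comp hc
  exact ((h1.sub continuous_const).matrix_elem i j).norm

theorem resKer_isOpen [TopologicalSpace G] {r : G →* GL (Fin 2) K} (hr : Integral r) (hc : Continuous r) :
    IsOpen (resKer r hr : Set G) := by
  have h1 : (resKer r hr : Set G) =
      ⋂ i : Fin 2, ⋂ j : Fin 2, {g | ‖((r g : Matrix (Fin 2) (Fin 2) K) - 1) i j‖ < 1} := by
    ext g
    simp only [Set.mem_iInter]
    exact Iff.rfl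
  rw [h1]
  exact isOpen_iInter_of_finite fun i => isOpen_iInter_of_finite fun j =>
    isOpen_lt (cont_ent hc i j) continuous_const

theorem resKer_rho [TopologicalSpace G] [IsTopologicalGroup G] [CompactSpace G] {p : ℕ} (hp : ‖(p : K)‖ < 1)
    {r : G →* GL (Fin 2) K} (hr : Integral r) (hc : Continuous r) :
    ∃ ρ : ℝ, 0 < ρ ∧ ρ < 1 ∧ ‖(p : K)‖ ≤ ρ ∧
      ∀ g ∈ resKer r hr, ∀ i j, ‖((r g : Matrix (Fin 2) (Fin 2) K) - 1) i j‖ ≤ ρ := by
  have hcp : IsCompact (resKer r hr : Set G) :=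
    ((resKer r hr).isClosed_of_isOpen (resKer_isOpen hr hc)).isCompact
  have hmax : ∀ i j : Fin 2, ∃ m : ℝ, m < 1 ∧ ∀ g ∈ resKer r hr,
      ‖((r g : Matrix (Fin 2) (Fin 2) K) - 1) i j‖ ≤ m := by
    intro i j
    obtain ⟨g, hg, hmx⟩ := hcp.exists_isMaxOn ⟨1, (resKer r hr).one_mem⟩ (cont_ent hc i j).continuousOn
    exact ⟨_, mem_resKer.1 hg i j, fun g' hg' => hmx hg'⟩
  choose m hm1 hm2 using hmax
  refine ⟨max (max ‖(p : K)‖ (1 / 2)) (max (max (m 0 0) (m 0 1)) (max (m 1 0) (m 1 1))), ?_, ?_, ?_, ?_⟩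
  · exact lt_of_lt_of_le (by norm_num : (0 : ℝ) < 1 / 2) ((le_max_right _ _).trans (le_max_left _ _))
  · exact max_lt (max_lt hp (by norm_num)) (max_lt (max_lt (hm1 0 0) (hm1 0 1))
      (max_lt (hm1 1 0) (hm1 1 1)))
  · exact (le_max_left _ _).trans (le_max_left _ _)
  · intro g hg i j
    refine (hm2 i j g hg).trans (le_trans ?_ (le_max_right _ _))
    fin_cases i <;> fin_cases j
    · exact (le_max_left _ _).trans (le_max_left _ _)
    · exact (le_max_right _ _).trans (le_max_left _ _)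
    · exact (le_max_left _ _).trans (le_max_right _ _)
    · exact (le_max_right _ _).trans (le_max_right _ _)

end Pool.Agent.PMD
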