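import Pool.Agent.Helper27.FM.Simple
import Pool.Agent.Helper37.Dc.NonInd

/-!
# Project PMD (MP_b583a4_nt), module StrN: a strongly irreducible `V` is strongly irreducible on nonscalar normal subgroups

PLAN. `exists_ns`: let `x ∈ N` with `V x` not scalar, `U` an open subgroup. The map `g ↦ ⁅g, x⁆ = g x g⁻¹ x⁻¹` is continuous with value `1` at `1`, so for `g` in an open subgroup `U'` (`ProfiniteGrp.exist_openNormalSubgroup_sub_open_nhds_of_one`)
it is in `U` and `V ⁅g, x⁆` is in a neighbourhood of `1` without `-1`; and it is in `N` (normal). If all elements of `N ⊓ U` have scalar image, then `V ⁅g, x⁆ = c • 1`, `c^2 = 1` (determinant one), so it is `1`, so `V g` commutes with `V x` for all `g ∈ U'`;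
`V '' U'` spans `M_2(E)`, so `V x` commutes with everything, so it is scalar: contradiction. (See the proof of `exists_nonscalar` in Helper37/Dc/NonInd.lean.)
`span_inf`: take an open normal subgroup `U₀ ≤ U` (`U` open in a profinite group), `y ∈ N ⊓ U₀` nonscalar; `S = span (V '' (N ⊓ U₀))` contains `1` and is stable under conjugation by `V G`; `S₀ = {a ∈ S | tr a = 0}` is a stable `E`-subspace which contains the
nonzero `y - (tr y / 2)`, so it is everything of trace zero by `AdSimple V` (`adSimple_of_strIrr`, see Helper37/Fd/MainD.lean for its use), so `S = ⊤`.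
-/

set_option autoImplicit false
open Filter Topology

namespace Pool.Agent.PMD

open Pool.Agent.Helper27.FM


private theorem core {E : Type*} [NontriviallyNormedField E] [CharZero E] {G : Type*} [Group G]
    [TopologicalSpace G] [IsTopologicalGroup G] [CompactSpace G] [TotallyDisconnectedSpace G]
    {V : G →* GL (Fin 2) E} (hV : Continuous V) (hirr : StronglyIrreducible V)
    {N : Subgroup G} (hN : N.Normal) {x : G} (hx : x ∈ N) (hxns : ∀ c : E, (V x : M2 E) ≠ c • (1 : M2 E))
    {U : Subgroup G} (hU : IsOpen (U : Set G)) :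
    ∃ x ∈ N ⊓ U, ∀ c : E, (V x : M2 E) ≠ c • (1 : M2 E) := by
  by_contra hcon
  have hcon' : ∀ y ∈ N ⊓ U, ∃ c : E, (V y : M2 E) = c • (1 : M2 E) := by
    intro y hy
    by_contra h3
    push Not at h3
    exact hcon ⟨y, hy, h3⟩
  have hne : (1 : M2 E) ≠ -1 := by
    intro h
    have h1 := congrFun (congrFun h 0) 0
    rw [Matrix.neg_apply, Matrix.one_apply_eq] at h1
    have h2 : (2 : E) = 0 := by linear_combination h1
    exact two_ne_zero h2
  have hc0 : Continuous fun g : G => g * x * g⁻¹ * x⁻¹ :=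
    ((continuous_id.mul continuous_const).mul continuous_inv).mul continuous_const
  have hc : Continuous fun g : G => (V (g * x * g⁻¹ * x⁻¹) : M2 E) :=
    Units.continuous_val.comp (hV.comp hc0)
  have hpre1 : (fun g : G => g * x * g⁻¹ * x⁻¹) ⁻¹' (U : Set G) ∈ 𝓝 (1 : G) := by
    apply hc0.continuousAt
    have h1 : (1 : G) * x * 1⁻¹ * x⁻¹ = 1 := by group
    show (U : Set G) ∈ 𝓝 ((1 : G) * x * 1⁻¹ * x⁻¹)
    rw [h1]
    exact hU.mem_nhds U.one_mem
  have hpre2 : (fun g : G => (V (g * x * g⁻¹ * x⁻¹) : M2 E)) ⁻¹' {(-1 : M2 E)}ᶜ ∈ 𝓝 (1 : G) := by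
    apply hc.continuousAt
    have h1 : (V ((1 : G) * x * 1⁻¹ * x⁻¹) : M2 E) = 1 := by
      have h2 : (1 : G) * x * 1⁻¹ * x⁻¹ = 1 := by group
      rw [h2, map_one, Units.val_one]
    show {(-1 : M2 E)}ᶜ ∈ 𝓝 (V ((1 : G) * x * 1⁻¹ * x⁻¹) : M2 E)
    rw [h1]
    exact isOpen_compl_singleton.mem_nhds hne
  have hNo := isOpen_interior (s := (fun g : G => g * x * g⁻¹ * x⁻¹) ⁻¹' (U : Set G) ∩
    (fun g : G => (V (g * x * g⁻¹ * x⁻¹) : M2 E)) ⁻¹' {(-1 : M2 E)}ᶜ)
  obtain ⟨H, hH⟩ := ProfiniteGrp.exist_openNormalSubgroup_sub_open_nhds_of_one hNo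
    (mem_interior_iff_mem_nhds.2 (Filter.inter_mem hpre1 hpre2))
  have hcomm : ∀ g ∈ H.toSubgroup, (V g : M2 E) * (V x : M2 E) = (V x : M2 E) * (V g : M2 E) := by
    intro g hg
    obtain ⟨hg1, hg2⟩ := interior_subset (hH hg)
    have hyN : g * x * g⁻¹ * x⁻¹ ∈ N := N.mul_mem (hN.conj_mem x hx g) (N.inv_mem hx)
    obtain ⟨c, hc2⟩ := hcon' _ ⟨hyN, hg1⟩
    have hd : (V (g * x * g⁻¹ * x⁻¹) : M2 E).det = 1 := by
      have h2 : Matrix.GeneralLinearGroup.det (V (g * x * g⁻¹ * x⁻¹)) = 1 := by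
        rw [map_mul, map_mul, map_mul, map_mul, map_mul, map_mul, map_inv, map_inv, map_inv,
          map_inv]
        rw [mul_comm (Matrix.GeneralLinearGroup.det (V g))]
        group
      have h3 := congrArg (fun u : Eˣ => (u : E)) h2
      exact h3
    have hc3 : c ^ 2 = 1 := by
      rw [hc2, Matrix.det_smul, Matrix.det_one, Fintype.card_fin, mul_one] at hd
      exact hd
    have hc4 : c = 1 := by
      rcases (sq_eq_one_iff (a := c)).1 hc3 with h | h
      · exact h
      · exfalso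
        apply hg2
        show (V (g * x * g⁻¹ * x⁻¹) : M2 E) = -1
        rw [hc2, h, neg_smul, one_smul]
    have h5 : V (g * x * g⁻¹ * x⁻¹) = 1 := by
      apply Units.ext
      rw [hc2, hc4, one_smul]
      rfl
    have h6 : V g * V x = V x * V g := by
      rw [map_mul, map_mul, map_mul, map_inv, map_inv] at h5
      calc V g * V x = (V g * V x * (V g)⁻¹ * (V x)⁻¹) * (V x * V g) := by group
        _ = V x * V g := by rw [h5, one_mul]
    exact congrArg (fun u : GL (Fin 2) E => (u : M2 E)) h6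
  have hspan := hirr H.toSubgroup H.isOpen'
  have hall : ∀ X : M2 E, (V x : M2 E) * X = X * (V x : M2 E) := by
    intro X
    have hX : X ∈ Submodule.span E
        ((fun g => (V g : Matrix (Fin 2) (Fin 2) E)) '' (H.toSubgroup : Set G)) := by
      rw [hspan]; exact Submodule.mem_top
    induction hX using Submodule.span_induction with
    | mem z hz =>
      obtain ⟨g, hg, rfl⟩ := hz
      exact (hcomm g hg).symm
    | zero => rw [zero_mul, mul_zero]
    | add a b _ _ ha hb => rw [add_mul, mul_add, ha, hb]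
    | smul c a _ ha => rw [smul_mul_assoc, mul_smul_comm, ha]
  exact hxns _ (scalar_of_commutes hall)

theorem exists_ns (p : ℕ) [hp : Fact p.Prime] {E : Type*} [NontriviallyNormedField E]
    [IsUltrametricDist E] [NormedAlgebra ℚ_[p] E] [FiniteDimensional ℚ_[p] E] {G : Type*} [Group G]
    [TopologicalSpace G] [IsTopologicalGroup G] [CompactSpace G] [TotallyDisconnectedSpace G]
    {V : G →* GL (Fin 2) E} (hV : Continuous V) (hirr : StronglyIrreducible V)
    {N : Subgroup G} (hN : N.Normal) (hns : ∃ x ∈ N, ∀ c : E, (V x : M2 E) ≠ c • (1 : M2 E))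
    {U : Subgroup G} (hU : IsOpen (U : Set G)) :
    ∃ x ∈ N ⊓ U, ∀ c : E, (V x : M2 E) ≠ c • (1 : M2 E) := by
  have hchar : CharZero E := charZero_of_injective_algebraMap (algebraMap ℚ_[p] E).injective
  obtain ⟨x, hx, hxns⟩ := hns
  exact core hV hirr hN hx hxns hU

theorem span_inf (p : ℕ) [hp : Fact p.Prime] {E : Type*} [NontriviallyNormedField E]
    [IsUltrametricDist E] [NormedAlgebra ℚ_[p] E] [FiniteDimensional ℚ_[p] E] {G : Type*} [Group G]
    [TopologicalSpace G] [IsTopologicalGroup G] [CompactSpace G] [TotallyDisconnectedSpace G]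
    {V : G →* GL (Fin 2) E} (hV : Continuous V) (hirr : StronglyIrreducible V)
    {N : Subgroup G} (hN : N.Normal) (hns : ∃ x ∈ N, ∀ c : E, (V x : M2 E) ≠ c • (1 : M2 E))
    {U : Subgroup G} (hU : IsOpen (U : Set G)) :
    Submodule.span E ((fun g => (V g : M2 E)) '' ((N ⊓ U : Subgroup G) : Set G)) = ⊤ := by
  have hchar : CharZero E := charZero_of_injective_algebraMap (algebraMap ℚ_[p] E).injective
  obtain ⟨x, hx, hxns⟩ := hns
  obtain ⟨U₀, hU₀⟩ := ProfiniteGrp.exist_openNormalSubgroup_sub_open_nhds_of_one hU U.one_mem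
  obtain ⟨y, hy, hyns⟩ := core hV hirr hN hx hxns U₀.isOpen'
  obtain ⟨S, hS⟩ : ∃ S : Submodule E (M2 E), S = Submodule.span E
    ((fun g => (V g : M2 E)) '' ((N ⊓ U₀.toSubgroup : Subgroup G) : Set G)) := ⟨_, rfl⟩
  have hmem : ∀ g ∈ N ⊓ U₀.toSubgroup, (V g : M2 E) ∈ S := by
    intro g hg
    rw [hS]
    exact Submodule.subset_span ⟨g, hg, rfl⟩
  have h1S : (1 : M2 E) ∈ S := by
    have h1 := hmem 1 (Subgroup.one_mem _)
    rwa [map_one, Units.val_one] at h1
  have hst : ∀ g, ∀ a ∈ S, cj (V g) a ∈ S := by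
    intro g a ha
    rw [hS] at ha
    induction ha using Submodule.span_induction with
    | mem z hz =>
      obtain ⟨n, hn, rfl⟩ := hz
      have h1 : cj (V g) (V n : M2 E) = (V (g * n * g⁻¹) : M2 E) := by
        unfold cj
        rw [map_mul, map_mul, map_inv, Units.val_mul, Units.val_mul]
      show cj (V g) (V n : M2 E) ∈ S
      rw [h1]
      exact hmem _ ⟨hN.conj_mem n hn.1 g, U₀.isNormal'.conj_mem n hn.2 g⟩
    | zero => rw [cj_zero]; exact S.zero_mem
    | add a b _ _ ha hb => rw [cj_add]; exact S.add_mem ha hb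
    | smul c a _ ha => rw [cj_smul]; exact S.smul_mem c ha
  have htr : ∀ (a : M2 E), (a - (a.trace / 2) • (1 : M2 E)).trace = 0 := by
    intro a
    rw [Matrix.trace_sub, Matrix.trace_smul, Matrix.trace_one, Fintype.card_fin, smul_eq_mul]
    push_cast
    rw [div_mul_cancel₀ _ (two_ne_zero), sub_self]
  have hfull : ∀ a : M2 E, a.trace = 0 → a ∈ S := by
    intro a ha
    have h1 := (adSimple_of_strIrr hV (fun U hU => hirr U hU))
      (S ⊓ LinearMap.ker (Matrix.traceLinearMap (Fin 2) E E)) (fun a ha => ha.2) ?_ ?_ a ha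
    · exact h1.1
    · intro g a ha
      refine ⟨hst g a ha.1, ?_⟩
      show (cj (V g) a).trace = 0
      rw [trace_cj]
      exact ha.2
    · refine ⟨(V y : M2 E) - ((V y : M2 E).trace / 2) • (1 : M2 E), ⟨S.sub_mem (hmem y hy)
        (S.smul_mem _ h1S), htr _⟩, ?_⟩
      intro h0
      exact hyns _ (sub_eq_zero.1 h0)
  have hStop : S = ⊤ := by
    rw [eq_top_iff]
    intro a _
    have h1 : a = (a - (a.trace / 2) • (1 : M2 E)) + (a.trace / 2) • (1 : M2 E) := by
      rw [sub_add_cancel]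
    rw [h1]
    exact S.add_mem (hfull _ (htr a)) (S.smul_mem _ h1S)
  rw [eq_top_iff, ← hStop, hS]
  refine Submodule.span_mono (Set.image_mono ?_)
  intro g hg
  exact ⟨hg.1, hU₀ hg.2⟩

end Pool.Agent.PMD
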