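import Pool.Agent.PMD.Gam

/-!
# Project PMD (MP_b583a4_nt), module Surj: `Γ (n+1)` maps onto `L (n+1) / L (n+2)`

The elements which are reached form a closed subgroup, which contains the generators of `L (n+1)` by the
commutator estimate `H_comm`.
-/

set_option autoImplicit false
open Filter Topology

namespace Pool.Agent.PMD.Dat

variable {p : ℕ} {B : Type*} [CommRing B] [TopologicalSpace B] [IsTopologicalRing B] [T2Space B]
  {G : Type*} [Group G] [TopologicalSpace G] [IsTopologicalGroup G] [CompactSpace G] (d : Dat p B G)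

/-- the elements which are reached modulo `L (n+2)` -/
private def Q (hodd : Odd p) (n : ℕ) : AddSubgroup (Mt B) where
  carrier := {z | ∃ g ∈ d.Γ (n + 1), th (d.R g) - z ∈ d.L (n + 2)}
  zero_mem' := by
    refine ⟨1, (d.Γ (n + 1)).one_mem, ?_⟩
    rw [map_one, th_one, sub_zero]
    exact (d.L (n + 2)).zero_mem
  add_mem' := by
    rintro z z' ⟨g, hg, h⟩ ⟨g', hg', h'⟩
    refine ⟨g * g', (d.Γ (n + 1)).mul_mem hg hg', ?_⟩
    have h1 := d.H_add hodd (d.R_mem hodd (n + 1) hg) (d.R_mem hodd (n + 1) hg')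
    have h2 : th (d.R (g * g')) - (z + z') = (th (d.R g * d.R g') - (th (d.R g) + th (d.R g'))) +
        (th (d.R g) - z) + (th (d.R g') - z') := by
      rw [map_mul]
      abel
    rw [h2]
    exact (d.L (n + 2)).add_mem ((d.L (n + 2)).add_mem h1 h) h'
  neg_mem' := by
    rintro z ⟨g, hg, h⟩
    refine ⟨g⁻¹, (d.Γ (n + 1)).inv_mem hg, ?_⟩
    have h1 : th (d.R g⁻¹) - -z = -(th (d.R g) - z) := by
      rw [← d.adj_eq (d.Γ_le_D (n + 1) hg), th_adj]
      abel
    rw [h1]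
    exact (d.L (n + 2)).neg_mem h

private theorem Q_closed (hodd : Odd p) (n : ℕ) : IsClosed (d.Q hodd n : Set (Mt B)) := by
  have h1 : IsClosed {x : G × Mt B | x.1 ∈ d.Γ (n + 1) ∧ th (d.R x.1) - x.2 ∈ d.L (n + 2)} := by
    refine IsClosed.inter ?_ ?_
    · exact (d.Γ_closed (n + 1)).preimage continuous_fst
    · exact (d.L_closed (n + 2)).preimage
        (((th_continuous.comp (d.cR.comp continuous_fst))).sub continuous_snd)
  have h2 := isClosedMap_snd_of_compactSpace (X := G) (Y := Mt B) _ h1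
  have h3 : (d.Q hodd n : Set (Mt B)) = Prod.snd ''
      {x : G × Mt B | x.1 ∈ d.Γ (n + 1) ∧ th (d.R x.1) - x.2 ∈ d.L (n + 2)} := by
    ext z
    constructor
    · rintro ⟨g, hg, h⟩
      exact ⟨(g, z), ⟨hg, h⟩, rfl⟩
    · rintro ⟨⟨g, z'⟩, ⟨hg, h⟩, rfl⟩
      exact ⟨g, hg, h⟩
  rw [h3]
  exact h2

private theorem le_Q (hodd : Odd p) (n : ℕ) {z : Mt B} (hz : z ∈ d.L (n + 2)) :
    z ∈ d.Q hodd n := by
  refine ⟨1, (d.Γ (n + 1)).one_mem, ?_⟩
  rw [map_one, th_one, zero_sub]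
  exact (d.L (n + 2)).neg_mem hz

open scoped commutatorElement in
private theorem br_Q (hodd : Odd p) (n : ℕ) {x y : G} (hx : x ∈ d.D) (hy : y ∈ d.Γ n) :
    br (th (d.R x)) (th (d.R y)) ∈ d.Q hodd n := by
  have h1 := (d.H_comm hodd (d.R_mem_H hodd hx) (d.R_mem hodd n hy)).2
  have h2 : d.F.half • br (th (d.R x)) (th (d.R y)) ∈ d.Q hodd n := by
    refine ⟨⁅x, y⁆, ?_, ?_⟩
    · exact Subgroup.le_topologicalClosure _ (Subgroup.commutator_mem_commutator hx hy)
    · rw [commutatorElement_def, map_mul, map_mul, map_mul, ← d.adj_eq hx,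
        ← d.adj_eq (d.Γ_le_D n hy)]
      exact h1
  have h3 := (d.Q hodd n).add_mem h2 h2
  rwa [← add_smul, d.F.half_add, one_smul] at h3

/-- it suffices to treat the generators `th (R x)` in the first variable -/
private theorem gen_Q (hodd : Odd p) (n : ℕ)
    (h : ∀ x ∈ d.D, ∀ w ∈ d.L n, br (th (d.R x)) w ∈ d.Q hodd n) {z : Mt B}
    (hz : z ∈ d.L (n + 1)) : z ∈ d.Q hodd n := by
  rw [L_succ] at hz
  refine cspan_le (d.Q_closed hodd n) ?_ hz
  rintro z' ⟨u, hu, v, hv, rfl⟩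
  refine cspan_map (brL v) (brL_continuous v) (d.Q_closed hodd n) ?_ hu
  rintro s ⟨x, hx, rfl⟩
  exact h x hx v hv

private theorem surj_Q (hodd : Odd p) (n : ℕ) : ∀ z ∈ d.L (n + 1), z ∈ d.Q hodd n := by
  induction n with
  | zero =>
    intro z hz
    refine d.gen_Q hodd 0 ?_ hz
    intro x hx w hw
    refine cspan_map (brR (th (d.R x))) (brR_continuous _) (d.Q_closed hodd 0) ?_ hw
    rintro s ⟨y, hy, rfl⟩
    exact d.br_Q hodd 0 hx hy
  | succ n ih =>
    intro z hz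
    refine d.gen_Q hodd (n + 1) ?_ hz
    intro x hx w hw
    obtain ⟨y, hy, h1⟩ := ih w hw
    have h2 := d.br_Q hodd (n + 1) hx hy
    have h3 := d.le_Q hodd (n + 1) (d.br_mem (n + 2) (d.th_mem hx) h1)
    have h4 : br (th (d.R x)) w = br (th (d.R x)) (th (d.R y)) -
        br (th (d.R x)) (th (d.R y) - w) := by
      simp only [br]
      noncomm_ring
    rw [h4]
    exact (d.Q hodd (n + 1)).sub_mem h2 h3

theorem surj (hodd : Odd p) (n : ℕ) {z : Mt B} (hz : z ∈ d.L (n + 1)) :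
    ∃ g ∈ d.Γ (n + 1), th (d.R g) - z ∈ d.L (n + 2) := by
  exact d.surj_Q hodd n z hz

end Pool.Agent.PMD.Dat
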