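import Pool.Agent.PMD.Lim

/-!
# Project PMD (MP_b583a4_nt), module Zero: elements of `L 1` which vanish in the first factor come from group elements

Over `B = A × E` (`E` a normed field) an element of `L 1` with first components `0` and nonzero second component gives,
by a geometric series and Pink's theorem, an element of the group which is `1` in the first factor and not scalar in the second.
-/

set_option autoImplicit false
open Filter Topology

namespace Pool.Agent.PMD.Dat

/-- geometric series in a closed subgroup -/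
private theorem zero_geo {E : Type*} [NontriviallyNormedField E] {P : AddSubgroup E}
    (hP : IsClosed (P : Set E)) {s u : E} (hs : ‖s‖ < 1) (hu : u ∈ P) (hmul : ∀ e ∈ P, s * e ∈ P) :
    (1 - s)⁻¹ * u ∈ P := by
  have h1 : ∀ n : ℕ, (∑ k ∈ Finset.range n, s ^ k) * u ∈ P := by
    intro n
    induction n with
    | zero => simp
    | succ n ih =>
      rw [geom_sum_succ, add_mul, one_mul, mul_assoc]
      exact P.add_mem (hmul _ ih) hu
  have h2 : Tendsto (fun n : ℕ => (∑ k ∈ Finset.range n, s ^ k) * u) atTop (𝓝 ((1 - s)⁻¹ * u)) :=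
    (hasSum_geometric_of_norm_lt_one hs).tendsto_sum_nat.mul_const u
  exact hP.mem_of_tendsto h2 (Eventually.of_forall h1)

variable {p : ℕ} {A : Type*} [CommRing A] [TopologicalSpace A] [IsTopologicalRing A] [T2Space A]
  {E : Type*} [NontriviallyNormedField E]
  {G : Type*} [Group G] [TopologicalSpace G] [IsTopologicalGroup G] [CompactSpace G] (d : Dat p (A × E) G)

/-- matrices with first components zero and second components proportional to `v` -/
private def zeroZ (A : Type*) [CommRing A] {E : Type*} [NontriviallyNormedField E] (v : Mt E) :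
    E →+ Mt (A × E) where
  toFun e := Matrix.of fun i j => ((0 : A), e * v i j)
  map_zero' := by
    ext i j <;> simp
  map_add' e e' := by
    ext i j <;> simp [add_mul]

omit [IsTopologicalRing A] [T2Space A] in
private theorem zeroZ_cont (v : Mt E) : Continuous (zeroZ A v) := by
  refine continuous_matrix fun i j => ?_
  exact continuous_const.prodMk (continuous_id.mul continuous_const)

theorem exists_lift (hodd : Odd p) (hF : ∀ b ∈ d.F.M 1, ‖b.2‖ < 1) {z : Mt (A × E)} (hz : z ∈ d.L 1)
    (h0 : ∀ i j, (z i j).1 = 0) (hne : ∃ i j, (z i j).2 ≠ 0) :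
    ∃ g ∈ d.D, (∀ i j, (d.R g i j).1 = (1 : Mt A) i j) ∧
      ∀ c : E, ∃ i j, (d.R g i j).2 ≠ (c • (1 : Mt E)) i j := by
  obtain ⟨a, ha⟩ : ∃ a : E, z 0 0 = (0, a) := ⟨(z 0 0).2, Prod.ext (h0 0 0) rfl⟩
  obtain ⟨b, hb⟩ : ∃ b : E, z 0 1 = (0, b) := ⟨(z 0 1).2, Prod.ext (h0 0 1) rfl⟩
  obtain ⟨c, hc⟩ : ∃ c : E, z 1 0 = (0, c) := ⟨(z 1 0).2, Prod.ext (h0 1 0) rfl⟩
  obtain ⟨a', ha'⟩ : ∃ a' : E, z 1 1 = (0, a') := ⟨(z 1 1).2, Prod.ext (h0 1 1) rfl⟩
  have htr : a' = -a := by
    have ht := d.trace_zero 1 hz
    rw [Matrix.trace_fin_two, ha, ha'] at ht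
    have h2 : a + a' = 0 := congrArg Prod.snd ht
    linear_combination h2
  subst htr
  have hh : d.F.half.2 + d.F.half.2 = 1 := congrArg Prod.snd d.F.half_add
  have h2 : (2 : E) ≠ 0 := by
    intro h
    have h3 : d.F.half.2 * 2 = 1 := by rw [mul_two, hh]
    rw [h, mul_zero] at h3
    exact zero_ne_one h3
  set s : E := a ^ 2 + b * c with hs
  set v : Mt E := !![a, b; c, -a] with hv
  have hzv : z = zeroZ A v 1 := by
    apply ext4
    · rw [ha]; simp [zeroZ, hv]
    · rw [hb]; simp [zeroZ, hv]
    · rw [hc]; simp [zeroZ, hv]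
    · rw [ha']; simp [zeroZ, hv]
  have hz0 : z ∈ d.L0 := d.L_anti (Nat.zero_le 1) hz
  -- `(0, s) ∈ C`
  have hsC : ((0 : A), s) ∈ d.C := by
    have h3 := d.F.half_mem hodd d.C_closed (d.tr_mem hz0 hz0)
    have h4 : d.F.half • (z * z).trace = ((0 : A), s) := by
      rw [Matrix.trace_fin_two, Matrix.mul_apply, Matrix.mul_apply, Fin.sum_univ_two,
        Fin.sum_univ_two, ha, hb, hc, ha', smul_eq_mul]
      apply Prod.ext
      · simp
      · simp only [Prod.snd_mul, Prod.snd_add]
        rw [hs]
        linear_combination (a ^ 2 + b * c) * hh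
    rwa [h4] at h3
  have hs1 : ‖s‖ < 1 := hF _ (d.F.anti 1 2 (by norm_num) (d.C_small hsC))
  have hs1' : (1 : E) - s ≠ 0 := by
    intro h
    have h3 : s = 1 := by linear_combination -h
    rw [h3, norm_one] at hs1
    exact lt_irrefl _ hs1
  set q : E := (1 - s)⁻¹ with hq
  have hq1 : q * (1 - s) = 1 := inv_mul_cancel₀ hs1'
  have hq0 : q ≠ 0 := inv_ne_zero hs1'
  -- `4 q v ∈ L 1`
  have hL : zeroZ A v (4 * q) ∈ d.L 1 := by
    have h3 : q * 1 ∈ (d.L 1).comap (zeroZ A v) := by
      refine zero_geo (P := (d.L 1).comap (zeroZ A v)) ((d.L_closed 1).preimage (zeroZ_cont v)) hs1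
        ?_ ?_
      · show zeroZ A v 1 ∈ d.L 1
        rw [← hzv]
        exact hz
      · intro e he
        have h4 := d.C_smul 1 hsC (show zeroZ A v e ∈ d.L 1 from he)
        have h5 : ((0 : A), s) • zeroZ A v e = zeroZ A v (s * e) := by
          ext i j
          · simp [zeroZ]
          · simp [zeroZ, mul_assoc]
        show zeroZ A v (s * e) ∈ d.L 1
        rwa [h5] at h4
    have h4 := AddSubgroup.nsmul_mem _ h3 4
    have h5 : (4 : ℕ) • (q * 1) = 4 * q := by
      rw [nsmul_eq_mul, mul_one]
      norm_num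
    rw [h5] at h4
    exact h4
  -- `4 q s ∈ C`
  have hC : ((0 : A), 4 * (q * s)) ∈ d.C := by
    have h3 : q * s ∈ d.C.comap (AddMonoidHom.inr A E) := by
      refine zero_geo (P := d.C.comap (AddMonoidHom.inr A E))
        (d.C_closed.preimage (continuous_const.prodMk continuous_id)) hs1 ?_ ?_
      · exact hsC
      · intro e he
        have h4 := d.C_mul hsC (show ((0 : A), e) ∈ d.C from he)
        have h5 : ((0 : A), s) * ((0 : A), e) = ((0 : A), s * e) := by
          apply Prod.ext <;> simp
        rw [h5] at h4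
        exact h4
    have h4 := AddSubgroup.nsmul_mem _ h3 4
    have h5 : (4 : ℕ) • (q * s) = 4 * (q * s) := by
      rw [nsmul_eq_mul]
      norm_num
    rw [h5] at h4
    exact h4
  set x : Mt (A × E) := !![((1 : A), q * (1 + s + 2 * a)), ((0 : A), 2 * q * b);
    ((0 : A), 2 * q * c), ((1 : A), q * (1 + s - 2 * a))] with hx
  have hxH : x ∈ d.H 1 := by
    refine ⟨?_, ?_, ?_⟩
    · rw [hx, Matrix.det_fin_two_of]
      apply Prod.ext
      · simp
      · simp only [Prod.snd_mul, Prod.snd_sub, Prod.snd_one]
        have h3 : q * (1 + s + 2 * a) * (q * (1 + s - 2 * a)) - 2 * q * b * (2 * q * c) =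
            (q * (1 - s)) ^ 2 := by
          rw [hs]
          ring
        rw [h3, hq1, one_pow]
    · have h3 : th x = zeroZ A v (4 * q) := by
        rw [hx]
        apply ext4
        · simp only [th, Matrix.adjugate_fin_two_of]
          apply Prod.ext
          · simp [zeroZ]
          · simp [zeroZ, hv]
            ring
        · simp only [th, Matrix.adjugate_fin_two_of]
          apply Prod.ext
          · simp [zeroZ]
          · simp [zeroZ, hv]
            ring
        · simp only [th, Matrix.adjugate_fin_two_of]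
          apply Prod.ext
          · simp [zeroZ]
          · simp [zeroZ, hv]
            ring
        · simp only [th, Matrix.adjugate_fin_two_of]
          apply Prod.ext
          · simp [zeroZ]
          · simp [zeroZ, hv]
            ring
      rw [h3]
      exact hL
    · have h3 : x.trace - 2 = ((0 : A), 4 * (q * s)) := by
        rw [hx, Matrix.trace_fin_two_of]
        apply Prod.ext
        · show (1 : A) + 1 - 2 = 0
          norm_num
        · show q * (1 + s + 2 * a) + q * (1 + s - 2 * a) - 2 = 4 * (q * s)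
          linear_combination 2 * hq1
      rw [h3]
      exact hC
  obtain ⟨g, hg, hgx⟩ := d.exists_of_mem_H1 hodd hxH
  refine ⟨g, d.Γ_le_D 1 hg, ?_, ?_⟩
  · intro i j
    rw [hgx, hx]
    fin_cases i <;> fin_cases j <;> simp
  · intro e
    by_contra hcon
    push Not at hcon
    rw [hgx] at hcon
    have e00 := hcon 0 0
    have e01 := hcon 0 1
    have e10 := hcon 1 0
    have e11 := hcon 1 1
    simp [hx] at e00 e01 e10 e11
    have hb0 : b = 0 := by
      rcases e01 with h3 | h3
      · rcases h3 with h3 | h3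
        · exact absurd h3 h2
        · exact absurd h3 hq0
      · exact h3
    have hc0 : c = 0 := by
      rcases e10 with h3 | h3
      · rcases h3 with h3 | h3
        · exact absurd h3 h2
        · exact absurd h3 hq0
      · exact h3
    have ha0 : a = 0 := by
      have h3 : 2 * (2 * (q * a)) = 0 := by linear_combination e00 - e11
      rcases mul_eq_zero.1 h3 with h4 | h4
      · exact absurd h4 h2
      · rcases mul_eq_zero.1 h4 with h5 | h5
        · exact absurd h5 h2
        · exact (mul_eq_zero.1 h5).resolve_left hq0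
    obtain ⟨i, j, hij⟩ := hne
    apply hij
    rw [hzv]
    simp only [zeroZ, hv, ha0, hb0, hc0]
    fin_cases i <;> fin_cases j <;> simp

end Pool.Agent.PMD.Dat
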